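import Pool.Agent.Lib.MP_8a4e59_co.D.Stm

set_option autoImplicit false

namespace Pool.Agent.APP

open Finset

private noncomputable def D1_E (S : Finset ℤ) (w : ℤ → ℝ) (f : ℤ → ℝ) : ℝ := ∑ t ∈ S, w t * f t

section
variable {S : Finset ℤ} {w : ℤ → ℝ}

private lemma D1_mono (hw : ∀ t ∈ S, 0 ≤ w t) {f g : ℤ → ℝ} (h : ∀ t, f t ≤ g t) :
    D1_E S w f ≤ D1_E S w g := by
  unfold D1_E
  exact Finset.sum_le_sum (fun t ht => mul_le_mul_of_nonneg_left (h t) (hw t ht))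

private lemma D1_sq (hw : ∀ t ∈ S, 0 ≤ w t) (hs : ∑ t ∈ S, w t = 1) (f : ℤ → ℝ) :
    (D1_E S w f) ^ 2 ≤ D1_E S w (fun t => f t ^ 2) := by
  have h : 0 ≤ ∑ t ∈ S, w t * (f t - D1_E S w f) ^ 2 :=
    Finset.sum_nonneg (fun t ht => mul_nonneg (hw t ht) (sq_nonneg _))
  have e : ∑ t ∈ S, w t * (f t - D1_E S w f) ^ 2 =
      D1_E S w (fun t => f t ^ 2) - 2 * D1_E S w f * (∑ t ∈ S, w t * f t) +
        (D1_E S w f) ^ 2 * ∑ t ∈ S, w t := by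
    have e2 : D1_E S w (fun t => f t ^ 2) = ∑ t ∈ S, w t * f t ^ 2 := rfl
    rw [e2, Finset.mul_sum, Finset.mul_sum, ← Finset.sum_sub_distrib, ← Finset.sum_add_distrib]
    apply Finset.sum_congr rfl
    intro t _
    ring
  have e3 : ∑ t ∈ S, w t * f t = D1_E S w f := rfl
  rw [hs, e3] at e
  rw [e] at h
  nlinarith

private lemma D1_comm (f : ℤ → ℤ → ℝ) :
    D1_E S w (fun s => D1_E S w (fun t => f s t)) = D1_E S w (fun t => D1_E S w (fun s => f s t)) := by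
  unfold D1_E
  simp only [Finset.mul_sum]
  rw [Finset.sum_comm]
  apply Finset.sum_congr rfl
  intro t _
  apply Finset.sum_congr rfl
  intro s _
  ring

private lemma D1_mul (c : ℝ) (f : ℤ → ℝ) : D1_E S w (fun t => c * f t) = c * D1_E S w f := by
  unfold D1_E
  rw [Finset.mul_sum]
  apply Finset.sum_congr rfl
  intro t _
  ring

private lemma D1_sqeq (f : ℤ → ℝ) :
    (D1_E S w f) ^ 2 = D1_E S w (fun t => D1_E S w (fun t' => f t * f t')) := by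
  simp only [D1_mul]
  rw [sq]
  unfold D1_E
  rw [Finset.sum_mul]
  apply Finset.sum_congr rfl
  intro t _
  ring

private lemma D1_fsq (a H : ℝ) (h : |a| ≤ 1) : (a * H) ^ 2 ≤ H ^ 2 := by
  rw [mul_pow]
  have h1 : a ^ 2 ≤ 1 := by
    rw [← sq_abs]
    have := abs_nonneg a
    nlinarith
  have h2 : 0 ≤ H ^ 2 := sq_nonneg _
  nlinarith

end

theorem p_D1 : S_D1 := by
  intro S w F₁ F₂ F₃ G hw hs h1 h2 h3
  let E : (ℤ → ℝ) → ℝ := D1_E S w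
  have hmono : ∀ {f g : ℤ → ℝ}, (∀ t, f t ≤ g t) → E f ≤ E g := fun h => D1_mono hw h
  have hsq : ∀ f : ℤ → ℝ, (E f) ^ 2 ≤ E (fun t => f t ^ 2) := fun f => D1_sq hw hs f
  have hcomm : ∀ f : ℤ → ℤ → ℝ, E (fun s => E (fun t => f s t)) = E (fun t => E (fun s => f s t)) :=
    fun f => D1_comm f
  have hmul : ∀ (c : ℝ) (f : ℤ → ℝ), E (fun t => c * f t) = c * E f := fun c f => D1_mul c f
  have hsqeq : ∀ f : ℤ → ℝ, (E f) ^ 2 = E (fun t => E (fun t' => f t * f t')) := fun f => D1_sqeq f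
  have hcongr : ∀ {f g : ℤ → ℝ}, (∀ t, f t = g t) → E f = E g := fun h => congrArg E (funext h)
  -- the starting expression
  have s0 : (∑ t₁ ∈ S, ∑ t₂ ∈ S, ∑ t₃ ∈ S, w t₁ * w t₂ * w t₃ *
      (F₁ t₁ t₃ * F₂ t₂ t₃ * F₃ t₁ t₂ * G t₁ t₂ t₃)) =
      E (fun t₁ => E (fun t₂ => E (fun t₃ => F₁ t₁ t₃ * F₂ t₂ t₃ * F₃ t₁ t₂ * G t₁ t₂ t₃))) := by
    change _ = ∑ t₁ ∈ S, w t₁ * ∑ t₂ ∈ S, w t₂ * ∑ t₃ ∈ S, w t₃ *
      (F₁ t₁ t₃ * F₂ t₂ t₃ * F₃ t₁ t₂ * G t₁ t₂ t₃)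
    simp only [Finset.mul_sum]
    refine Finset.sum_congr rfl fun t₁ _ => Finset.sum_congr rfl fun t₂ _ =>
      Finset.sum_congr rfl fun t₃ _ => ?_
    ring
  have s1 : E (fun t₁ => E (fun t₂ => E (fun t₃ => F₁ t₁ t₃ * F₂ t₂ t₃ * F₃ t₁ t₂ * G t₁ t₂ t₃))) =
      E (fun t₁ => E (fun t₃ => F₁ t₁ t₃ * E (fun t₂ => F₂ t₂ t₃ * F₃ t₁ t₂ * G t₁ t₂ t₃))) := by
    refine hcongr fun t₁ => ?_
    rw [hcomm]
    refine hcongr fun t₃ => ?_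
    rw [← hmul]
    refine hcongr fun t₂ => ?_
    ring
  -- first Cauchy-Schwarz
  have c1 : (E (fun t₁ => E (fun t₃ => F₁ t₁ t₃ * E (fun t₂ => F₂ t₂ t₃ * F₃ t₁ t₂ * G t₁ t₂ t₃)))) ^ 2 ≤
      E (fun t₁ => E (fun t₃ => (E (fun t₂ => F₂ t₂ t₃ * F₃ t₁ t₂ * G t₁ t₂ t₃)) ^ 2)) := by
    refine (hsq _).trans (hmono fun t₁ => (hsq _).trans (hmono fun t₃ => ?_))
    exact D1_fsq _ _ (h1 _ _)
  have s2 : E (fun t₁ => E (fun t₃ => (E (fun t₂ => F₂ t₂ t₃ * F₃ t₁ t₂ * G t₁ t₂ t₃)) ^ 2)) =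
      E (fun t₂ => E (fun t₂' => E (fun t₃ => (F₂ t₂ t₃ * F₂ t₂' t₃) *
        E (fun t₁ => F₃ t₁ t₂ * F₃ t₁ t₂' * (G t₁ t₂ t₃ * G t₁ t₂' t₃))))) := by
    calc E (fun t₁ => E (fun t₃ => (E (fun t₂ => F₂ t₂ t₃ * F₃ t₁ t₂ * G t₁ t₂ t₃)) ^ 2))
        = E (fun t₁ => E (fun t₃ => E (fun t₂ => E (fun t₂' =>
            (F₂ t₂ t₃ * F₃ t₁ t₂ * G t₁ t₂ t₃) * (F₂ t₂' t₃ * F₃ t₁ t₂' * G t₁ t₂' t₃))))) :=
          hcongr fun t₁ => hcongr fun t₃ => hsqeq _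
      _ = E (fun t₁ => E (fun t₂ => E (fun t₃ => E (fun t₂' =>
            (F₂ t₂ t₃ * F₃ t₁ t₂ * G t₁ t₂ t₃) * (F₂ t₂' t₃ * F₃ t₁ t₂' * G t₁ t₂' t₃))))) :=
          hcongr fun t₁ => hcomm _
      _ = E (fun t₂ => E (fun t₁ => E (fun t₃ => E (fun t₂' =>
            (F₂ t₂ t₃ * F₃ t₁ t₂ * G t₁ t₂ t₃) * (F₂ t₂' t₃ * F₃ t₁ t₂' * G t₁ t₂' t₃))))) :=
          hcomm _
      _ = E (fun t₂ => E (fun t₁ => E (fun t₂' => E (fun t₃ =>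
            (F₂ t₂ t₃ * F₃ t₁ t₂ * G t₁ t₂ t₃) * (F₂ t₂' t₃ * F₃ t₁ t₂' * G t₁ t₂' t₃))))) :=
          hcongr fun t₂ => hcongr fun t₁ => hcomm _
      _ = E (fun t₂ => E (fun t₂' => E (fun t₁ => E (fun t₃ =>
            (F₂ t₂ t₃ * F₃ t₁ t₂ * G t₁ t₂ t₃) * (F₂ t₂' t₃ * F₃ t₁ t₂' * G t₁ t₂' t₃))))) :=
          hcongr fun t₂ => hcomm _
      _ = E (fun t₂ => E (fun t₂' => E (fun t₃ => E (fun t₁ =>
            (F₂ t₂ t₃ * F₃ t₁ t₂ * G t₁ t₂ t₃) * (F₂ t₂' t₃ * F₃ t₁ t₂' * G t₁ t₂' t₃))))) :=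
          hcongr fun t₂ => hcongr fun t₂' => hcomm _
      _ = _ := by
          refine hcongr fun t₂ => hcongr fun t₂' => hcongr fun t₃ => ?_
          rw [← hmul]
          refine hcongr fun t₁ => ?_
          ring
  -- second Cauchy-Schwarz
  have c2 : (E (fun t₂ => E (fun t₂' => E (fun t₃ => (F₂ t₂ t₃ * F₂ t₂' t₃) *
        E (fun t₁ => F₃ t₁ t₂ * F₃ t₁ t₂' * (G t₁ t₂ t₃ * G t₁ t₂' t₃)))))) ^ 2 ≤
      E (fun t₂ => E (fun t₂' => E (fun t₃ =>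
        (E (fun t₁ => F₃ t₁ t₂ * F₃ t₁ t₂' * (G t₁ t₂ t₃ * G t₁ t₂' t₃))) ^ 2))) := by
    refine (hsq _).trans (hmono fun t₂ => (hsq _).trans (hmono fun t₂' =>
      (hsq _).trans (hmono fun t₃ => ?_)))
    apply D1_fsq
    rw [abs_mul]
    exact mul_le_one₀ (h2 _ _) (abs_nonneg _) (h2 _ _)
  have s3 : E (fun t₂ => E (fun t₂' => E (fun t₃ =>
        (E (fun t₁ => F₃ t₁ t₂ * F₃ t₁ t₂' * (G t₁ t₂ t₃ * G t₁ t₂' t₃))) ^ 2))) =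
      E (fun t₂ => E (fun t₂' => E (fun t₁ => E (fun t₁' =>
        (F₃ t₁ t₂ * F₃ t₁ t₂' * (F₃ t₁' t₂ * F₃ t₁' t₂')) *
        E (fun t₃ => G t₁ t₂ t₃ * G t₁ t₂' t₃ * (G t₁' t₂ t₃ * G t₁' t₂' t₃)))))) := by
    refine hcongr fun t₂ => hcongr fun t₂' => ?_
    calc E (fun t₃ => (E (fun t₁ => F₃ t₁ t₂ * F₃ t₁ t₂' * (G t₁ t₂ t₃ * G t₁ t₂' t₃))) ^ 2)
        = E (fun t₃ => E (fun t₁ => E (fun t₁' => (F₃ t₁ t₂ * F₃ t₁ t₂' * (G t₁ t₂ t₃ * G t₁ t₂' t₃)) *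
            (F₃ t₁' t₂ * F₃ t₁' t₂' * (G t₁' t₂ t₃ * G t₁' t₂' t₃))))) :=
          hcongr fun t₃ => hsqeq _
      _ = E (fun t₁ => E (fun t₃ => E (fun t₁' => (F₃ t₁ t₂ * F₃ t₁ t₂' * (G t₁ t₂ t₃ * G t₁ t₂' t₃)) *
            (F₃ t₁' t₂ * F₃ t₁' t₂' * (G t₁' t₂ t₃ * G t₁' t₂' t₃))))) := hcomm _
      _ = E (fun t₁ => E (fun t₁' => E (fun t₃ => (F₃ t₁ t₂ * F₃ t₁ t₂' * (G t₁ t₂ t₃ * G t₁ t₂' t₃)) *
            (F₃ t₁' t₂ * F₃ t₁' t₂' * (G t₁' t₂ t₃ * G t₁' t₂' t₃))))) :=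
          hcongr fun t₁ => hcomm _
      _ = _ := by
          refine hcongr fun t₁ => hcongr fun t₁' => ?_
          rw [← hmul]
          refine hcongr fun t₃ => ?_
          ring
  -- third Cauchy-Schwarz
  have c3 : (E (fun t₂ => E (fun t₂' => E (fun t₁ => E (fun t₁' =>
        (F₃ t₁ t₂ * F₃ t₁ t₂' * (F₃ t₁' t₂ * F₃ t₁' t₂')) *
        E (fun t₃ => G t₁ t₂ t₃ * G t₁ t₂' t₃ * (G t₁' t₂ t₃ * G t₁' t₂' t₃))))))) ^ 2 ≤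
      E (fun t₂ => E (fun t₂' => E (fun t₁ => E (fun t₁' =>
        (E (fun t₃ => G t₁ t₂ t₃ * G t₁ t₂' t₃ * (G t₁' t₂ t₃ * G t₁' t₂' t₃))) ^ 2)))) := by
    refine (hsq _).trans (hmono fun t₂ => (hsq _).trans (hmono fun t₂' =>
      (hsq _).trans (hmono fun t₁ => (hsq _).trans (hmono fun t₁' => ?_))))
    apply D1_fsq
    rw [abs_mul, abs_mul, abs_mul]
    exact mul_le_one₀ (mul_le_one₀ (h3 _ _) (abs_nonneg _) (h3 _ _)) (by positivity)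
      (mul_le_one₀ (h3 _ _) (abs_nonneg _) (h3 _ _))
  have s4 : E (fun t₂ => E (fun t₂' => E (fun t₁ => E (fun t₁' =>
        (E (fun t₃ => G t₁ t₂ t₃ * G t₁ t₂' t₃ * (G t₁' t₂ t₃ * G t₁' t₂' t₃))) ^ 2)))) =
      ∑ t₁ ∈ S, ∑ t₁' ∈ S, ∑ t₂ ∈ S, ∑ t₂' ∈ S, ∑ t₃ ∈ S, ∑ t₃' ∈ S,
      w t₁ * w t₁' * w t₂ * w t₂' * w t₃ * w t₃' *
        (G t₁ t₂ t₃ * G t₁ t₂ t₃' * G t₁ t₂' t₃ * G t₁ t₂' t₃' *
          (G t₁' t₂ t₃ * G t₁' t₂ t₃' * G t₁' t₂' t₃ * G t₁' t₂' t₃')) := by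
    calc E (fun t₂ => E (fun t₂' => E (fun t₁ => E (fun t₁' =>
        (E (fun t₃ => G t₁ t₂ t₃ * G t₁ t₂' t₃ * (G t₁' t₂ t₃ * G t₁' t₂' t₃))) ^ 2))))
        = E (fun t₂ => E (fun t₁ => E (fun t₂' => E (fun t₁' =>
        (E (fun t₃ => G t₁ t₂ t₃ * G t₁ t₂' t₃ * (G t₁' t₂ t₃ * G t₁' t₂' t₃))) ^ 2)))) :=
          hcongr fun t₂ => hcomm _
      _ = E (fun t₁ => E (fun t₂ => E (fun t₂' => E (fun t₁' =>
        (E (fun t₃ => G t₁ t₂ t₃ * G t₁ t₂' t₃ * (G t₁' t₂ t₃ * G t₁' t₂' t₃))) ^ 2)))) :=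
          hcomm _
      _ = E (fun t₁ => E (fun t₂ => E (fun t₁' => E (fun t₂' =>
        (E (fun t₃ => G t₁ t₂ t₃ * G t₁ t₂' t₃ * (G t₁' t₂ t₃ * G t₁' t₂' t₃))) ^ 2)))) :=
          hcongr fun t₁ => hcongr fun t₂ => hcomm _
      _ = E (fun t₁ => E (fun t₁' => E (fun t₂ => E (fun t₂' =>
        (E (fun t₃ => G t₁ t₂ t₃ * G t₁ t₂' t₃ * (G t₁' t₂ t₃ * G t₁' t₂' t₃))) ^ 2)))) :=
          hcongr fun t₁ => hcomm _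
      _ = E (fun t₁ => E (fun t₁' => E (fun t₂ => E (fun t₂' =>
        E (fun t₃ => E (fun t₃' => (G t₁ t₂ t₃ * G t₁ t₂' t₃ * (G t₁' t₂ t₃ * G t₁' t₂' t₃)) *
          (G t₁ t₂ t₃' * G t₁ t₂' t₃' * (G t₁' t₂ t₃' * G t₁' t₂' t₃')))))))) :=
          hcongr fun t₁ => hcongr fun t₁' => hcongr fun t₂ => hcongr fun t₂' => hsqeq _
      _ = _ := by
          change ∑ t₁ ∈ S, w t₁ * ∑ t₁' ∈ S, w t₁' * ∑ t₂ ∈ S, w t₂ * ∑ t₂' ∈ S, w t₂' *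
            ∑ t₃ ∈ S, w t₃ * ∑ t₃' ∈ S, w t₃' * _ = _
          simp only [Finset.mul_sum]
          refine Finset.sum_congr rfl fun t₁ _ => Finset.sum_congr rfl fun t₁' _ =>
            Finset.sum_congr rfl fun t₂ _ => Finset.sum_congr rfl fun t₂' _ =>
            Finset.sum_congr rfl fun t₃ _ => Finset.sum_congr rfl fun t₃' _ => ?_
          ring
  rw [s0, s1]
  set X := E (fun t₁ => E (fun t₃ => F₁ t₁ t₃ * E (fun t₂ => F₂ t₂ t₃ * F₃ t₁ t₂ * G t₁ t₂ t₃))) with hX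
  rw [s2] at c1
  rw [s3] at c2
  rw [s4] at c3
  have p1 := pow_le_pow_left₀ (sq_nonneg X) c1 2
  have p2 := p1.trans c2
  have p3 := pow_le_pow_left₀ (sq_nonneg _) p2 2
  have p4 := p3.trans c3
  calc X ^ 8 = ((X ^ 2) ^ 2) ^ 2 := by ring
    _ ≤ _ := p4

end Pool.Agent.APP
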