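import Pool.Agent.Lib.MP_8a4e59_co.D.Stm

set_option autoImplicit false

/-! (D1') The box norm as a sum over `[1,n]⁷`. (helper39) -/

namespace Pool.Agent.APP

open Finset

lemma D1p_cons (k : ℕ) (S : Finset ℤ) (f : (Fin (k + 1) → ℤ) → ℝ) :
    ∑ z ∈ Fintype.piFinset (fun _ : Fin (k + 1) => S), f z =
      ∑ x ∈ S, ∑ z ∈ Fintype.piFinset (fun _ : Fin k => S), f (Fin.cons x z) := by
  rw [← Finset.sum_product' S (Fintype.piFinset (fun _ : Fin k => S))
    (fun x z => f (Fin.cons x z))]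
  refine Finset.sum_bij' (fun z _ => (z 0, Fin.tail z)) (fun q _ => Fin.cons q.1 q.2) ?_ ?_ ?_ ?_ ?_
  · intro z hz
    rw [Fintype.mem_piFinset] at hz
    rw [Finset.mem_product, Fintype.mem_piFinset]
    exact ⟨hz 0, fun i => hz i.succ⟩
  · rintro ⟨x, z⟩ hq
    rw [Finset.mem_product, Fintype.mem_piFinset] at hq
    rw [Fintype.mem_piFinset]
    intro i
    refine Fin.cases ?_ (fun j => ?_) i
    · exact hq.1
    · exact hq.2 j
  · intro z _
    exact Fin.cons_self_tail z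
  · rintro ⟨x, z⟩ _
    simp
  · intro z _
    simp only [Fin.cons_self_tail]

lemma D1p_nil (S : Finset ℤ) (f : (Fin 0 → ℤ) → ℝ) :
    ∑ z ∈ Fintype.piFinset (fun _ : Fin 0 => S), f z = f Fin.elim0 := by
  rw [Fintype.piFinset_of_isEmpty]
  simp only [Finset.univ_unique, Finset.sum_singleton]
  exact congrArg f (Subsingleton.elim _ _)

lemma D1p_prod (k : ℕ) (f : (Fin (k + 1) → Bool) → ℝ) :
    ∏ o : Fin (k + 1) → Bool, f o = (∏ o : Fin k → Bool, f (Fin.cons true o)) *
      ∏ o : Fin k → Bool, f (Fin.cons false o) := by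
  rw [← (Fin.consEquiv (fun _ => Bool)).prod_comp, Fintype.prod_prod_type, Fintype.prod_bool]
  rfl

lemma D1p_prod3 (f : (Fin 3 → Bool) → ℝ) :
    ∏ o : Fin 3 → Bool, f o =
      f ![true, true, true] * f ![true, true, false] * f ![true, false, true] * f ![true, false, false] *
      (f ![false, true, true] * f ![false, true, false] * f ![false, false, true] *
        f ![false, false, false]) := by
  simp only [D1p_prod]
  simp only [Finset.univ_unique, Finset.prod_singleton]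
  have e : ∀ (a b c : Bool) (d : Fin 0 → Bool),
      (Fin.cons a (Fin.cons b (Fin.cons c d)) : Fin 3 → Bool) = ![a, b, c] := by
    intro a b c d
    funext i
    fin_cases i <;> rfl
  rw [e, e, e, e, e, e, e, e]
  ring

/-- (D1') -/
theorem p_D1p : S_D1' := by
  intro n b w G
  unfold Box7
  simp only [D1p_cons, D1p_nil]
  apply Finset.sum_congr rfl
  intro x _
  simp only [Finset.mul_sum]
  refine Finset.sum_congr rfl fun t₁ _ => Finset.sum_congr rfl fun t₁' _ =>
    Finset.sum_congr rfl fun t₂ _ => Finset.sum_congr rfl fun t₂' _ =>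
    Finset.sum_congr rfl fun t₃ _ => Finset.sum_congr rfl fun t₃' _ => ?_
  have e : (Fin.cons x (Fin.cons t₁ (Fin.cons t₁' (Fin.cons t₂ (Fin.cons t₂' (Fin.cons t₃
      (Fin.cons t₃' Fin.elim0)))))) : Fin 7 → ℤ) = ![x, t₁, t₁', t₂, t₂', t₃, t₃'] := by
    funext i
    fin_cases i <;> rfl
  rw [e, D1p_prod3]
  have hW : W7 b w ![x, t₁, t₁', t₂, t₂', t₃, t₃'] = b x * (w t₁ * w t₁' * w t₂ * w t₂' * w t₃ * w t₃') := rfl
  have hL : ∀ o : Fin 3 → Bool, LL o ![x, t₁, t₁', t₂, t₂', t₃, t₃'] =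
      x + (if o 0 then t₁ else t₁') + (if o 1 then t₂ else t₂') + (if o 2 then t₃ else t₃') := fun o => rfl
  rw [hW]
  simp only [hL]
  have h1 : ∀ a b c : Bool, (![a, b, c] : Fin 3 → Bool) 0 = a ∧ (![a, b, c] : Fin 3 → Bool) 1 = b ∧
      (![a, b, c] : Fin 3 → Bool) 2 = c := fun a b c => ⟨rfl, rfl, rfl⟩
  simp only [(h1 _ _ _).1, (h1 _ _ _).2.1, (h1 _ _ _).2.2]
  simp only [if_true, Bool.false_eq_true, if_false]
  ring

end Pool.Agent.APP
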