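import Pool.Agent.Lib.MP_8a4e59_co.D.Stm
import Pool.Agent.Lib.MP_8a4e59_co.A.P.shift

set_option autoImplicit false

/-!
(D2) the local von Neumann inequality.
-/

namespace Pool.Agent.APP

open Finset

theorem D2_abs_sum (s : Finset ℤ) (f : ℤ → ℝ) (M : ℝ) (hf : ∀ y, |f y| ≤ M) :
    |∑ y ∈ s, f y| ≤ M * (s.card : ℝ) := by
  refine (Finset.abs_sum_le_sum_abs _ _).trans ?_
  calc ∑ y ∈ s, |f y| ≤ ∑ _y ∈ s, M := Finset.sum_le_sum fun y _ => hf y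
    _ = M * (s.card : ℝ) := by rw [Finset.sum_const, nsmul_eq_mul, mul_comm]

/-- shift in the variable `y` -/
theorem D2_ysh (B : Finset ℤ) (h : ℤ) (φ : ℤ → ℝ) (M : ℝ) (hφ : ∀ y, |φ y| ≤ M) :
    |∑ y ∈ B, φ y - ∑ y ∈ B, φ (y + h)| ≤
      M * (((B.filter (fun y => y - h ∉ B)).card : ℝ) +
        ((B.filter (fun y => y + h ∉ B)).card : ℝ)) := by
  classical
  have h1 : ∑ y ∈ B, φ y = ∑ y ∈ B.filter (fun y => y - h ∈ B), φ y +
      ∑ y ∈ B.filter (fun y => y - h ∉ B), φ y :=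
    (Finset.sum_filter_add_sum_filter_not B _ _).symm
  have h2 : ∑ y ∈ B, φ (y + h) = ∑ y ∈ B.filter (fun y => y + h ∈ B), φ (y + h) +
      ∑ y ∈ B.filter (fun y => y + h ∉ B), φ (y + h) :=
    (Finset.sum_filter_add_sum_filter_not B _ _).symm
  have h3 : ∑ y ∈ B.filter (fun y => y - h ∈ B), φ y =
      ∑ y ∈ B.filter (fun y => y + h ∈ B), φ (y + h) := by
    refine Finset.sum_nbij' (fun y => y - h) (fun y => y + h) ?_ ?_ ?_ ?_ ?_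
    · intro y hy
      rw [Finset.mem_filter] at hy ⊢
      refine ⟨hy.2, ?_⟩
      rw [sub_add_cancel]
      exact hy.1
    · intro y hy
      rw [Finset.mem_filter] at hy ⊢
      refine ⟨hy.2, ?_⟩
      rw [add_sub_cancel_right]
      exact hy.1
    · intro y _
      exact sub_add_cancel y h
    · intro y _
      exact add_sub_cancel_right y h
    · intro y _
      simp only [sub_add_cancel]
  rw [h1, h2, h3]
  have e1 := D2_abs_sum (B.filter (fun y => y - h ∉ B)) φ M hφ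
  have e2 := D2_abs_sum (B.filter (fun y => y + h ∉ B)) (fun y => φ (y + h)) M
    (fun y => hφ (y + h))
  rw [abs_le] at e1 e2 ⊢
  constructor <;> linarith [e1.1, e1.2, e2.1, e2.2]

/-- shift in the variable `x` -/
theorem D2_xsh (n : ℕ) (T : ℤ) (hT : 0 ≤ T) (β ξ : ℤ → ℝ) (δ M : ℝ) (hδ : 0 ≤ δ) (hM : 0 ≤ M)
    (hβ0 : ∀ x, 0 ≤ β x) (hβ1 : ∀ x, β x ≤ 1) (hβ : ∀ x, |β x - β (x + T)| ≤ δ)
    (hξ : ∀ x, |ξ x| ≤ M) :
    |∑ x ∈ Finset.Icc (1 : ℤ) n, β x * ξ x - ∑ x ∈ Finset.Icc (1 : ℤ) n, β x * ξ (x + T)| ≤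
      M * (δ * n + 2 * T) := by
  classical
  have h1 : ∑ x ∈ Finset.Icc (1 : ℤ) n, β x * ξ x =
      ∑ x ∈ (Finset.Icc (1 : ℤ) n).filter (fun x => T < x), β x * ξ x +
      ∑ x ∈ (Finset.Icc (1 : ℤ) n).filter (fun x => ¬ T < x), β x * ξ x :=
    (Finset.sum_filter_add_sum_filter_not _ _ _).symm
  have h2 : ∑ x ∈ Finset.Icc (1 : ℤ) n, β x * ξ (x + T) =
      ∑ x ∈ (Finset.Icc (1 : ℤ) n).filter (fun x => x + T ≤ n), β x * ξ (x + T) +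
      ∑ x ∈ (Finset.Icc (1 : ℤ) n).filter (fun x => ¬ x + T ≤ n), β x * ξ (x + T) :=
    (Finset.sum_filter_add_sum_filter_not _ _ _).symm
  have h3 : ∑ x ∈ (Finset.Icc (1 : ℤ) n).filter (fun x => T < x), β x * ξ x =
      ∑ x ∈ (Finset.Icc (1 : ℤ) n).filter (fun x => x + T ≤ n), β (x + T) * ξ (x + T) := by
    refine Finset.sum_nbij' (fun x => x - T) (fun x => x + T) ?_ ?_ ?_ ?_ ?_
    · intro x hx
      rw [Finset.mem_filter, Finset.mem_Icc] at hx ⊢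
      omega
    · intro x hx
      rw [Finset.mem_filter, Finset.mem_Icc] at hx ⊢
      omega
    · intro x _
      exact sub_add_cancel x T
    · intro x _
      exact add_sub_cancel_right x T
    · intro x _
      simp only [sub_add_cancel]
  have hb : ∀ x y, |β x * ξ y| ≤ M := by
    intro x y
    rw [abs_mul, abs_of_nonneg (hβ0 x)]
    calc β x * |ξ y| ≤ 1 * M := mul_le_mul (hβ1 x) (hξ y) (abs_nonneg _) zero_le_one
      _ = M := one_mul M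
  -- middle part
  have e0 : |∑ x ∈ (Finset.Icc (1 : ℤ) n).filter (fun x => x + T ≤ n), β (x + T) * ξ (x + T) -
      ∑ x ∈ (Finset.Icc (1 : ℤ) n).filter (fun x => x + T ≤ n), β x * ξ (x + T)| ≤
      M * (δ * n) := by
    rw [← Finset.sum_sub_distrib]
    have h4 : ∀ x, |β (x + T) * ξ (x + T) - β x * ξ (x + T)| ≤ M * δ := by
      intro x
      have h5 : β (x + T) * ξ (x + T) - β x * ξ (x + T) = -((β x - β (x + T)) * ξ (x + T)) := by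
        ring
      rw [h5, abs_neg, abs_mul, mul_comm M δ]
      exact mul_le_mul (hβ x) (hξ _) (abs_nonneg _) hδ
    refine (D2_abs_sum _ _ (M * δ) h4).trans ?_
    rw [mul_assoc]
    refine mul_le_mul_of_nonneg_left (mul_le_mul_of_nonneg_left ?_ hδ) hM
    have h6 := Finset.card_filter_le (Finset.Icc (1 : ℤ) n) (fun x => x + T ≤ n)
    have h7 : (Finset.Icc (1 : ℤ) n).card = n := by simp
    rw [h7] at h6
    exact_mod_cast h6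
  have c1 : (((Finset.Icc (1 : ℤ) n).filter (fun x => ¬ T < x)).card : ℝ) ≤ T := by
    have h6 : (Finset.Icc (1 : ℤ) n).filter (fun x => ¬ T < x) ⊆ Finset.Icc (1 : ℤ) T := by
      intro x hx
      rw [Finset.mem_filter, Finset.mem_Icc] at hx
      rw [Finset.mem_Icc]
      omega
    have h7 := Finset.card_le_card h6
    rw [Int.card_Icc] at h7
    have h8 : (((Finset.Icc (1 : ℤ) n).filter (fun x => ¬ T < x)).card : ℤ) ≤ T := by omega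
    exact_mod_cast h8
  have c2 : (((Finset.Icc (1 : ℤ) n).filter (fun x => ¬ x + T ≤ n)).card : ℝ) ≤ T := by
    have h6 : (Finset.Icc (1 : ℤ) n).filter (fun x => ¬ x + T ≤ n) ⊆
        Finset.Icc ((n : ℤ) - T + 1) n := by
      intro x hx
      rw [Finset.mem_filter, Finset.mem_Icc] at hx
      rw [Finset.mem_Icc]
      omega
    have h7 := Finset.card_le_card h6
    rw [Int.card_Icc] at h7
    have h8 : (((Finset.Icc (1 : ℤ) n).filter (fun x => ¬ x + T ≤ n)).card : ℤ) ≤ T := by omega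
    exact_mod_cast h8
  have e1 := D2_abs_sum ((Finset.Icc (1 : ℤ) n).filter (fun x => ¬ T < x))
    (fun x => β x * ξ x) M (fun x => hb x x)
  have e2 := D2_abs_sum ((Finset.Icc (1 : ℤ) n).filter (fun x => ¬ x + T ≤ n))
    (fun x => β x * ξ (x + T)) M (fun x => hb x (x + T))
  have e1' := e1.trans (mul_le_mul_of_nonneg_left c1 hM)
  have e2' := e2.trans (mul_le_mul_of_nonneg_left c2 hM)
  rw [h1, h2, h3]
  rw [abs_le] at e0 e1' e2' ⊢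
  constructor <;> linarith [e0.1, e0.2, e1'.1, e1'.2, e2'.1, e2'.2]

/-- the three point sum -/
theorem D2_TT (A B : Finset ℤ) (d : ℤ) :
    TT A 0 B d = ∑ y ∈ B, (if y - d ∈ A then (1 : ℝ) else 0) * (if y ∈ A then 1 else 0) *
      (if y + d ∈ A then 1 else 0) := by
  classical
  unfold TT
  rw [Finset.card_filter]
  push_cast
  refine Finset.sum_congr rfl fun y _ => ?_
  simp only [zero_add]
  by_cases h1 : y - d ∈ A <;> by_cases h2 : y ∈ A <;> by_cases h3 : y + d ∈ A <;>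
    simp [h1, h2, h3]

/-- `a ≤ ε + a⁸/ε⁷` -/
theorem D2_jensen (a ε : ℝ) (hε : 0 < ε) : |a| ≤ ε + a ^ 8 / ε ^ 7 := by
  have h8 : a ^ 8 = |a| ^ 8 := (Even.pow_abs (by decide) a).symm
  rw [h8]
  rcases le_total |a| ε with h | h
  · have : 0 ≤ |a| ^ 8 / ε ^ 7 := by positivity
    linarith
  · have h1 : |a| ≤ |a| ^ 8 / ε ^ 7 := by
      rw [le_div_iff₀ (by positivity)]
      calc |a| * ε ^ 7 ≤ |a| * |a| ^ 7 :=
            mul_le_mul_of_nonneg_left (pow_le_pow_left₀ hε.le h 7) (abs_nonneg _)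
        _ = |a| ^ 8 := by ring
    linarith

/-- comparison for a fixed shift -/
theorem D2_cmp (n : ℕ) (T h : ℤ) (hT : 0 ≤ T) (B : Finset ℤ) (β : ℤ → ℝ) (φ : ℤ → ℤ → ℝ)
    (δ M c : ℝ) (hδ : 0 ≤ δ) (hM : 0 ≤ M)
    (hβ0 : ∀ x, 0 ≤ β x) (hβ1 : ∀ x, β x ≤ 1) (hβ : ∀ x, |β x - β (x + T)| ≤ δ)
    (hφ : ∀ x y, |φ x y| ≤ M)
    (hc1 : ((B.filter (fun y => y - h ∉ B)).card : ℝ) ≤ c)
    (hc2 : ((B.filter (fun y => y + h ∉ B)).card : ℝ) ≤ c) :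
    |∑ x ∈ Finset.Icc (1 : ℤ) n, β x * ∑ y ∈ B, φ x y -
      ∑ x ∈ Finset.Icc (1 : ℤ) n, β x * ∑ y ∈ B, φ (x + T) (y + h)| ≤
      (∑ x ∈ Finset.Icc (1 : ℤ) n, β x) * (M * (2 * c)) + M * B.card * (δ * n + 2 * T) := by
  have e1 := D2_xsh n T hT β (fun x => ∑ y ∈ B, φ x (y + h)) δ (M * B.card) hδ
    (mul_nonneg hM (Nat.cast_nonneg _)) hβ0 hβ1 hβ
    (fun x => D2_abs_sum B (fun y => φ x (y + h)) M (fun y => hφ x (y + h)))
  have e2 : |∑ x ∈ Finset.Icc (1 : ℤ) n, β x * ∑ y ∈ B, φ x y -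
      ∑ x ∈ Finset.Icc (1 : ℤ) n, β x * ∑ y ∈ B, φ x (y + h)| ≤
      (∑ x ∈ Finset.Icc (1 : ℤ) n, β x) * (M * (2 * c)) := by
    rw [← Finset.sum_sub_distrib, Finset.sum_mul]
    refine (Finset.abs_sum_le_sum_abs _ _).trans (Finset.sum_le_sum fun x _ => ?_)
    rw [← mul_sub, abs_mul, abs_of_nonneg (hβ0 x)]
    refine mul_le_mul_of_nonneg_left ?_ (hβ0 x)
    refine (D2_ysh B h (φ x) M (hφ x)).trans (mul_le_mul_of_nonneg_left ?_ hM)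
    linarith
  have e3 : ∑ x ∈ Finset.Icc (1 : ℤ) n, β x * ∑ y ∈ B, φ x y -
      ∑ x ∈ Finset.Icc (1 : ℤ) n, β x * ∑ y ∈ B, φ (x + T) (y + h) =
      (∑ x ∈ Finset.Icc (1 : ℤ) n, β x * ∑ y ∈ B, φ x y -
        ∑ x ∈ Finset.Icc (1 : ℤ) n, β x * ∑ y ∈ B, φ x (y + h)) +
      (∑ x ∈ Finset.Icc (1 : ℤ) n, β x * ∑ y ∈ B, φ x (y + h) -
        ∑ x ∈ Finset.Icc (1 : ℤ) n, β x * ∑ y ∈ B, φ (x + T) (y + h)) := by ring
  rw [e3]
  exact (abs_add_le _ _).trans (add_le_add e2 e1)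

/-- trivial comparison -/
theorem D2_triv (n : ℕ) (T h : ℤ) (B : Finset ℤ) (β : ℤ → ℝ) (φ : ℤ → ℤ → ℝ)
    (M : ℝ) (hβ0 : ∀ x, 0 ≤ β x) (hφ : ∀ x y, |φ x y| ≤ M) :
    |∑ x ∈ Finset.Icc (1 : ℤ) n, β x * ∑ y ∈ B, φ x y -
      ∑ x ∈ Finset.Icc (1 : ℤ) n, β x * ∑ y ∈ B, φ (x + T) (y + h)| ≤
      2 * (M * B.card * ∑ x ∈ Finset.Icc (1 : ℤ) n, β x) := by
  have key : ∀ (ψ : ℤ → ℤ → ℝ), (∀ x y, |ψ x y| ≤ M) →
      |∑ x ∈ Finset.Icc (1 : ℤ) n, β x * ∑ y ∈ B, ψ x y| ≤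
        M * B.card * ∑ x ∈ Finset.Icc (1 : ℤ) n, β x := by
    intro ψ hψ
    rw [Finset.mul_sum]
    refine (Finset.abs_sum_le_sum_abs _ _).trans (Finset.sum_le_sum fun x _ => ?_)
    rw [abs_mul, abs_of_nonneg (hβ0 x), mul_comm]
    exact mul_le_mul_of_nonneg_right (D2_abs_sum B (ψ x) M (hψ x)) (hβ0 x)
  have e1 := key φ hφ
  have e2 := key (fun x y => φ (x + T) (y + h)) (fun x y => hφ _ _)
  rw [abs_le] at e1 e2 ⊢
  constructor <;> linarith [e1.1, e1.2, e2.1, e2.2]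

theorem D2_one (I : Finset ℤ) (w χ : ℤ → ℝ) (hw1 : ∑ t ∈ I, w t = 1) (a b : ℝ) :
    ∑ t ∈ I, w t * (a + b * χ t) = a + b * ∑ t ∈ I, w t * χ t := by
  have h1 : ∀ t, w t * (a + b * χ t) = a * w t + b * (w t * χ t) := fun t => by ring
  rw [Finset.sum_congr rfl fun t _ => h1 t, Finset.sum_add_distrib, ← Finset.mul_sum,
    ← Finset.mul_sum, hw1, mul_one]

/-- averaging over the shifts -/
theorem D2_avg (I : Finset ℤ) (w : ℤ → ℝ) (hw0 : ∀ t ∈ I, 0 ≤ w t) (hw1 : ∑ t ∈ I, w t = 1)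
    (bad : ℤ → Prop) [DecidablePred bad] (pr : ℝ) (hbad : ∑ t ∈ I.filter bad, w t ≤ pr)
    (S : ℝ) (Mt : ℤ → ℤ → ℤ → ℝ) (E₀ E₁ : ℝ) (hE0 : 0 ≤ E₀) (hE1 : 0 ≤ E₁)
    (h0 : ∀ t₁ ∈ I, ∀ t₂ ∈ I, ∀ t₃ ∈ I, ¬ bad t₁ → ¬ bad t₂ → ¬ bad t₃ →
      |S - Mt t₁ t₂ t₃| ≤ E₀)
    (h1 : ∀ t₁ t₂ t₃, |S - Mt t₁ t₂ t₃| ≤ E₁) :
    |S - ∑ t₁ ∈ I, ∑ t₂ ∈ I, ∑ t₃ ∈ I, w t₁ * w t₂ * w t₃ * Mt t₁ t₂ t₃| ≤
      E₀ + 3 * pr * E₁ := by
  let χ : ℤ → ℝ := fun t => if bad t then 1 else 0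
  have hχ : ∑ t ∈ I, w t * χ t ≤ pr := by
    rw [Finset.sum_filter] at hbad
    refine le_trans (le_of_eq (Finset.sum_congr rfl fun t _ => ?_)) hbad
    simp only [χ]
    split_ifs <;> simp
  have hχ0 : ∀ t, 0 ≤ χ t := fun t => by
    simp only [χ]
    split_ifs <;> norm_num
  have hχ1 : ∀ t, bad t → χ t = 1 := fun t ht => if_pos ht
  have hS : S = ∑ t₁ ∈ I, ∑ t₂ ∈ I, ∑ t₃ ∈ I, w t₁ * w t₂ * w t₃ * S := by
    have e1 : ∀ t₁ t₂, ∑ t₃ ∈ I, w t₁ * w t₂ * w t₃ * S = w t₁ * w t₂ * S := by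
      intro t₁ t₂
      rw [← Finset.sum_mul, ← Finset.mul_sum, hw1, mul_one]
    have e2 : ∀ t₁, ∑ t₂ ∈ I, w t₁ * w t₂ * S = w t₁ * S := by
      intro t₁
      rw [← Finset.sum_mul, ← Finset.mul_sum, hw1, mul_one]
    rw [Finset.sum_congr rfl fun t₁ _ => Finset.sum_congr rfl fun t₂ _ => e1 t₁ t₂,
      Finset.sum_congr rfl fun t₁ _ => e2 t₁, ← Finset.sum_mul, hw1, one_mul]
  have hpt : ∀ t₁ ∈ I, ∀ t₂ ∈ I, ∀ t₃ ∈ I, |S - Mt t₁ t₂ t₃| ≤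
      (E₀ + E₁ * χ t₁ + E₁ * χ t₂) + E₁ * χ t₃ := by
    intro t₁ ht₁ t₂ ht₂ t₃ ht₃
    have n1 := mul_nonneg hE1 (hχ0 t₁)
    have n2 := mul_nonneg hE1 (hχ0 t₂)
    have n3 := mul_nonneg hE1 (hχ0 t₃)
    by_cases b1 : bad t₁
    · have := h1 t₁ t₂ t₃
      rw [hχ1 t₁ b1, mul_one]
      linarith
    by_cases b2 : bad t₂
    · have := h1 t₁ t₂ t₃
      rw [hχ1 t₂ b2, mul_one]
      linarith
    by_cases b3 : bad t₃
    · have := h1 t₁ t₂ t₃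
      rw [hχ1 t₃ b3, mul_one]
      linarith
    have := h0 t₁ ht₁ t₂ ht₂ t₃ ht₃ b1 b2 b3
    linarith
  have hsum : ∑ t₁ ∈ I, ∑ t₂ ∈ I, ∑ t₃ ∈ I, w t₁ * w t₂ * w t₃ *
      ((E₀ + E₁ * χ t₁ + E₁ * χ t₂) + E₁ * χ t₃) = E₀ + 3 * (E₁ * ∑ t ∈ I, w t * χ t) := by
    set P := ∑ t ∈ I, w t * χ t with hP
    have e1 : ∀ t₁ t₂, ∑ t₃ ∈ I, w t₁ * w t₂ * w t₃ *
        ((E₀ + E₁ * χ t₁ + E₁ * χ t₂) + E₁ * χ t₃) =
        w t₁ * (w t₂ * ((E₀ + E₁ * χ t₁ + E₁ * P) + E₁ * χ t₂)) := by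
      intro t₁ t₂
      have e : ∀ t₃, w t₁ * w t₂ * w t₃ * ((E₀ + E₁ * χ t₁ + E₁ * χ t₂) + E₁ * χ t₃) =
          w t₁ * w t₂ * (w t₃ * ((E₀ + E₁ * χ t₁ + E₁ * χ t₂) + E₁ * χ t₃)) := fun t₃ => by ring
      rw [Finset.sum_congr rfl fun t₃ _ => e t₃, ← Finset.mul_sum, D2_one I w χ hw1]
      ring
    have e2 : ∀ t₁, ∑ t₂ ∈ I, w t₁ * (w t₂ * ((E₀ + E₁ * χ t₁ + E₁ * P) + E₁ * χ t₂)) =
        w t₁ * ((E₀ + E₁ * P + E₁ * P) + E₁ * χ t₁) := by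
      intro t₁
      rw [← Finset.mul_sum, D2_one I w χ hw1]
      ring
    rw [Finset.sum_congr rfl fun t₁ _ => Finset.sum_congr rfl fun t₂ _ => e1 t₁ t₂,
      Finset.sum_congr rfl fun t₁ _ => e2 t₁, D2_one I w χ hw1]
    ring
  have hmain : |S - ∑ t₁ ∈ I, ∑ t₂ ∈ I, ∑ t₃ ∈ I, w t₁ * w t₂ * w t₃ * Mt t₁ t₂ t₃| ≤
      ∑ t₁ ∈ I, ∑ t₂ ∈ I, ∑ t₃ ∈ I, w t₁ * w t₂ * w t₃ *
        ((E₀ + E₁ * χ t₁ + E₁ * χ t₂) + E₁ * χ t₃) := by
    conv_lhs => rw [hS]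
    rw [← Finset.sum_sub_distrib]
    refine (Finset.abs_sum_le_sum_abs _ _).trans (Finset.sum_le_sum fun t₁ ht₁ => ?_)
    rw [← Finset.sum_sub_distrib]
    refine (Finset.abs_sum_le_sum_abs _ _).trans (Finset.sum_le_sum fun t₂ ht₂ => ?_)
    rw [← Finset.sum_sub_distrib]
    refine (Finset.abs_sum_le_sum_abs _ _).trans (Finset.sum_le_sum fun t₃ ht₃ => ?_)
    have hw : 0 ≤ w t₁ * w t₂ * w t₃ :=
      mul_nonneg (mul_nonneg (hw0 _ ht₁) (hw0 _ ht₂)) (hw0 _ ht₃)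
    rw [← mul_sub, abs_mul, abs_of_nonneg hw]
    exact mul_le_mul_of_nonneg_left (hpt t₁ ht₁ t₂ ht₂ t₃ ht₃) hw
  rw [hsum] at hmain
  refine hmain.trans ?_
  have : E₁ * ∑ t ∈ I, w t * χ t ≤ E₁ * pr := mul_le_mul_of_nonneg_left hχ hE1
  linarith

/-- interchange of summations -/
theorem D2_swap {ι : Type*} (I : Finset ℤ) (J : Finset ι) (f : ℤ → ℤ → ℤ → ι → ℝ) :
    ∑ t₁ ∈ I, ∑ t₂ ∈ I, ∑ t₃ ∈ I, ∑ x ∈ J, f t₁ t₂ t₃ x =
      ∑ x ∈ J, ∑ t₁ ∈ I, ∑ t₂ ∈ I, ∑ t₃ ∈ I, f t₁ t₂ t₃ x := by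
  calc ∑ t₁ ∈ I, ∑ t₂ ∈ I, ∑ t₃ ∈ I, ∑ x ∈ J, f t₁ t₂ t₃ x
      = ∑ t₁ ∈ I, ∑ t₂ ∈ I, ∑ x ∈ J, ∑ t₃ ∈ I, f t₁ t₂ t₃ x :=
        Finset.sum_congr rfl fun t₁ _ => Finset.sum_congr rfl fun t₂ _ => Finset.sum_comm
    _ = ∑ t₁ ∈ I, ∑ x ∈ J, ∑ t₂ ∈ I, ∑ t₃ ∈ I, f t₁ t₂ t₃ x :=
        Finset.sum_congr rfl fun t₁ _ => Finset.sum_comm
    _ = _ := Finset.sum_comm

/-- the bound for the averaged sum -/
theorem D2_box (hD1 : S_D1) (hD1p : S_D1') (n : ℕ) (A B : Finset ℤ) (q : ℤ) (b w G : ℤ → ℝ)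
    (ε X : ℝ) (hε : 0 < ε) (hb : ∀ x, 0 ≤ b x)
    (hX : ∑ x ∈ Finset.Icc (1 : ℤ) n, b x = X)
    (hw0 : ∀ t ∈ Finset.Icc (1 : ℤ) n, 0 ≤ w t) (hw1 : ∑ t ∈ Finset.Icc (1 : ℤ) n, w t = 1)
    (hbox : ∑ z ∈ Box7 n, W7 b w z * ∏ o : Fin 3 → Bool, G (LL o z) ≤ ε ^ 8 * X)
    (φ : ℤ → ℤ → ℝ)
    (hφ : ∀ x y, φ x y = (if y - q * x ∈ A then (1 : ℝ) else 0) * (if y ∈ A then 1 else 0) *
      (if y + q * x ∈ A then 1 else 0) * G x) :
    |∑ t₁ ∈ Finset.Icc (1 : ℤ) n, ∑ t₂ ∈ Finset.Icc (1 : ℤ) n, ∑ t₃ ∈ Finset.Icc (1 : ℤ) n,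
      w t₁ * w t₂ * w t₃ * ∑ x ∈ Finset.Icc (1 : ℤ) n, b x *
        ∑ y ∈ B, φ (x + (t₁ + t₂ + t₃)) (y + q * (t₂ - t₃))| ≤
      (B.card : ℝ) * (2 * ε * X) := by
  set I := Finset.Icc (1 : ℤ) n with hI
  have e1 : ∑ t₁ ∈ I, ∑ t₂ ∈ I, ∑ t₃ ∈ I,
      w t₁ * w t₂ * w t₃ * ∑ x ∈ I, b x *
        ∑ y ∈ B, φ (x + (t₁ + t₂ + t₃)) (y + q * (t₂ - t₃)) =
      ∑ x ∈ I, ∑ y ∈ B, b x * ∑ t₁ ∈ I, ∑ t₂ ∈ I, ∑ t₃ ∈ I,
        w t₁ * w t₂ * w t₃ * φ (x + (t₁ + t₂ + t₃)) (y + q * (t₂ - t₃)) := by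
    simp only [Finset.mul_sum]
    rw [D2_swap]
    refine Finset.sum_congr rfl fun x _ => ?_
    rw [D2_swap]
    refine Finset.sum_congr rfl fun y _ => ?_
    refine Finset.sum_congr rfl fun t₁ _ => Finset.sum_congr rfl fun t₂ _ =>
      Finset.sum_congr rfl fun t₃ _ => ?_
    ring
  rw [e1]
  let Bx : ℤ → ℝ := fun x => ∑ t₁ ∈ I, ∑ t₁' ∈ I, ∑ t₂ ∈ I, ∑ t₂' ∈ I, ∑ t₃ ∈ I, ∑ t₃' ∈ I,
      w t₁ * w t₁' * w t₂ * w t₂' * w t₃ * w t₃' *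
        (G (x + t₁ + t₂ + t₃) * G (x + t₁ + t₂ + t₃') * G (x + t₁ + t₂' + t₃) *
          G (x + t₁ + t₂' + t₃') *
          (G (x + t₁' + t₂ + t₃) * G (x + t₁' + t₂ + t₃') * G (x + t₁' + t₂' + t₃) *
            G (x + t₁' + t₂' + t₃')))
  have hBx : ∑ x ∈ I, b x * Bx x ≤ ε ^ 8 * X := by
    refine le_trans (le_of_eq ?_) hbox
    exact hD1p n b w G
  have hE : ∀ x y, (∑ t₁ ∈ I, ∑ t₂ ∈ I, ∑ t₃ ∈ I,
      w t₁ * w t₂ * w t₃ * φ (x + (t₁ + t₂ + t₃)) (y + q * (t₂ - t₃))) ^ 8 ≤ Bx x := by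
    intro x y
    have h1 : ∀ (P : Prop) [Decidable P], |(if P then (1 : ℝ) else 0)| ≤ 1 := by
      intro P _
      split_ifs <;> norm_num
    have h2 := hD1 I w (fun t₁ t₃ => if y - q * x - q * t₁ - 2 * q * t₃ ∈ A then 1 else 0)
      (fun t₂ t₃ => if y + q * (t₂ - t₃) ∈ A then 1 else 0)
      (fun t₁ t₂ => if y + q * x + q * t₁ + 2 * q * t₂ ∈ A then 1 else 0)
      (fun t₁ t₂ t₃ => G (x + t₁ + t₂ + t₃)) hw0 hw1 (fun s t => h1 _) (fun s t => h1 _)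
      (fun s t => h1 _)
    refine le_trans (le_of_eq ?_) h2
    congr 1
    refine Finset.sum_congr rfl fun t₁ _ => Finset.sum_congr rfl fun t₂ _ =>
      Finset.sum_congr rfl fun t₃ _ => ?_
    congr 1
    rw [hφ]
    have a1 : y + q * (t₂ - t₃) - q * (x + (t₁ + t₂ + t₃)) =
        y - q * x - q * t₁ - 2 * q * t₃ := by ring
    have a2 : y + q * (t₂ - t₃) + q * (x + (t₁ + t₂ + t₃)) =
        y + q * x + q * t₁ + 2 * q * t₂ := by ring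
    have a3 : x + (t₁ + t₂ + t₃) = x + t₁ + t₂ + t₃ := by ring
    rw [a1, a2, a3]
  calc |∑ x ∈ I, ∑ y ∈ B, b x * ∑ t₁ ∈ I, ∑ t₂ ∈ I, ∑ t₃ ∈ I,
        w t₁ * w t₂ * w t₃ * φ (x + (t₁ + t₂ + t₃)) (y + q * (t₂ - t₃))|
      ≤ ∑ x ∈ I, ∑ y ∈ B, b x * (ε + Bx x / ε ^ 7) := by
        refine (Finset.abs_sum_le_sum_abs _ _).trans (Finset.sum_le_sum fun x _ => ?_)
        refine (Finset.abs_sum_le_sum_abs _ _).trans (Finset.sum_le_sum fun y _ => ?_)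
        rw [abs_mul, abs_of_nonneg (hb x)]
        refine mul_le_mul_of_nonneg_left ?_ (hb x)
        refine (D2_jensen _ ε hε).trans ?_
        have := div_le_div_of_nonneg_right (hE x y) (pow_nonneg hε.le 7)
        linarith
    _ = (B.card : ℝ) * (ε * X + (∑ x ∈ I, b x * Bx x) / ε ^ 7) := by
        simp only [Finset.sum_const, nsmul_eq_mul]
        rw [← Finset.mul_sum]
        congr 1
        rw [← hX, Finset.mul_sum, Finset.sum_div, ← Finset.sum_add_distrib]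
        refine Finset.sum_congr rfl fun x _ => ?_
        ring
    _ ≤ (B.card : ℝ) * (2 * ε * X) := by
        refine mul_le_mul_of_nonneg_left ?_ (Nat.cast_nonneg _)
        have h1 : (∑ x ∈ I, b x * Bx x) / ε ^ 7 ≤ ε * X := by
          rw [div_le_iff₀ (pow_pos hε 7)]
          calc ∑ x ∈ I, b x * Bx x ≤ ε ^ 8 * X := hBx
            _ = ε * X * ε ^ 7 := by ring
        linarith

theorem p_D2 (hC0b : S_C0b) (hD1 : S_D1) (hD1p : S_D1') : S_D2 := by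
  classical
  intro A N ρY ε₀ ε τs pi Gam Θ K r q w G hN hρ0 hρ1 hε₀ hε₀1 hε hτ hτ4 hpi hGam hK hr hq hqN
    hreg hG hw0 hw1 hbadw hbox
  set n : ℕ := ⌊N / q⌋₊ with hn
  set Th : Finset ℝ := insert (1 / (4 * N)) Θ with hTh
  set B : Finset ℤ := bohr N Θ ρY with hB
  set b : ℤ → ℝ := wgt K r Th q 1 n with hb
  have hq0 : (0 : ℝ) < q := by exact_mod_cast hq
  have hN0 : (0 : ℝ) < N := by linarith
  obtain ⟨hbg, hgam, -, -, -, -, hlip, -, -⟩ := hC0b K r Th hK hr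
  let β : ℤ → ℝ := fun x => bet K r Th ((q : ℝ) * x)
  have hβ0 : ∀ x, 0 ≤ β x := fun x => by
    simp only [β]
    rw [hbg]
    exact pow_nonneg (hgam _).1 _
  have hβ1 : ∀ x, β x ≤ 1 := fun x => by
    simp only [β]
    rw [hbg]
    exact pow_le_one₀ (hgam _).1 (hgam _).2
  have hbβ : ∀ x ∈ Finset.Icc (1 : ℤ) n, b x = β x := by
    intro x hx
    rw [Finset.mem_Icc] at hx
    simp only [hb, wgt, β]
    rw [if_pos hx]
  have hb0 : ∀ x, 0 ≤ b x := by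
    intro x
    simp only [hb, wgt]
    split_ifs
    · exact hβ0 x
    · exact le_rfl
  set X : ℝ := mass b n with hX
  have hXβ : ∑ x ∈ Finset.Icc (1 : ℤ) n, β x = X := by
    rw [hX, mass]
    exact Finset.sum_congr rfl fun x hx => (hbβ x hx).symm
  have hX0 : 0 ≤ X := by
    rw [← hXβ]
    exact Finset.sum_nonneg fun x _ => hβ0 x
  let φ : ℤ → ℤ → ℝ := fun x y => (if y - q * x ∈ A then (1 : ℝ) else 0) *
    (if y ∈ A then 1 else 0) * (if y + q * x ∈ A then 1 else 0) * G x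
  have hφ : ∀ x y, |φ x y| ≤ Gam := by
    intro x y
    have h1 : ∀ (P : Prop) [Decidable P], |(if P then (1 : ℝ) else 0)| ≤ 1 := by
      intro P _
      split_ifs <;> norm_num
    simp only [φ]
    rw [abs_mul, abs_mul, abs_mul]
    have h2 := mul_le_mul (mul_le_mul (h1 (y - q * x ∈ A)) (h1 (y ∈ A)) (abs_nonneg _)
      zero_le_one) (h1 (y + q * x ∈ A)) (abs_nonneg _) (by norm_num)
    rw [one_mul, one_mul] at h2
    calc _ ≤ 1 * Gam := mul_le_mul h2 (hG x) (abs_nonneg _) zero_le_one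
      _ = Gam := one_mul _
  have hS : ∑ x ∈ Finset.Icc (1 : ℤ) n, b x * TT A 0 B (q * x) * G x =
      ∑ x ∈ Finset.Icc (1 : ℤ) n, β x * ∑ y ∈ B, φ x y := by
    refine Finset.sum_congr rfl fun x hx => ?_
    rw [hbβ x hx, D2_TT, mul_assoc, Finset.sum_mul]
  rw [hS]
  set δ : ℝ := 20 * r * K * ((Θ.card + 1) * (3 * τs)) with hδ
  have hδ0 : 0 ≤ δ := by positivity
  have hnN : N / q < n + 1 := Nat.lt_floor_add_one _
  have hnle : (n : ℝ) ≤ N / q := Nat.floor_le (by positivity)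
  -- the bound for typical shifts
  set E₀ : ℝ := X * (Gam * (2 * (ε₀ * B.card))) +
    Gam * B.card * (δ * n + 2 * (12 * τs * (n + 1))) with hE₀
  have hE₀0 : 0 ≤ E₀ := by positivity
  have hthc : (Th.card : ℝ) ≤ Θ.card + 1 := by
    exact_mod_cast Finset.card_insert_le _ _
  have htyp : ∀ t₁ ∈ Finset.Icc (1 : ℤ) n, ∀ t₂ ∈ Finset.Icc (1 : ℤ) n,
      ∀ t₃ ∈ Finset.Icc (1 : ℤ) n,
      ¬ (¬ ∀ θ ∈ Th, nn (θ * ((q : ℝ) * t₁)) ≤ τs) → ¬ (¬ ∀ θ ∈ Th, nn (θ * ((q : ℝ) * t₂)) ≤ τs) →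
      ¬ (¬ ∀ θ ∈ Th, nn (θ * ((q : ℝ) * t₃)) ≤ τs) →
      |∑ x ∈ Finset.Icc (1 : ℤ) n, β x * ∑ y ∈ B, φ x y -
        ∑ x ∈ Finset.Icc (1 : ℤ) n, β x * ∑ y ∈ B, φ (x + (t₁ + t₂ + t₃)) (y + q * (t₂ - t₃))| ≤
        E₀ := by
    intro t₁ ht₁ t₂ ht₂ t₃ ht₃ b₁ b₂ b₃
    rw [not_not] at b₁ b₂ b₃
    have hsize : ∀ t ∈ Finset.Icc (1 : ℤ) n, (∀ θ ∈ Th, nn (θ * ((q : ℝ) * t)) ≤ τs) →
        0 ≤ (q : ℝ) * t ∧ (q : ℝ) * t ≤ 4 * N * τs := by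
      intro t ht hb
      rw [Finset.mem_Icc] at ht
      have t1 : (1 : ℝ) ≤ t := by exact_mod_cast ht.1
      have t2 : (t : ℝ) ≤ n := by exact_mod_cast ht.2
      have h0 : 0 ≤ (q : ℝ) * t := by positivity
      refine ⟨h0, ?_⟩
      have h1 := hb (1 / (4 * N)) (Finset.mem_insert_self _ _)
      have h2 : (q : ℝ) * t ≤ N := by
        have h3 : (t : ℝ) ≤ N / q := t2.trans hnle
        rw [le_div_iff₀ hq0] at h3
        linarith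
      have h3 : nn (1 / (4 * N) * ((q : ℝ) * t)) = 1 / (4 * N) * ((q : ℝ) * t) := by
        unfold nn
        have h4 : 0 ≤ 1 / (4 * N) * ((q : ℝ) * t) := by positivity
        have h5 : 1 / (4 * N) * ((q : ℝ) * t) < 1 / 2 := by
          rw [one_div, inv_mul_lt_iff₀ (by positivity)]
          linarith
        have h6 : round (1 / (4 * N) * ((q : ℝ) * t)) = 0 := by
          rw [round_eq_zero_iff]
          constructor
          · linarith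
          · exact h5
        rw [h6, Int.cast_zero, sub_zero, abs_of_nonneg h4]
      rw [h3, one_div, inv_mul_le_iff₀ (by positivity)] at h1
      exact h1
    obtain ⟨p1, s1⟩ := hsize t₁ ht₁ b₁
    obtain ⟨p2, s2⟩ := hsize t₂ ht₂ b₂
    obtain ⟨p3, s3⟩ := hsize t₃ ht₃ b₃
    have u1 : (1 : ℤ) ≤ t₁ := (Finset.mem_Icc.1 ht₁).1
    have u2 : (1 : ℤ) ≤ t₂ := (Finset.mem_Icc.1 ht₂).1
    have u3 : (1 : ℤ) ≤ t₃ := (Finset.mem_Icc.1 ht₃).1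
    have hT : 0 ≤ t₁ + t₂ + t₃ := by omega
    -- Lipschitz bound
    have hβL : ∀ x, |β x - β (x + (t₁ + t₂ + t₃))| ≤ δ := by
      intro x
      refine (hlip _ _).trans ?_
      rw [hδ]
      refine mul_le_mul_of_nonneg_left ?_ (by positivity)
      calc ∑ θ ∈ Th, nn (θ * ((q : ℝ) * x - (q : ℝ) * ((x + (t₁ + t₂ + t₃) : ℤ) : ℝ)))
          ≤ ∑ _θ ∈ Th, 3 * τs := by
            refine Finset.sum_le_sum fun θ hθ => ?_
            have h1 : θ * ((q : ℝ) * x - (q : ℝ) * ((x + (t₁ + t₂ + t₃) : ℤ) : ℝ)) =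
                -(θ * ((q : ℝ) * t₁) + θ * ((q : ℝ) * t₂) + θ * ((q : ℝ) * t₃)) := by
              push_cast
              ring
            rw [h1, nn_neg]
            have h2 := nn_add_le (θ * ((q : ℝ) * t₁) + θ * ((q : ℝ) * t₂)) (θ * ((q : ℝ) * t₃))
            have h3 := nn_add_le (θ * ((q : ℝ) * t₁)) (θ * ((q : ℝ) * t₂))
            have := b₁ θ hθ
            have := b₂ θ hθ
            have := b₃ θ hθ
            linarith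
        _ = Th.card * (3 * τs) := by rw [Finset.sum_const, nsmul_eq_mul]
        _ ≤ (Θ.card + 1) * (3 * τs) := mul_le_mul_of_nonneg_right hthc (by positivity)
    -- the shift of the Bohr set
    have hmem : (q : ℤ) * (t₂ - t₃) ∈ bohr N Θ (kap Θ.card ε₀ * ρY) := by
      rw [mem_bohr]
      constructor
      · push_cast
        have h1 : (q : ℝ) * ((t₂ : ℝ) - t₃) = (q : ℝ) * t₂ - (q : ℝ) * t₃ := by ring
        rw [h1, abs_le]
        have h2 : 4 * N * τs ≤ kap Θ.card ε₀ * ρY * N := by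
          have h3 := mul_le_mul_of_nonneg_right hτ4 hN0.le
          linarith
        constructor <;> linarith
      · intro θ hθ
        have h1 : θ * (((q : ℤ) * (t₂ - t₃) : ℤ) : ℝ) =
            θ * ((q : ℝ) * t₂) - θ * ((q : ℝ) * t₃) := by
          push_cast
          ring
        rw [h1]
        have h2 := nn_sub_le (θ * ((q : ℝ) * t₂)) (θ * ((q : ℝ) * t₃))
        have h3 := b₂ θ (Finset.mem_insert_of_mem hθ)
        have h4 := b₃ θ (Finset.mem_insert_of_mem hθ)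
        linarith
    obtain ⟨hc1, hc2⟩ := p_shift N Θ ρY ε₀ _ hN0 hρ0 hε₀ hε₀1 hreg hmem
    have key := D2_cmp n (t₁ + t₂ + t₃) ((q : ℤ) * (t₂ - t₃)) hT B β φ δ Gam (ε₀ * B.card) hδ0
      hGam hβ0 hβ1 hβL hφ hc1 hc2
    refine key.trans ?_
    rw [hXβ, hE₀]
    refine add_le_add le_rfl (mul_le_mul_of_nonneg_left ?_ (by positivity))
    have h5 : ((t₁ + t₂ + t₃ : ℤ) : ℝ) ≤ 12 * τs * (n + 1) := by
      push_cast
      have h6 : (q : ℝ) * ((t₁ : ℝ) + t₂ + t₃) ≤ 12 * N * τs := by linarith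
      have h7 : (t₁ : ℝ) + t₂ + t₃ ≤ 12 * τs * (N / q) := by
        rw [← mul_div_assoc, le_div_iff₀ hq0]
        linarith
      have h8 : 12 * τs * (N / q) ≤ 12 * τs * (n + 1) :=
        mul_le_mul_of_nonneg_left hnN.le (by positivity)
      linarith
    linarith
  have htriv : ∀ t₁ t₂ t₃ : ℤ,
      |∑ x ∈ Finset.Icc (1 : ℤ) n, β x * ∑ y ∈ B, φ x y -
        ∑ x ∈ Finset.Icc (1 : ℤ) n, β x * ∑ y ∈ B, φ (x + (t₁ + t₂ + t₃)) (y + q * (t₂ - t₃))| ≤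
        2 * (Gam * B.card * X) := by
    intro t₁ t₂ t₃
    have := D2_triv n (t₁ + t₂ + t₃) ((q : ℤ) * (t₂ - t₃)) B β φ Gam hβ0 hφ
    rw [hXβ] at this
    exact this
  have havg := D2_avg (Finset.Icc (1 : ℤ) n) w hw0 hw1
    (fun t : ℤ => ¬ ∀ θ ∈ Th, nn (θ * ((q : ℝ) * t)) ≤ τs) pi
    (le_of_eq_of_le (Finset.sum_congr (Finset.ext fun t => by simp only [Finset.mem_filter])
      fun _ _ => rfl) hbadw)
    (∑ x ∈ Finset.Icc (1 : ℤ) n, β x * ∑ y ∈ B, φ x y)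
    (fun t₁ t₂ t₃ => ∑ x ∈ Finset.Icc (1 : ℤ) n, β x *
      ∑ y ∈ B, φ (x + (t₁ + t₂ + t₃)) (y + q * (t₂ - t₃))) E₀ (2 * (Gam * B.card * X)) hE₀0
    (by positivity) htyp htriv
  have hbx := D2_box hD1 hD1p n A B q b w G ε X hε hb0 hX.symm hw0 hw1 hbox φ
    (fun x y => rfl)
  have hbx' : |∑ t₁ ∈ Finset.Icc (1 : ℤ) n, ∑ t₂ ∈ Finset.Icc (1 : ℤ) n,
      ∑ t₃ ∈ Finset.Icc (1 : ℤ) n,
      w t₁ * w t₂ * w t₃ * ∑ x ∈ Finset.Icc (1 : ℤ) n, β x *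
        ∑ y ∈ B, φ (x + (t₁ + t₂ + t₃)) (y + q * (t₂ - t₃))| ≤
      (B.card : ℝ) * (2 * ε * X) := by
    refine le_trans (le_of_eq ?_) hbx
    congr 1
    refine Finset.sum_congr rfl fun t₁ _ => Finset.sum_congr rfl fun t₂ _ =>
      Finset.sum_congr rfl fun t₃ _ => ?_
    congr 1
    refine Finset.sum_congr rfl fun x hx => ?_
    rw [hbβ x hx]
  have hBc : (0 : ℝ) ≤ B.card := Nat.cast_nonneg _
  have hfin : E₀ + 3 * pi * (2 * (Gam * B.card * X)) + (B.card : ℝ) * (2 * ε * X) ≤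
      (B.card : ℝ) * ((2 * ε + Gam * (2 * ε₀ + 6 * pi)) * X +
        Gam * (200 * r * K * (Θ.card + 1) * τs * (n + 1))) := by
    have hr1 : (1 : ℝ) ≤ r := by exact_mod_cast hr
    have hK1 : (1 : ℝ) ≤ K := by exact_mod_cast hK
    have hc0 : (0 : ℝ) ≤ Θ.card := Nat.cast_nonneg _
    have hn0 : (0 : ℝ) ≤ n := Nat.cast_nonneg _
    have hrK : (1 : ℝ) ≤ r * K * (Θ.card + 1) := by
      have : (1 : ℝ) ≤ r * K := by nlinarith
      nlinarith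
    have h1 : δ * n + 2 * (12 * τs * (n + 1)) ≤
        200 * r * K * (Θ.card + 1) * τs * (n + 1) := by
      have h3 : 0 ≤ τs * ((n : ℝ) + 1) := by positivity
      have h4 : τs * n ≤ τs * (n + 1) := mul_le_mul_of_nonneg_left (by linarith) hτ.le
      have h5 : r * K * (Θ.card + 1) * (τs * n) ≤ r * K * (Θ.card + 1) * (τs * (n + 1)) :=
        mul_le_mul_of_nonneg_left h4 (by positivity)
      have h6 : 1 * (τs * ((n : ℝ) + 1)) ≤ r * K * (Θ.card + 1) * (τs * (n + 1)) :=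
        mul_le_mul_of_nonneg_right hrK h3
      have h7 : δ * n = 60 * (r * K * (Θ.card + 1) * (τs * n)) := by
        rw [hδ]
        ring
      have h8 : 200 * r * K * (Θ.card + 1) * τs * ((n : ℝ) + 1) =
          200 * (r * K * (Θ.card + 1) * (τs * (n + 1))) := by ring
      rw [h7, h8]
      have h9 : 2 * (12 * τs * ((n : ℝ) + 1)) = 24 * (1 * (τs * (n + 1))) := by ring
      rw [h9]
      linarith
    have h2 : Gam * B.card * (δ * n + 2 * (12 * τs * (n + 1))) ≤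
        Gam * B.card * (200 * r * K * (Θ.card + 1) * τs * (n + 1)) :=
      mul_le_mul_of_nonneg_left h1 (mul_nonneg hGam hBc)
    have h3 : E₀ + 3 * pi * (2 * (Gam * B.card * X)) + (B.card : ℝ) * (2 * ε * X) =
        (B.card : ℝ) * ((2 * ε + Gam * (2 * ε₀ + 6 * pi)) * X) +
          Gam * B.card * (δ * n + 2 * (12 * τs * (n + 1))) := by
      rw [hE₀]
      ring
    have h4 : (B.card : ℝ) * ((2 * ε + Gam * (2 * ε₀ + 6 * pi)) * X +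
        Gam * (200 * r * K * (Θ.card + 1) * τs * (n + 1))) =
        (B.card : ℝ) * ((2 * ε + Gam * (2 * ε₀ + 6 * pi)) * X) +
          Gam * B.card * (200 * r * K * (Θ.card + 1) * τs * (n + 1)) := by ring
    rw [h3, h4]
    linarith
  refine le_trans ?_ hfin
  have h1 := abs_le.1 havg
  have h2 := abs_le.1 hbx'
  rw [abs_le]
  constructor <;> linarith [h1.1, h1.2, h2.1, h2.2]

end Pool.Agent.APP
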