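import Pool.Agent.Lib.MP_8a4e59_co.D.Stm

set_option autoImplicit false

namespace Pool.Agent.APP

open Finset

/-- the forms used at `p` -/
noncomputable def D3_Om (P₀ : Finset ℕ) (t : Finset (Fin 3 → Bool)) (p : ℕ) :
    Finset (Fin 3 → Bool) := if p ∈ P₀ then univ else t

theorem D3_cond (P P₀ : Finset ℕ) (h : P₀ ⊆ P) (m : ℕ) (t : Finset (Fin 3 → Bool))
    (z : Fin 7 → ℤ) :
    ((∀ o ∈ t, ∀ p ∈ P, ¬ (p : ℤ) ∣ (m : ℤ) * LL o z + 1) ∧
      (∀ o ∈ univ \ t, ∀ p ∈ P₀, ¬ (p : ℤ) ∣ (m : ℤ) * LL o z + 1)) ↔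
    ∀ p ∈ P, ¬ ∃ o ∈ D3_Om P₀ t p, (p : ℤ) ∣ (m : ℤ) * LL o z + 1 := by
  constructor
  · rintro ⟨h1, h2⟩ p hp ⟨o, ho, hd⟩
    unfold D3_Om at ho
    by_cases hot : o ∈ t
    · exact h1 o hot p hp hd
    · split_ifs at ho with hp0
      · exact h2 o (mem_sdiff.2 ⟨mem_univ _, hot⟩) p hp0 hd
      · exact hot ho
  · intro h1
    refine ⟨fun o ho p hp hd => h1 p hp ⟨o, ?_, hd⟩, fun o _ p hp hd => h1 p (h hp) ⟨o, ?_, hd⟩⟩
    · unfold D3_Om
      split_ifs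
      · exact mem_univ _
      · exact ho
    · unfold D3_Om
      rw [if_pos hp]
      exact mem_univ _

theorem D3_boole {ι : Type*} (s : Finset ι) (c : ι → Prop) (inst : ∀ i, Decidable (c i))
    (inst2 : Decidable (∀ i ∈ s, c i)) :
    ∏ i ∈ s, (if c i then (1 : ℝ) else 0) = if ∀ i ∈ s, c i then 1 else 0 := by
  by_cases h : ∀ i ∈ s, c i
  · rw [if_pos h]
    exact prod_eq_one fun i hi => if_pos (h i hi)
  · rw [if_neg h]
    push Not at h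
    obtain ⟨i, hi, hc⟩ := h
    exact prod_eq_zero hi (if_neg hc)

open Classical in
/-- indicator of the sieve condition -/
noncomputable def D3_ind (P : Finset ℕ) (Om : ℕ → Finset (Fin 3 → Bool)) (m : ℕ)
    (z : Fin 7 → ℤ) : ℝ :=
  if ∀ p ∈ P, ¬ ∃ o ∈ Om p, (p : ℤ) ∣ (m : ℤ) * LL o z + 1 then 1 else 0

theorem D3_ind_pos {P : Finset ℕ} {Om : ℕ → Finset (Fin 3 → Bool)} {m : ℕ} {z : Fin 7 → ℤ}
    (h : ∀ p ∈ P, ¬ ∃ o ∈ Om p, (p : ℤ) ∣ (m : ℤ) * LL o z + 1) : D3_ind P Om m z = 1 := if_pos h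

theorem D3_ind_neg {P : Finset ℕ} {Om : ℕ → Finset (Fin 3 → Bool)} {m : ℕ} {z : Fin 7 → ℤ}
    (h : ¬ ∀ p ∈ P, ¬ ∃ o ∈ Om p, (p : ℤ) ∣ (m : ℤ) * LL o z + 1) : D3_ind P Om m z = 0 := if_neg h

theorem D3_filter (s : Finset (Fin 7 → ℤ)) (P : Finset ℕ) (Om : ℕ → Finset (Fin 3 → Bool)) (m : ℕ)
    (i1 : DecidablePred (fun z : Fin 7 → ℤ => ∀ p ∈ P, ¬ ∃ o ∈ Om p, (p : ℤ) ∣ (m : ℤ) * LL o z + 1))
    (f : (Fin 7 → ℤ) → ℝ) :
    ∑ z ∈ @Finset.filter _ (fun z : Fin 7 → ℤ => ∀ p ∈ P, ¬ ∃ o ∈ Om p,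
      (p : ℤ) ∣ (m : ℤ) * LL o z + 1) i1 s, f z = ∑ z ∈ s, f z * D3_ind P Om m z := by
  rw [Finset.sum_filter]
  refine sum_congr rfl fun z _ => ?_
  by_cases h : ∀ p ∈ P, ¬ ∃ o ∈ Om p, (p : ℤ) ∣ (m : ℤ) * LL o z + 1
  · rw [if_pos h, D3_ind_pos h, mul_one]
  · rw [if_neg h, D3_ind_neg h, mul_zero]

theorem D3_term (P P₀ : Finset ℕ) (h : P₀ ⊆ P) (m : ℕ) (t : Finset (Fin 3 → Bool))
    (z : Fin 7 → ℤ) :
    (∏ o ∈ t, nuP P m (LL o z)) * ∏ o ∈ univ \ t, (-nuP P₀ m (LL o z)) =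
      (-1) ^ (univ \ t).card * (VP P ^ t.card * VP P₀ ^ (univ \ t).card) *
        D3_ind P (D3_Om P₀ t) m z := by
  have e1 : ∏ o ∈ t, nuP P m (LL o z) = VP P ^ t.card *
      (if ∀ o ∈ t, ∀ p ∈ P, ¬ (p : ℤ) ∣ (m : ℤ) * LL o z + 1 then 1 else 0) := by
    unfold nuP
    rw [prod_mul_distrib, prod_const]
    congr 1
    exact D3_boole _ _ _ _
  have e2 : ∏ o ∈ univ \ t, (-nuP P₀ m (LL o z)) = (-1) ^ (univ \ t).card *
      (VP P₀ ^ (univ \ t).card *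
      (if ∀ o ∈ univ \ t, ∀ p ∈ P₀, ¬ (p : ℤ) ∣ (m : ℤ) * LL o z + 1 then 1 else 0)) := by
    have e : ∀ o : Fin 3 → Bool, -nuP P₀ m (LL o z) = (-1) * nuP P₀ m (LL o z) := by
      intro o; ring
    rw [prod_congr rfl fun o _ => e o, prod_mul_distrib, prod_const]
    unfold nuP
    rw [prod_mul_distrib, prod_const]
    congr 2
    exact D3_boole _ _ _ _
  rw [e1, e2]
  have e3 := D3_cond P P₀ h m t z
  by_cases h1 : ∀ o ∈ t, ∀ p ∈ P, ¬ (p : ℤ) ∣ (m : ℤ) * LL o z + 1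
  · by_cases h2 : ∀ o ∈ univ \ t, ∀ p ∈ P₀, ¬ (p : ℤ) ∣ (m : ℤ) * LL o z + 1
    · rw [if_pos h1, if_pos h2, D3_ind_pos (e3.1 ⟨h1, h2⟩)]
      ring
    · rw [if_pos h1, if_neg h2, D3_ind_neg (fun h3 => h2 (e3.2 h3).2)]
      ring
  · rw [if_neg h1, D3_ind_neg (fun h3 => h1 (e3.2 h3).1)]
    ring

theorem D3_fac {p : ℕ} (hp : p.Prime) : 1 ≤ (1 - 1 / (p : ℝ))⁻¹ := by
  have h2 : (2 : ℝ) ≤ p := by exact_mod_cast hp.two_le
  have h3 : 1 / (p : ℝ) ≤ 1 / 2 := by gcongr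
  have h4 : 0 < 1 / (p : ℝ) := by positivity
  exact (one_le_inv₀ (by linarith)).2 (by linarith)

theorem D3_VP_one (P : Finset ℕ) (hP : ∀ p ∈ P, p.Prime) : 1 ≤ VP P :=
  Finset.one_le_prod fun p hp => D3_fac (hP p hp)

theorem D3_VP_mul (P P₀ : Finset ℕ) (h : P₀ ⊆ P) : VP P = VP (P \ P₀) * VP P₀ :=
  (prod_sdiff h).symm

theorem D3_sign : ∑ t ∈ (univ : Finset (Fin 3 → Bool)).powerset, (-1 : ℝ) ^ (univ \ t).card = 0 := by
  have h := Finset.prod_add (fun _ : Fin 3 → Bool => (1 : ℝ)) (fun _ => -1) univ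
  simp only [prod_const_one, one_mul, prod_const] at h
  rw [← h]
  simp

theorem D3_card (t : Finset (Fin 3 → Bool)) : t.card + (univ \ t).card = 8 := by
  rw [card_univ_sdiff, Fintype.card_fun, Fintype.card_bool, Fintype.card_fin]
  have : t.card ≤ 8 := by
    have := t.card_le_univ
    rwa [Fintype.card_fun, Fintype.card_bool, Fintype.card_fin] at this
  omega

theorem p_D3 (hD3g : S_D3g) (hD3a : S_D3a) (hD3e1 : S_D3e1) (hD3e2 : S_D3e2) : S_D3 := by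
  obtain ⟨C1, hC1, h1⟩ := hD3e1
  obtain ⟨C2, hC2, h2⟩ := hD3e2
  refine ⟨1 + C2 + 256 * C1 * C2, by nlinarith [mul_pos hC1 hC2], ?_⟩
  intro n D m Y k τ Q₀ Q b w hQ₀ hQ hQD hn hY hm hτ hDτ hb hw hMb hMw hEb hEw
  have hCC := mul_pos hC1 hC2
  have hQ₀1 : 1 ≤ Q₀ := by nlinarith
  have hQ₀C : C2 ≤ Q₀ := by nlinarith
  have hP : ∀ p ∈ PQ Q m, p.Prime ∧ ¬ p ∣ m ∧ (p : ℝ) ≤ Q := by
    intro p hp
    obtain ⟨h3, h4, h5⟩ := by simpa [PQ] using hp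
    exact ⟨h4, h5, (Nat.le_floor_iff' (by omega)).1 h3.2⟩
  have hsub : PQ Q₀ m ⊆ PQ Q m := by
    intro p hp
    obtain ⟨h3, h4, h5⟩ := by simpa [PQ] using hp
    simp only [PQ, mem_filter, mem_Icc]
    exact ⟨⟨h3.1, h3.2.trans (Nat.floor_le_floor hQ)⟩, h4, h5⟩
  have hP₀ : ∀ p ∈ PQ Q₀ m, p.Prime ∧ ¬ p ∣ m := fun p hp =>
    ⟨(hP p (hsub hp)).1, (hP p (hsub hp)).2.1⟩
  have hPd : ∀ p ∈ PQ Q m \ PQ Q₀ m, (p.Prime ∧ Q₀ < (p : ℝ)) ∧ ¬ p ∣ m := by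
    intro p hp
    obtain ⟨h3, h4⟩ := mem_sdiff.1 hp
    obtain ⟨h5, h6, h7⟩ := hP p h3
    refine ⟨⟨h5, ?_⟩, h6⟩
    by_contra h8
    apply h4
    simp only [PQ, mem_filter, mem_Icc]
    exact ⟨⟨h5.one_lt.le, Nat.le_floor (not_lt.1 h8)⟩, h5, h6⟩
  generalize PQ Q m = P at *
  generalize PQ Q₀ m = P₀ at *
  set Mm : ℝ := mass b n * mass w n ^ 6 with hMm
  have hMm0 : 0 ≤ Mm := by positivity
  set Err : ℝ := (2 * (8 * ∑ p ∈ P, 1 / (p : ℝ)) ^ (k + 1) / ((k + 1).factorial : ℝ) +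
        7 * (1 + (6 * n / mass b n + 6 * n / mass w n)) ^ 7 *
          (2 * (8 ^ 64 / Real.sqrt Y) * ∏ p ∈ P, (1 + 8 / (p : ℝ)) + 2 * (D : ℝ) * 8 ^ (k + 1) * D / (τ * n)))
    with hErr
  -- the sieve
  have hg : ∀ t : Finset (Fin 3 → Bool),
      |∑ z ∈ Box7 n, W7 b w z * D3_ind P (D3_Om P₀ t) m z -
        Mm * ∏ p ∈ P, (1 - hh m (D3_Om P₀ t p) p)| ≤ Mm * Err := by
    intro t
    have h3 := hD3g n D m Y k τ Q b w P (D3_Om P₀ t) hP hQD (hQ₀1.trans hQ) hn hY hm hτ hDτ hb hw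
      hMb hMw hEb hEw
    rw [D3_filter] at h3
    exact h3
  have hME : 0 ≤ Mm * Err := (abs_nonneg _).trans (hg ∅)
  -- expansion
  have hexp : ∑ z ∈ Box7 n, W7 b w z * ∏ o : Fin 3 → Bool, (nuP P m (LL o z) - nuP P₀ m (LL o z)) =
      ∑ t ∈ (univ : Finset (Fin 3 → Bool)).powerset, (-1) ^ (univ \ t).card *
        (VP P ^ t.card * VP P₀ ^ (univ \ t).card) *
        ∑ z ∈ Box7 n, W7 b w z * D3_ind P (D3_Om P₀ t) m z := by
    have h3 : ∀ z, ∏ o : Fin 3 → Bool, (nuP P m (LL o z) - nuP P₀ m (LL o z)) =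
        ∑ t ∈ (univ : Finset (Fin 3 → Bool)).powerset, (-1) ^ (univ \ t).card *
        (VP P ^ t.card * VP P₀ ^ (univ \ t).card) * D3_ind P (D3_Om P₀ t) m z := by
      intro z
      have h4 := Finset.prod_add (fun o : Fin 3 → Bool => nuP P m (LL o z))
        (fun o => -nuP P₀ m (LL o z)) univ
      simp only [← sub_eq_add_neg] at h4
      rw [h4]
      exact sum_congr rfl fun t _ => D3_term P P₀ hsub m t z
    rw [sum_congr rfl fun z _ => by rw [h3 z, mul_sum], sum_comm]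
    refine sum_congr rfl fun t _ => ?_
    rw [mul_sum]
    exact sum_congr rfl fun z _ => by ring
  rw [hexp]
  have hVP : 1 ≤ VP P := D3_VP_one P fun p hp => (hP p hp).1
  have hVP0 : 1 ≤ VP P₀ := D3_VP_one P₀ fun p hp => (hP₀ p hp).1
  have hVPd : 1 ≤ VP (P \ P₀) := D3_VP_one _ fun p hp => (hPd p hp).1.1
  have hVPle : VP P₀ ≤ VP P := by
    rw [D3_VP_mul P P₀ hsub]
    nlinarith
  have hc8 : ∀ t : Finset (Fin 3 → Bool), VP P ^ t.card * VP P₀ ^ (univ \ t).card ≤ VP P ^ 8 := by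
    intro t
    calc VP P ^ t.card * VP P₀ ^ (univ \ t).card ≤ VP P ^ t.card * VP P ^ (univ \ t).card := by
          gcongr
      _ = VP P ^ 8 := by rw [← pow_add, D3_card]
  have hsplit : ∀ t : Finset (Fin 3 → Bool),
      (VP P ^ t.card * VP P₀ ^ (univ \ t).card) * ∏ p ∈ P, (1 - hh m (D3_Om P₀ t p) p) =
      ((∏ p ∈ P₀, (1 - hh m univ p)) * VP P₀ ^ 8) *
      ((∏ p ∈ P \ P₀, (1 - hh m t p)) * VP (P \ P₀) ^ t.card) := by
    intro t
    have e1 : ∏ p ∈ P, (1 - hh m (D3_Om P₀ t p) p) =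
        (∏ p ∈ P \ P₀, (1 - hh m t p)) * ∏ p ∈ P₀, (1 - hh m univ p) := by
      rw [← prod_sdiff hsub]
      congr 1
      · refine prod_congr rfl fun p hp => ?_
        rw [D3_Om, if_neg (mem_sdiff.1 hp).2]
      · refine prod_congr rfl fun p hp => ?_
        rw [D3_Om, if_pos hp]
    have e2 : VP P₀ ^ 8 = VP P₀ ^ t.card * VP P₀ ^ (univ \ t).card := by
      rw [← pow_add, D3_card]
    rw [e1, e2, D3_VP_mul P P₀ hsub, mul_pow]
    ring
  have hA := h1 P₀ (fun p => hh m univ p) (fun p hp => (hP₀ p hp).1) (by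
    intro p hp
    have h3 := hD3a m univ p (hP₀ p hp).1 (hP₀ p hp).2
    refine ⟨h3.1, h3.2.1.le, ?_⟩
    have h4 := h3.2.2.2
    have h5 : ((univ : Finset (Fin 3 → Bool)).card : ℝ) = 8 := by
      rw [card_univ, Fintype.card_fun, Fintype.card_bool, Fintype.card_fin]
      norm_num
    rwa [h5] at h4)
  have hA0 : 0 ≤ (∏ p ∈ P₀, (1 - hh m univ p)) * VP P₀ ^ 8 := by
    refine mul_nonneg (prod_nonneg fun p hp => ?_) (by positivity)
    have h3 := hD3a m univ p (hP₀ p hp).1 (hP₀ p hp).2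
    linarith [h3.2.1]
  have hB : ∀ t : Finset (Fin 3 → Bool),
      |(∏ p ∈ P \ P₀, (1 - hh m t p)) * VP (P \ P₀) ^ t.card - 1| ≤ C2 / Q₀ := by
    intro t
    refine h2 (P \ P₀) (fun p => hh m t p) t.card Q₀ hQ₀C (by have := D3_card t; omega)
      (fun p hp => (hPd p hp).1) ?_
    intro p hp
    have h3 := hD3a m t p (hPd p hp).1.1 (hPd p hp).2
    exact ⟨h3.1, h3.2.2.1, h3.2.2.2⟩
  generalize (∏ p ∈ P₀, (1 - hh m univ p)) * VP P₀ ^ 8 = A at *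
  have hcardps : ((univ : Finset (Fin 3 → Bool)).powerset.card : ℝ) = 256 := by
    rw [card_powerset, card_univ, Fintype.card_fun, Fintype.card_bool, Fintype.card_fin]
    norm_num
  have hsgn : ∀ t : Finset (Fin 3 → Bool), |(-1 : ℝ) ^ (univ \ t).card| = 1 := by
    intro t
    rw [abs_pow, abs_neg, abs_one, one_pow]
  have hQ₀0 : 0 < Q₀ := by linarith
  -- first part
  have hfirst : |∑ t ∈ (univ : Finset (Fin 3 → Bool)).powerset, (-1) ^ (univ \ t).card *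
        (VP P ^ t.card * VP P₀ ^ (univ \ t).card) *
        (Mm * ∏ p ∈ P, (1 - hh m (D3_Om P₀ t p) p))| ≤ Mm * ((1 + C2 + 256 * C1 * C2) / Q₀) := by
    have e1 : ∑ t ∈ (univ : Finset (Fin 3 → Bool)).powerset, (-1) ^ (univ \ t).card *
        (VP P ^ t.card * VP P₀ ^ (univ \ t).card) *
        (Mm * ∏ p ∈ P, (1 - hh m (D3_Om P₀ t p) p)) =
        ∑ t ∈ (univ : Finset (Fin 3 → Bool)).powerset, (Mm * A) * ((-1) ^ (univ \ t).card *
          ((∏ p ∈ P \ P₀, (1 - hh m t p)) * VP (P \ P₀) ^ t.card - 1)) := by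
      have e2 : ∑ t ∈ (univ : Finset (Fin 3 → Bool)).powerset, (-1) ^ (univ \ t).card *
        (VP P ^ t.card * VP P₀ ^ (univ \ t).card) *
        (Mm * ∏ p ∈ P, (1 - hh m (D3_Om P₀ t p) p)) =
        ∑ t ∈ (univ : Finset (Fin 3 → Bool)).powerset, ((Mm * A) * ((-1) ^ (univ \ t).card *
          ((∏ p ∈ P \ P₀, (1 - hh m t p)) * VP (P \ P₀) ^ t.card - 1)) +
            (Mm * A) * (-1) ^ (univ \ t).card) := by
        refine sum_congr rfl fun t _ => ?_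
        have e3 := hsplit t
        calc _ = (-1) ^ (univ \ t).card * Mm * ((VP P ^ t.card * VP P₀ ^ (univ \ t).card) *
              ∏ p ∈ P, (1 - hh m (D3_Om P₀ t p) p)) := by ring
          _ = _ := by rw [e3]; ring
      rw [e2, sum_add_distrib, ← mul_sum (s := (univ : Finset (Fin 3 → Bool)).powerset)
        (f := fun t => (-1 : ℝ) ^ (univ \ t).card), D3_sign, mul_zero, add_zero]
    rw [e1]
    refine (abs_sum_le_sum_abs _ _).trans ?_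
    calc ∑ t ∈ (univ : Finset (Fin 3 → Bool)).powerset, |(Mm * A) * ((-1) ^ (univ \ t).card *
          ((∏ p ∈ P \ P₀, (1 - hh m t p)) * VP (P \ P₀) ^ t.card - 1))|
        ≤ ∑ _t ∈ (univ : Finset (Fin 3 → Bool)).powerset, (Mm * C1) * (C2 / Q₀) := by
          refine sum_le_sum fun t _ => ?_
          rw [abs_mul (Mm * A), abs_mul ((-1 : ℝ) ^ _), hsgn, one_mul,
            abs_of_nonneg (mul_nonneg hMm0 hA0)]
          exact mul_le_mul (mul_le_mul_of_nonneg_left hA hMm0) (hB t) (abs_nonneg _)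
            (mul_nonneg hMm0 hC1.le)
      _ = Mm * (256 * C1 * C2 / Q₀) := by
          rw [sum_const, nsmul_eq_mul, hcardps]
          ring
      _ ≤ Mm * ((1 + C2 + 256 * C1 * C2) / Q₀) := by
          gcongr
          linarith
  -- second part
  have hsecond : |∑ t ∈ (univ : Finset (Fin 3 → Bool)).powerset, (-1) ^ (univ \ t).card *
        (VP P ^ t.card * VP P₀ ^ (univ \ t).card) *
        (∑ z ∈ Box7 n, W7 b w z * D3_ind P (D3_Om P₀ t) m z -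
          Mm * ∏ p ∈ P, (1 - hh m (D3_Om P₀ t p) p))| ≤ Mm * (256 * VP P ^ 8 * Err) := by
    refine (abs_sum_le_sum_abs _ _).trans ?_
    calc _ ≤ ∑ _t ∈ (univ : Finset (Fin 3 → Bool)).powerset, VP P ^ 8 * (Mm * Err) := by
          refine sum_le_sum fun t _ => ?_
          rw [abs_mul, abs_mul, hsgn, one_mul, abs_of_nonneg (by positivity)]
          exact mul_le_mul (hc8 t) (hg t) (abs_nonneg _) (by positivity)
      _ = _ := by
          rw [sum_const, nsmul_eq_mul, hcardps]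
          ring
  have htot : ∑ t ∈ (univ : Finset (Fin 3 → Bool)).powerset, (-1) ^ (univ \ t).card *
        (VP P ^ t.card * VP P₀ ^ (univ \ t).card) *
        ∑ z ∈ Box7 n, W7 b w z * D3_ind P (D3_Om P₀ t) m z =
      ∑ t ∈ (univ : Finset (Fin 3 → Bool)).powerset, (-1) ^ (univ \ t).card *
        (VP P ^ t.card * VP P₀ ^ (univ \ t).card) *
        (Mm * ∏ p ∈ P, (1 - hh m (D3_Om P₀ t p) p)) +
      ∑ t ∈ (univ : Finset (Fin 3 → Bool)).powerset, (-1) ^ (univ \ t).card *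
        (VP P ^ t.card * VP P₀ ^ (univ \ t).card) *
        (∑ z ∈ Box7 n, W7 b w z * D3_ind P (D3_Om P₀ t) m z -
          Mm * ∏ p ∈ P, (1 - hh m (D3_Om P₀ t p) p)) := by
    rw [← sum_add_distrib]
    exact sum_congr rfl fun t _ => by ring
  rw [htot]
  refine (abs_add_le _ _).trans ?_
  calc _ ≤ Mm * ((1 + C2 + 256 * C1 * C2) / Q₀) + Mm * (256 * VP P ^ 8 * Err) :=
        add_le_add hfirst hsecond
    _ = _ := by ring

end Pool.Agent.APP
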