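import Pool.Agent.Lib.MP_8a4e59_co.D.Stm

set_option autoImplicit false

/-! (D3a) local densities.  (helper75) -/

namespace Pool.Agent.APP

open Finset

/-- fibres of a surjective homomorphism of finite groups -/
theorem D3a_fiber {G H : Type*} [AddGroup G] [Fintype G] [AddGroup H] [Fintype H] [DecidableEq H]
    (f : G →+ H) (hf : Function.Surjective f) (h : H) :
    (univ.filter (fun g : G => f g = h)).card * Fintype.card H = Fintype.card G := by
  have h1 : Fintype.card G = ∑ x : H, (univ.filter (fun g : G => f g = x)).card := by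
    rw [← Finset.card_univ]
    exact Finset.card_eq_sum_card_fiberwise (fun _ _ => Finset.mem_coe.mpr (Finset.mem_univ _))
  rw [h1, Finset.sum_congr rfl (fun x _ => AddMonoidHom.card_fiber_eq_of_mem_range f (hf x) (hf h)),
    Finset.sum_const, Finset.card_univ, smul_eq_mul, mul_comm]

variable {p : ℕ}

/-- the linear forms over `ZMod p` -/
def D3a_L (p : ℕ) (o : Fin 3 → Bool) : (Fin 7 → ZMod p) →+ ZMod p where
  toFun z := z 0 + (if o 0 then z 1 else z 2) + (if o 1 then z 3 else z 4) + (if o 2 then z 5 else z 6)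
  map_zero' := by simp
  map_add' := by
    intro x y
    simp only [Pi.add_apply]
    split_ifs <;> ring

theorem D3a_L_apply (o : Fin 3 → Bool) (z : Fin 7 → ZMod p) :
    D3a_L p o z = z 0 + (if o 0 then z 1 else z 2) + (if o 1 then z 3 else z 4) +
      (if o 2 then z 5 else z 6) := rfl

theorem D3a_surj (o : Fin 3 → Bool) : Function.Surjective (D3a_L p o) := by
  intro a
  refine ⟨![a, 0, 0, 0, 0, 0, 0], ?_⟩
  rw [D3a_L_apply]
  simp

theorem D3a_surj2 (o o' : Fin 3 → Bool) (hne : o ≠ o') :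
    Function.Surjective ((D3a_L p o).prod (D3a_L p o')) := by
  rintro ⟨a, b⟩
  obtain ⟨i, hi⟩ := Function.ne_iff.mp hne
  have key : ∃ z, D3a_L p o z = a ∧ D3a_L p o' z = b := by
    simp only [D3a_L_apply]
    fin_cases i
    · rcases Bool.eq_false_or_eq_true (o 0) with h | h
      · have h' : o' 0 = false := by
          rcases Bool.eq_false_or_eq_true (o' 0) with h2 | h2
          · exact absurd (h.trans h2.symm) hi
          · exact h2
        exact ⟨![b, a - b, 0, 0, 0, 0, 0], by simp [h], by simp [h']⟩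
      · have h' : o' 0 = true := by
          rcases Bool.eq_false_or_eq_true (o' 0) with h2 | h2
          · exact h2
          · exact absurd (h.trans h2.symm) hi
        exact ⟨![b, 0, a - b, 0, 0, 0, 0], by simp [h], by simp [h']⟩
    · rcases Bool.eq_false_or_eq_true (o 1) with h | h
      · have h' : o' 1 = false := by
          rcases Bool.eq_false_or_eq_true (o' 1) with h2 | h2
          · exact absurd (h.trans h2.symm) hi
          · exact h2
        exact ⟨![b, 0, 0, a - b, 0, 0, 0], by simp [h], by simp [h']⟩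
      · have h' : o' 1 = true := by
          rcases Bool.eq_false_or_eq_true (o' 1) with h2 | h2
          · exact h2
          · exact absurd (h.trans h2.symm) hi
        exact ⟨![b, 0, 0, 0, a - b, 0, 0], by simp [h], by simp [h']⟩
    · rcases Bool.eq_false_or_eq_true (o 2) with h | h
      · have h' : o' 2 = false := by
          rcases Bool.eq_false_or_eq_true (o' 2) with h2 | h2
          · exact absurd (h.trans h2.symm) hi
          · exact h2
        exact ⟨![b, 0, 0, 0, 0, a - b, 0], by simp [h], by simp [h']⟩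
      · have h' : o' 2 = true := by
          rcases Bool.eq_false_or_eq_true (o' 2) with h2 | h2
          · exact h2
          · exact absurd (h.trans h2.symm) hi
        exact ⟨![b, 0, 0, 0, 0, 0, a - b], by simp [h], by simp [h']⟩
  obtain ⟨z, h1, h2⟩ := key
  exact ⟨z, by rw [AddMonoidHom.prod_apply, h1, h2]⟩

theorem D3a_card [Fact p.Prime] (o : Fin 3 → Bool) (c : ZMod p) :
    (univ.filter (fun z : Fin 7 → ZMod p => D3a_L p o z = c)).card = p ^ 6 := by
  have h := D3a_fiber (D3a_L p o) (D3a_surj o) c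
  rw [ZMod.card, Fintype.card_fun, ZMod.card, Fintype.card_fin] at h
  have hp : 0 < p := (Fact.out : p.Prime).pos
  exact Nat.eq_of_mul_eq_mul_right hp (by rw [h]; ring)

theorem D3a_card2 [Fact p.Prime] (o o' : Fin 3 → Bool) (hne : o ≠ o') (c c' : ZMod p) :
    (univ.filter (fun z : Fin 7 → ZMod p => D3a_L p o z = c ∧ D3a_L p o' z = c')).card = p ^ 5 := by
  have h := D3a_fiber ((D3a_L p o).prod (D3a_L p o')) (D3a_surj2 o o' hne) (c, c')
  simp only [AddMonoidHom.prod_apply, Prod.mk.injEq] at h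
  rw [Fintype.card_prod, ZMod.card, Fintype.card_fun, ZMod.card, Fintype.card_fin] at h
  have hp : 0 < p := (Fact.out : p.Prime).pos
  exact Nat.eq_of_mul_eq_mul_right (Nat.mul_pos hp hp) (by rw [h]; ring)

theorem D3a_rep [Fact p.Prime] (a : ZMod p) : ∃ x ∈ Finset.Icc (1 : ℤ) p, ((x : ℤ) : ZMod p) = a := by
  refine ⟨((a - 1).val : ℤ) + 1, ?_, ?_⟩
  · rw [Finset.mem_Icc]
    have := ZMod.val_lt (a - 1)
    omega
  · push_cast
    rw [ZMod.natCast_zmod_val]
    ring

theorem D3a_inj [Fact p.Prime] {x y : ℤ} (hx : x ∈ Finset.Icc (1 : ℤ) p) (hy : y ∈ Finset.Icc (1 : ℤ) p)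
    (h : (x : ZMod p) = y) : x = y := by
  rw [Finset.mem_Icc] at hx hy
  rw [ZMod.intCast_eq_intCast_iff_dvd_sub] at h
  obtain ⟨c, hc⟩ := h
  have h1 : c < 1 := by
    by_contra hcc
    push Not at hcc
    nlinarith
  have h2 : -1 < c := by
    by_contra hcc
    push Not at hcc
    nlinarith
  have h3 : c = 0 := by omega
  subst h3
  omega

theorem D3a_cast (o : Fin 3 → Bool) (z : Fin 7 → ℤ) :
    ((LL o z : ℤ) : ZMod p) = D3a_L p o (fun j => (z j : ZMod p)) := by
  rw [D3a_L_apply, LL]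
  push_cast
  rfl

open Classical in
/-- the bad set over `ZMod p` -/
noncomputable def D3a_B (p : ℕ) [Fact p.Prime] (Om : Finset (Fin 3 → Bool)) (c : ZMod p) :
    Finset (Fin 7 → ZMod p) :=
  Om.biUnion (fun o => univ.filter (fun z : Fin 7 → ZMod p => D3a_L p o z = c))

open Classical in
theorem D3a_transfer [Fact p.Prime] (m : ℕ) (hm : ¬ p ∣ m) (Om : Finset (Fin 3 → Bool)) :
    ((Fintype.piFinset (fun _ : Fin 7 => Finset.Icc (1 : ℤ) p)).filter
      (fun z => ∃ o ∈ Om, (p : ℤ) ∣ (m : ℤ) * LL o z + 1)).card =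
    (D3a_B p Om (-(m : ZMod p)⁻¹)).card := by
  have hm0 : (m : ZMod p) ≠ 0 := by
    rw [Ne, ZMod.natCast_eq_zero_iff]
    exact hm
  have key : ∀ (z : Fin 7 → ℤ) (o : Fin 3 → Bool), ((p : ℤ) ∣ (m : ℤ) * LL o z + 1) ↔
      D3a_L p o (fun j => (z j : ZMod p)) = -(m : ZMod p)⁻¹ := by
    intro z o
    rw [← ZMod.intCast_zmod_eq_zero_iff_dvd]
    push_cast
    rw [D3a_cast]
    constructor
    · intro h
      have h2 : (m : ZMod p) * D3a_L p o (fun j => (z j : ZMod p)) = -1 := by linear_combination h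
      calc D3a_L p o (fun j => (z j : ZMod p))
          = (m : ZMod p)⁻¹ * ((m : ZMod p) * D3a_L p o (fun j => (z j : ZMod p))) := by
            rw [← mul_assoc, inv_mul_cancel₀ hm0, one_mul]
        _ = -(m : ZMod p)⁻¹ := by rw [h2]; ring
    · intro h
      rw [h, mul_neg, mul_inv_cancel₀ hm0]
      ring
  refine Finset.card_bij (fun z _ => fun j => ((z j : ℤ) : ZMod p)) ?_ ?_ ?_
  · intro z hz
    rw [Finset.mem_filter] at hz
    obtain ⟨_, o, ho, hd⟩ := hz
    rw [D3a_B, Finset.mem_biUnion]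
    exact ⟨o, ho, Finset.mem_filter.mpr ⟨Finset.mem_univ _, (key z o).mp hd⟩⟩
  · intro z hz z' hz' h
    rw [Finset.mem_filter, Fintype.mem_piFinset] at hz hz'
    funext j
    exact D3a_inj (hz.1 j) (hz'.1 j) (congrFun h j)
  · intro w hw
    rw [D3a_B, Finset.mem_biUnion] at hw
    obtain ⟨o, ho, hw⟩ := hw
    rw [Finset.mem_filter] at hw
    choose x hx hxc using fun j => D3a_rep (w j)
    have e : (fun j => ((x j : ℤ) : ZMod p)) = w := funext hxc
    refine ⟨x, Finset.mem_filter.mpr ⟨Fintype.mem_piFinset.mpr hx, o, ho, (key x o).mpr ?_⟩, e⟩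
    rw [e]
    exact hw.2

theorem D3a_upper [Fact p.Prime] (Om : Finset (Fin 3 → Bool)) (c : ZMod p) :
    (D3a_B p Om c).card ≤ Om.card * p ^ 6 := by
  classical
  rw [D3a_B]
  refine (Finset.card_biUnion_le).trans ?_
  rw [Finset.sum_congr rfl (fun o _ => D3a_card o c), Finset.sum_const, smul_eq_mul]

theorem D3a_lower [Fact p.Prime] (Om : Finset (Fin 3 → Bool)) (c : ZMod p) :
    (Om.card : ℝ) * (p : ℝ) ^ 6 - (Om.card : ℝ) * ((Om.card : ℝ) - 1) / 2 * (p : ℝ) ^ 5 ≤
      ((D3a_B p Om c).card : ℝ) := by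
  classical
  induction Om using Finset.induction_on with
  | empty => simp
  | insert a s ha ih =>
    have e : D3a_B p (insert a s) c =
        (univ.filter (fun z : Fin 7 → ZMod p => D3a_L p a z = c)) ∪ D3a_B p s c := by
      rw [D3a_B, D3a_B, Finset.biUnion_insert]
    have h1 := Finset.card_union_add_card_inter
      (univ.filter (fun z : Fin 7 → ZMod p => D3a_L p a z = c)) (D3a_B p s c)
    have h2 : ((univ.filter (fun z : Fin 7 → ZMod p => D3a_L p a z = c)) ∩ D3a_B p s c).card ≤
        s.card * p ^ 5 := by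
      have e2 : (univ.filter (fun z : Fin 7 → ZMod p => D3a_L p a z = c)) ∩ D3a_B p s c =
          s.biUnion (fun o => univ.filter
            (fun z : Fin 7 → ZMod p => D3a_L p a z = c ∧ D3a_L p o z = c)) := by
        ext z
        simp only [D3a_B, Finset.mem_inter, Finset.mem_filter, Finset.mem_univ, true_and,
          Finset.mem_biUnion]
        constructor
        · rintro ⟨h3, o, ho, h4⟩
          exact ⟨o, ho, h3, h4⟩
        · rintro ⟨o, ho, h3, h4⟩
          exact ⟨h3, o, ho, h4⟩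
      rw [e2]
      refine (Finset.card_biUnion_le).trans ?_
      rw [Finset.sum_congr rfl (fun o ho => D3a_card2 a o (fun h => ha (h ▸ ho)) c c),
        Finset.sum_const, smul_eq_mul]
    rw [← e, D3a_card] at h1
    have h1' : ((D3a_B p (insert a s) c).card : ℝ) +
        (((univ.filter (fun z : Fin 7 → ZMod p => D3a_L p a z = c)) ∩ D3a_B p s c).card : ℝ) =
        (p : ℝ) ^ 6 + ((D3a_B p s c).card : ℝ) := by exact_mod_cast h1
    have h2' : (((univ.filter (fun z : Fin 7 → ZMod p => D3a_L p a z = c)) ∩ D3a_B p s c).card : ℝ)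
        ≤ (s.card : ℝ) * (p : ℝ) ^ 5 := by exact_mod_cast h2
    rw [Finset.card_insert_of_notMem ha]
    push_cast
    nlinarith

theorem p_D3a : S_D3a := by
  intro m Om p hp hm
  classical
  have : Fact p.Prime := ⟨hp⟩
  have hp0 : (0 : ℝ) < p := by exact_mod_cast hp.pos
  have hh_eq : hh m Om p = ((D3a_B p Om (-(m : ZMod p)⁻¹)).card : ℝ) / (p : ℝ) ^ 7 := by
    rw [hh, ← D3a_transfer m hm Om]
  refine ⟨?_, ?_, ?_, ?_⟩
  · rw [hh_eq]; positivity
  · rw [hh_eq, div_lt_one (by positivity)]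
    have h1 : (D3a_B p Om (-(m : ZMod p)⁻¹)).card < Fintype.card (Fin 7 → ZMod p) := by
      rw [← Finset.card_univ]
      refine Finset.card_lt_card (Finset.ssubset_univ_iff.mpr ?_)
      intro h
      have h0 : (0 : Fin 7 → ZMod p) ∈ D3a_B p Om (-(m : ZMod p)⁻¹) := by
        rw [h]; exact Finset.mem_univ _
      rw [D3a_B, Finset.mem_biUnion] at h0
      obtain ⟨o, _, h0⟩ := h0
      rw [Finset.mem_filter, map_zero] at h0
      have hm0 : (m : ZMod p) ≠ 0 := by
        rw [Ne, ZMod.natCast_eq_zero_iff]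
        exact hm
      have := h0.2
      rw [eq_comm, neg_eq_zero, inv_eq_zero] at this
      exact hm0 this
    rw [Fintype.card_fun, ZMod.card, Fintype.card_fin] at h1
    exact_mod_cast h1
  · rw [hh_eq, div_le_div_iff₀ (by positivity) hp0]
    have h1 : ((D3a_B p Om (-(m : ZMod p)⁻¹)).card : ℝ) ≤ (Om.card : ℝ) * (p : ℝ) ^ 6 := by
      exact_mod_cast D3a_upper Om (-(m : ZMod p)⁻¹)
    calc ((D3a_B p Om (-(m : ZMod p)⁻¹)).card : ℝ) * p ≤ (Om.card : ℝ) * (p : ℝ) ^ 6 * p := by gcongr
      _ = (Om.card : ℝ) * (p : ℝ) ^ 7 := by ring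
  · rw [hh_eq, le_div_iff₀ (by positivity)]
    have h1 := D3a_lower Om (-(m : ZMod p)⁻¹)
    have h2 : (Om.card : ℝ) ≤ 8 := by
      have : Om.card ≤ Fintype.card (Fin 3 → Bool) := Finset.card_le_univ _
      rw [Fintype.card_fun, Fintype.card_bool, Fintype.card_fin] at this
      exact_mod_cast this
    have h0 : (0 : ℝ) ≤ Om.card := by positivity
    have h3 : (Om.card : ℝ) * ((Om.card : ℝ) - 1) / 2 ≤ 28 := by nlinarith
    have h4 : ((Om.card : ℝ) / p - 28 / (p : ℝ) ^ 2) * (p : ℝ) ^ 7 =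
        (Om.card : ℝ) * (p : ℝ) ^ 6 - 28 * (p : ℝ) ^ 5 := by
      field_simp
    rw [h4]
    have h5 : (Om.card : ℝ) * ((Om.card : ℝ) - 1) / 2 * (p : ℝ) ^ 5 ≤ 28 * (p : ℝ) ^ 5 := by gcongr
    linarith

end Pool.Agent.APP
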