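import Pool.Agent.Lib.MP_8a4e59_co.D.Stm

set_option autoImplicit false

/-!
MP_8a4e59_co, part D, piece (D3b): Chinese remainder theorem for the densities (helper99).
-/

namespace Pool.Agent.APP

open Finset

/-- representative of `x` modulo `n` in `[1, n]` -/
private def D3b_r (n x : ℤ) : ℤ := (x - 1) % n + 1

private lemma D3b_r_mem {n : ℤ} (hn : 0 < n) (x : ℤ) : D3b_r n x ∈ Finset.Icc (1 : ℤ) n := by
  rw [mem_Icc, D3b_r]
  have h1 := Int.emod_nonneg (x - 1) hn.ne'
  have h2 := Int.emod_lt_of_pos (x - 1) hn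
  constructor <;> omega

private lemma D3b_r_dvd (n x : ℤ) : n ∣ D3b_r n x - x := by
  rw [D3b_r]
  have h : (x - 1) % n + 1 - x = (x - 1) % n - (x - 1) := by ring
  rw [h]
  exact Int.dvd_of_emod_eq_zero (by
    rw [Int.sub_emod, Int.emod_emod_of_dvd _ (dvd_refl n), sub_self, Int.zero_emod])

private lemma D3b_unique {n x y : ℤ} (hx : x ∈ Finset.Icc (1 : ℤ) n)
    (hy : y ∈ Finset.Icc (1 : ℤ) n) (h : n ∣ x - y) : x = y := by
  rw [mem_Icc] at hx hy
  have h1 : x - y = 0 := by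
    apply Int.eq_zero_of_abs_lt_dvd h
    rw [abs_lt]
    constructor <;> omega
  omega

private lemma D3b_box {n : ℕ} {z : Fin 7 → ℤ} :
    z ∈ Fintype.piFinset (fun _ : Fin 7 => Finset.Icc (1 : ℤ) n) ↔
      ∀ j, z j ∈ Finset.Icc (1 : ℤ) n := Fintype.mem_piFinset

open Classical in
private lemma D3b_crt (e p : ℕ) (he : 0 < e) (hp : 0 < p) (hc : IsCoprime (e : ℤ) (p : ℤ))
    (A B : (Fin 7 → ℤ) → Prop)
    (hA : ∀ z w : Fin 7 → ℤ, (∀ j, (e : ℤ) ∣ z j - w j) → (A z → A w))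
    (hB : ∀ z w : Fin 7 → ℤ, (∀ j, (p : ℤ) ∣ z j - w j) → (B z → B w)) :
    ((Fintype.piFinset (fun _ : Fin 7 => Finset.Icc (1 : ℤ) ((e * p : ℕ) : ℤ))).filter
      (fun z => A z ∧ B z)).card =
    ((Fintype.piFinset (fun _ : Fin 7 => Finset.Icc (1 : ℤ) (e : ℤ))).filter (fun z => A z)).card *
    ((Fintype.piFinset (fun _ : Fin 7 => Finset.Icc (1 : ℤ) (p : ℤ))).filter (fun z => B z)).card := by
  have he' : (0 : ℤ) < e := by exact_mod_cast he
  have hp' : (0 : ℤ) < p := by exact_mod_cast hp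
  have hep : (0 : ℤ) < ((e * p : ℕ) : ℤ) := by push_cast; positivity
  obtain ⟨s, t, hst⟩ := hc
  rw [← card_product]
  refine card_bij' (fun z _ => (fun j => D3b_r e (z j), fun j => D3b_r p (z j)))
    (fun uv _ => fun j => D3b_r ((e * p : ℕ) : ℤ) (uv.1 j * (t * p) + uv.2 j * (s * e))) ?_ ?_ ?_ ?_
  · intro z hz
    rw [mem_filter, D3b_box] at hz
    obtain ⟨hz1, hz2, hz3⟩ := hz
    rw [mem_product, mem_filter, mem_filter, D3b_box, D3b_box]
    refine ⟨⟨fun j => D3b_r_mem he' _, hA z _ (fun j => ?_) hz2⟩,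
      ⟨fun j => D3b_r_mem hp' _, hB z _ (fun j => ?_) hz3⟩⟩
    · have := D3b_r_dvd e (z j)
      rw [← neg_sub]
      exact this.neg_right
    · have := D3b_r_dvd p (z j)
      rw [← neg_sub]
      exact this.neg_right
  · rintro ⟨u, v⟩ huv
    rw [mem_product, mem_filter, mem_filter, D3b_box, D3b_box] at huv
    obtain ⟨⟨hu1, hu2⟩, ⟨hv1, hv2⟩⟩ := huv
    rw [mem_filter, D3b_box]
    refine ⟨fun j => D3b_r_mem hep _, hA u _ (fun j => ?_) hu2, hB v _ (fun j => ?_) hv2⟩
    · have h1 := (Dvd.intro_left (p : ℤ) (by push_cast; ring) : (e : ℤ) ∣ ((e * p : ℕ) : ℤ)).trans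
        (D3b_r_dvd ((e * p : ℕ) : ℤ) (u j * (t * p) + v j * (s * e)))
      have h2 : (e : ℤ) ∣ u j - (u j * (t * p) + v j * (s * e)) := by
        refine ⟨s * (u j - v j), ?_⟩
        linear_combination (-(u j)) * hst
      have h3 := h2.sub h1
      have e3 : u j - (u j * (t * p) + v j * (s * e)) -
          (D3b_r ((e * p : ℕ) : ℤ) (u j * (t * p) + v j * (s * e)) -
            (u j * (t * p) + v j * (s * e))) =
          u j - D3b_r ((e * p : ℕ) : ℤ) (u j * (t * p) + v j * (s * e)) := by ring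
      rwa [e3] at h3
    · have h1 := (Dvd.intro_left (e : ℤ) (by push_cast; ring) : (p : ℤ) ∣ ((e * p : ℕ) : ℤ)).trans
        (D3b_r_dvd ((e * p : ℕ) : ℤ) (u j * (t * p) + v j * (s * e)))
      have h2 : (p : ℤ) ∣ v j - (u j * (t * p) + v j * (s * e)) := by
        refine ⟨t * (v j - u j), ?_⟩
        linear_combination (-(v j)) * hst
      have h3 := h2.sub h1
      have e3 : v j - (u j * (t * p) + v j * (s * e)) -
          (D3b_r ((e * p : ℕ) : ℤ) (u j * (t * p) + v j * (s * e)) -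
            (u j * (t * p) + v j * (s * e))) =
          v j - D3b_r ((e * p : ℕ) : ℤ) (u j * (t * p) + v j * (s * e)) := by ring
      rwa [e3] at h3
  · intro z hz
    rw [mem_filter, D3b_box] at hz
    obtain ⟨hz1, -, -⟩ := hz
    funext j
    simp only
    apply D3b_unique (D3b_r_mem hep _) (hz1 j)
    set x := D3b_r e (z j) * (t * p) + D3b_r p (z j) * (s * e) with hx
    have h1 := D3b_r_dvd ((e * p : ℕ) : ℤ) x
    have he1 := D3b_r_dvd e (z j)
    have hp1 := D3b_r_dvd p (z j)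
    have h2 : (e : ℤ) ∣ x - z j := by
      have e2 : x - z j = (D3b_r e (z j) - z j) * (t * p) +
          (D3b_r p (z j) * s - z j * s) * e := by
        rw [hx]
        linear_combination (z j) * hst
      rw [e2]
      exact (he1.mul_right _).add (Dvd.intro_left _ rfl)
    have h3 : (p : ℤ) ∣ x - z j := by
      have e2 : x - z j = (D3b_r p (z j) - z j) * (s * e) +
          (D3b_r e (z j) * t - z j * t) * p := by
        rw [hx]
        linear_combination (z j) * hst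
      rw [e2]
      exact (hp1.mul_right _).add (Dvd.intro_left _ rfl)
    have h4 : ((e * p : ℕ) : ℤ) ∣ x - z j := by
      push_cast
      exact IsCoprime.mul_dvd ⟨s, t, hst⟩ h2 h3
    have h5 := h1.add h4
    have e5 : D3b_r ((e * p : ℕ) : ℤ) x - x + (x - z j) = D3b_r ((e * p : ℕ) : ℤ) x - z j := by ring
    rwa [e5] at h5
  · rintro ⟨u, v⟩ huv
    rw [mem_product, mem_filter, mem_filter, D3b_box, D3b_box] at huv
    obtain ⟨⟨hu1, -⟩, ⟨hv1, -⟩⟩ := huv
    simp only at hu1 hv1 ⊢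
    refine Prod.ext (funext fun j => ?_) (funext fun j => ?_)
    · simp only
      apply D3b_unique (D3b_r_mem he' _) (hu1 j)
      set x := u j * (t * p) + v j * (s * e) with hx
      have h0 := D3b_r_dvd (e : ℤ) (D3b_r ((e * p : ℕ) : ℤ) x)
      have h1 := (Dvd.intro_left (p : ℤ) (by push_cast; ring) : (e : ℤ) ∣ ((e * p : ℕ) : ℤ)).trans
        (D3b_r_dvd ((e * p : ℕ) : ℤ) x)
      have h2 : (e : ℤ) ∣ x - u j := by
        refine ⟨s * (v j - u j), ?_⟩
        rw [hx]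
        linear_combination (u j) * hst
      have h5 := (h0.add h1).add h2
      have e5 : D3b_r (e : ℤ) (D3b_r ((e * p : ℕ) : ℤ) x) - D3b_r ((e * p : ℕ) : ℤ) x +
          (D3b_r ((e * p : ℕ) : ℤ) x - x) + (x - u j) =
          D3b_r (e : ℤ) (D3b_r ((e * p : ℕ) : ℤ) x) - u j := by ring
      rwa [e5] at h5
    · simp only
      apply D3b_unique (D3b_r_mem hp' _) (hv1 j)
      set x := u j * (t * p) + v j * (s * e) with hx
      have h0 := D3b_r_dvd (p : ℤ) (D3b_r ((e * p : ℕ) : ℤ) x)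
      have h1 := (Dvd.intro_left (e : ℤ) (by push_cast; ring) : (p : ℤ) ∣ ((e * p : ℕ) : ℤ)).trans
        (D3b_r_dvd ((e * p : ℕ) : ℤ) x)
      have h2 : (p : ℤ) ∣ x - v j := by
        refine ⟨t * (u j - v j), ?_⟩
        rw [hx]
        linear_combination (v j) * hst
      have h5 := (h0.add h1).add h2
      have e5 : D3b_r (p : ℤ) (D3b_r ((e * p : ℕ) : ℤ) x) - D3b_r ((e * p : ℕ) : ℤ) x +
          (D3b_r ((e * p : ℕ) : ℤ) x - x) + (x - v j) =
          D3b_r (p : ℤ) (D3b_r ((e * p : ℕ) : ℤ) x) - v j := by ring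
      rwa [e5] at h5

private lemma D3b_LL (o : Fin 3 → Bool) (p : ℤ) (z w : Fin 7 → ℤ) (h : ∀ j, p ∣ z j - w j) :
    p ∣ LL o z - LL o w := by
  have e : LL o z - LL o w = (z 0 - w 0) + (if o 0 then z 1 - w 1 else z 2 - w 2) +
      (if o 1 then z 3 - w 3 else z 4 - w 4) + (if o 2 then z 5 - w 5 else z 6 - w 6) := by
    unfold LL
    split_ifs <;> ring
  rw [e]
  refine (((h 0).add ?_).add ?_).add ?_
  · split_ifs
    · exact h 1
    · exact h 2
  · split_ifs
    · exact h 3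
    · exact h 4
  · split_ifs
    · exact h 5
    · exact h 6

private lemma D3b_inv (m : ℕ) (Om : Finset (Fin 3 → Bool)) (p : ℤ) (z w : Fin 7 → ℤ)
    (h : ∀ j, p ∣ z j - w j) (hz : ∃ o ∈ Om, p ∣ (m : ℤ) * LL o z + 1) :
    ∃ o ∈ Om, p ∣ (m : ℤ) * LL o w + 1 := by
  obtain ⟨o, ho, hd⟩ := hz
  refine ⟨o, ho, ?_⟩
  have h1 := (D3b_LL o p z w h).mul_left (m : ℤ)
  have h2 := hd.sub h1
  have e : (m : ℤ) * LL o z + 1 - (m : ℤ) * (LL o z - LL o w) = (m : ℤ) * LL o w + 1 := by ring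
  rwa [e] at h2

/-- (D3b) Chinese remainder theorem for the densities. -/
theorem p_D3b : S_D3b := by
  classical
  intro m Om T
  induction T using Finset.induction_on with
  | empty =>
    intro _
    have h : ((Fintype.piFinset (fun _ : Fin 7 => Finset.Icc (1 : ℤ) (∏ p ∈ (∅ : Finset ℕ), p : ℕ))).filter
      (fun z => ∀ p ∈ (∅ : Finset ℕ), ∃ o ∈ Om p, (p : ℤ) ∣ (m : ℤ) * LL o z + 1)).card = 1 := by
      rw [filter_true_of_mem (by
        intro z _ p hp
        exact absurd hp (notMem_empty p))]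
      simp
    rw [h]
    simp
  | insert p T hp ih =>
    intro hT
    have hpp : p.Prime := hT p (mem_insert_self p T)
    have hT' : ∀ q ∈ T, q.Prime := fun q hq => hT q (mem_insert_of_mem hq)
    have ih' := ih hT'
    set e : ℕ := ∏ q ∈ T, q with he
    have he0 : 0 < e := Finset.prod_pos fun q hq => (hT' q hq).pos
    have hcop : Nat.Coprime e p := by
      rw [he]
      apply Nat.Coprime.prod_left
      intro q hq
      exact (Nat.coprime_primes (hT' q hq) hpp).2 (by rintro rfl; exact hp hq)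
    have hprod : ∏ q ∈ insert p T, q = e * p := by rw [prod_insert hp, mul_comm]
    have hfil : ∀ z : Fin 7 → ℤ,
        (∀ q ∈ insert p T, ∃ o ∈ Om q, (q : ℤ) ∣ (m : ℤ) * LL o z + 1) ↔
        ((∀ q ∈ T, ∃ o ∈ Om q, (q : ℤ) ∣ (m : ℤ) * LL o z + 1) ∧
          ∃ o ∈ Om p, (p : ℤ) ∣ (m : ℤ) * LL o z + 1) := by
      intro z
      rw [forall_mem_insert, and_comm]
    have hcrt := D3b_crt e p he0 hpp.pos (Nat.isCoprime_iff_coprime.2 hcop)
      (fun z => ∀ q ∈ T, ∃ o ∈ Om q, (q : ℤ) ∣ (m : ℤ) * LL o z + 1)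
      (fun z => ∃ o ∈ Om p, (p : ℤ) ∣ (m : ℤ) * LL o z + 1)
      (by
        intro z w h hz q hq
        have hqe : (q : ℤ) ∣ e := by
          rw [he]
          exact_mod_cast dvd_prod_of_mem (fun q => q) hq
        exact D3b_inv m (Om q) q z w (fun j => hqe.trans (h j)) (hz q hq))
      (by
        intro z w h hz
        exact D3b_inv m (Om p) p z w h hz)
    have hcard : (((Fintype.piFinset (fun _ : Fin 7 =>
        Finset.Icc (1 : ℤ) (∏ q ∈ insert p T, q : ℕ))).filter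
        (fun z => ∀ q ∈ insert p T, ∃ o ∈ Om q, (q : ℤ) ∣ (m : ℤ) * LL o z + 1)).card : ℝ) =
        (((Fintype.piFinset (fun _ : Fin 7 => Finset.Icc (1 : ℤ) (e : ℤ))).filter
          (fun z => ∀ q ∈ T, ∃ o ∈ Om q, (q : ℤ) ∣ (m : ℤ) * LL o z + 1)).card : ℝ) *
        (((Fintype.piFinset (fun _ : Fin 7 => Finset.Icc (1 : ℤ) (p : ℤ))).filter
          (fun z => ∃ o ∈ Om p, (p : ℤ) ∣ (m : ℤ) * LL o z + 1)).card : ℝ) := by
      rw [hprod, filter_congr (fun z _ => hfil z)]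
      exact_mod_cast hcrt
    have hp0 : (p : ℝ) ≠ 0 := by exact_mod_cast hpp.ne_zero
    have hh1 : (((Fintype.piFinset (fun _ : Fin 7 => Finset.Icc (1 : ℤ) (p : ℤ))).filter
          (fun z => ∃ o ∈ Om p, (p : ℤ) ∣ (m : ℤ) * LL o z + 1)).card : ℝ) =
        (p : ℝ) ^ 7 * hh m (Om p) p := by
      unfold hh
      field_simp
    rw [hcard, ih', hh1, hprod, prod_insert hp]
    push_cast
    ring

end Pool.Agent.APP
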