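import Pool.Agent.Lib.MP_8a4e59_co.D.Stm

set_option autoImplicit false

/-! (D3c) Measure of a set of residue classes (helper96). -/

namespace Pool.Agent.APP

open Finset

private lemma D3c_prod {ι : Type} [DecidableEq ι] (s : Finset ι) (a c : ι → ℝ) (η : ℝ) (hη : 0 ≤ η)
    (ha : ∀ i, 0 ≤ a i) (hc : ∀ i, 0 ≤ c i) (h : ∀ i, |a i - c i| ≤ η * c i) :
    |∏ i ∈ s, a i - ∏ i ∈ s, c i| ≤ ((1 + η) ^ s.card - 1) * ∏ i ∈ s, c i := by
  induction s using Finset.induction_on with
  | empty => simp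
  | insert i s hi ih =>
    rw [prod_insert hi, prod_insert hi, card_insert_of_notMem hi]
    set A := ∏ i ∈ s, a i
    set C := ∏ i ∈ s, c i
    have hC : 0 ≤ C := prod_nonneg fun j _ => hc j
    have hA : 0 ≤ A := prod_nonneg fun j _ => ha j
    have hA2 : A ≤ (1 + η) ^ s.card * C := by
      have := (abs_le.1 ih).2
      linarith
    have e : a i * A - c i * C = (a i - c i) * A + c i * (A - C) := by ring
    rw [e]
    refine (abs_add_le _ _).trans ?_
    rw [abs_mul, abs_mul, abs_of_nonneg hA, abs_of_nonneg (hc i)]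
    have h1 : |a i - c i| * A ≤ (η * c i) * ((1 + η) ^ s.card * C) :=
      mul_le_mul (h i) hA2 hA (mul_nonneg hη (hc i))
    have h2 : c i * |A - C| ≤ c i * (((1 + η) ^ s.card - 1) * C) :=
      mul_le_mul_of_nonneg_left ih (hc i)
    calc |a i - c i| * A + c i * |A - C|
        ≤ (η * c i) * ((1 + η) ^ s.card * C) + c i * (((1 + η) ^ s.card - 1) * C) :=
          add_le_add h1 h2
      _ = ((1 + η) ^ (s.card + 1) - 1) * (c i * C) := by ring

private lemma D3c_num (η : ℝ) (hη : 0 ≤ η) : (1 + η) ^ 7 - 1 ≤ 7 * η * (1 + η) ^ 6 := by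
  have h : 7 * η * (1 + η) ^ 6 - ((1 + η) ^ 7 - 1) =
      21 * η ^ 2 + 70 * η ^ 3 + 105 * η ^ 4 + 84 * η ^ 5 + 35 * η ^ 6 + 6 * η ^ 7 := by ring
  have h2 : 0 ≤ 21 * η ^ 2 + 70 * η ^ 3 + 105 * η ^ 4 + 84 * η ^ 5 + 35 * η ^ 6 + 6 * η ^ 7 := by
    positivity
  linarith

/-- the weights in the seven coordinates -/
private def D3c_f (b w : ℤ → ℝ) (j : Fin 7) : ℤ → ℝ := if j = 0 then b else w

private lemma D3c_W7 (b w : ℤ → ℝ) (z : Fin 7 → ℤ) : W7 b w z = ∏ j, D3c_f b w j (z j) := by
  rw [Fin.prod_univ_seven]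
  simp only [D3c_f, W7]
  simp
  ring

/-- the representative in `[1, e]` -/
private def D3c_rep (e : ℕ) (z : Fin 7 → ℤ) : Fin 7 → ℤ := fun j => (z j - 1) % e + 1

private lemma D3c_rep_mem (e : ℕ) (he : 1 ≤ e) (z : Fin 7 → ℤ) : D3c_rep e z ∈ Box7 e := by
  unfold Box7
  rw [Fintype.mem_piFinset]
  intro j
  rw [Finset.mem_Icc]
  unfold D3c_rep
  have h1 := Int.emod_nonneg (z j - 1) (by omega : (e : ℤ) ≠ 0)
  have h2 := Int.emod_lt_of_pos (z j - 1) (by omega : (0 : ℤ) < e)
  constructor <;> omega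

private lemma D3c_rep_iff (e : ℕ) (z r : Fin 7 → ℤ) (hr : r ∈ Box7 e) :
    D3c_rep e z = r ↔ ∀ j, (e : ℤ) ∣ z j - r j := by
  unfold Box7 at hr
  rw [Fintype.mem_piFinset] at hr
  constructor
  · rintro rfl j
    unfold D3c_rep
    have h1 := Int.emod_add_mul_ediv (z j - 1) e
    exact ⟨(z j - 1) / e, by linarith⟩
  · intro h
    funext j
    have hj := Finset.mem_Icc.1 (hr j)
    obtain ⟨k, hk⟩ := h j
    unfold D3c_rep
    have e1 : z j - 1 = (r j - 1) + e * k := by linarith
    rw [e1, Int.add_mul_emod_self_left, Int.emod_eq_of_lt (by omega) (by omega)]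
    ring

open Classical in
theorem p_D3c : S_D3c := by
  intro n e b w η U he hη hb hw hbc hwc hU
  have hepos : (0 : ℝ) < e := by exact_mod_cast he
  -- U is invariant under rep
  have hUrep : ∀ z, U z ↔ U (D3c_rep e z) := by
    intro z
    rw [hU z (fun j => -((z j - 1) / e))]
    have : (fun j => z j + e * -((z j - 1) / e)) = D3c_rep e z := by
      funext j
      unfold D3c_rep
      have h1 := Int.emod_add_mul_ediv (z j - 1) e
      linarith
    rw [this]
  have hfib : ∑ z ∈ (Box7 n).filter U, W7 b w z =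
      ∑ r ∈ (Box7 e).filter U, ∏ j, cls (D3c_f b w j) n e (r j) := by
    rw [← sum_fiberwise_of_maps_to (s := (Box7 n).filter U) (t := (Box7 e).filter U)
      (g := D3c_rep e)]
    · refine sum_congr rfl fun r hr => ?_
      obtain ⟨hr1, hr2⟩ := Finset.mem_filter.1 hr
      have hset : ((Box7 n).filter U).filter (fun z => D3c_rep e z = r) =
          Fintype.piFinset (fun j => (Finset.Icc (1 : ℤ) n).filter (fun x => (e : ℤ) ∣ x - r j)) := by
        ext z
        rw [Finset.mem_filter, Finset.mem_filter, Fintype.mem_piFinset, D3c_rep_iff e z r hr1]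
        unfold Box7
        rw [Fintype.mem_piFinset]
        simp only [Finset.mem_filter]
        constructor
        · rintro ⟨⟨h1, _⟩, h2⟩ j
          exact ⟨h1 j, h2 j⟩
        · intro h
          refine ⟨⟨fun j => (h j).1, ?_⟩, fun j => (h j).2⟩
          rw [hUrep z, (D3c_rep_iff e z r hr1).2 (fun j => (h j).2)]
          exact hr2
      rw [hset]
      simp only [D3c_W7, cls]
      exact (prod_univ_sum _ _).symm
    · intro z hz
      obtain ⟨_, hz2⟩ := Finset.mem_filter.1 hz
      exact Finset.mem_filter.2 ⟨D3c_rep_mem e he z, (hUrep z).1 hz2⟩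
  have hm0 : 0 ≤ mass b n / e := div_nonneg (sum_nonneg fun x _ => hb x) hepos.le
  have hmw0 : 0 ≤ mass w n / e := div_nonneg (sum_nonneg fun x _ => hw x) hepos.le
  have hconst : ∏ j : Fin 7, mass (D3c_f b w j) n / e = mass b n * mass w n ^ 6 / (e : ℝ) ^ 7 := by
    rw [Fin.prod_univ_seven]
    simp only [D3c_f]
    simp
    field_simp
  have hpt : ∀ r : Fin 7 → ℤ, |∏ j, cls (D3c_f b w j) n e (r j) -
      mass b n * mass w n ^ 6 / (e : ℝ) ^ 7| ≤
      7 * η * (1 + η) ^ 6 * (mass b n * mass w n ^ 6 / (e : ℝ) ^ 7) := by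
    intro r
    have h := D3c_prod univ (fun j => cls (D3c_f b w j) n e (r j))
      (fun j => mass (D3c_f b w j) n / e) η hη ?_ ?_ ?_
    · rw [hconst] at h
      refine h.trans ?_
      rw [card_univ, Fintype.card_fin]
      refine mul_le_mul_of_nonneg_right (D3c_num η hη) ?_
      rw [← hconst]
      refine prod_nonneg fun j _ => ?_
      unfold D3c_f
      split_ifs
      · exact hm0
      · exact hmw0
    · intro j
      unfold D3c_f
      split_ifs
      · exact sum_nonneg fun x _ => hb x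
      · exact sum_nonneg fun x _ => hw x
    · intro j
      unfold D3c_f
      split_ifs
      · exact hm0
      · exact hmw0
    · intro j
      unfold D3c_f
      split_ifs
      · exact hbc _
      · exact hwc _
  have hcard : mass b n * mass w n ^ 6 * ((((Box7 e).filter U).card : ℝ) / (e : ℝ) ^ 7) =
      ∑ _r ∈ (Box7 e).filter U, mass b n * mass w n ^ 6 / (e : ℝ) ^ 7 := by
    rw [sum_const, nsmul_eq_mul]
    ring
  rw [hfib, hcard, ← sum_sub_distrib]
  refine (abs_sum_le_sum_abs _ _).trans ?_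
  rw [mul_sum]
  exact sum_le_sum fun r _ => hpt r

end Pool.Agent.APP
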