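import Pool.Agent.Lib.MP_8a4e59_co.D.Stm

set_option autoImplicit false

namespace Pool.Agent.APP

open Finset

theorem D3d_sqf {T : Finset ℕ} (hT : ∀ p ∈ T, p.Prime) : Squarefree (∏ p ∈ T, p) := by
  refine Finset.squarefree_prod_of_pairwise_isCoprime (fun p hp q hq hpq ↦ ?_)
    fun p hp ↦ (hT p hp).squarefree
  simp only [Function.onFun, ← Nat.coprime_iff_isRelPrime]
  exact (Nat.coprime_primes (hT p hp) (hT q hq)).mpr hpq

/-- the multiplicative weight -/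
noncomputable def D3d_g (T : Finset ℕ) : ℝ := ∏ p ∈ T, (8 / (p : ℝ))

theorem D3d_g_eq (T : Finset ℕ) : D3d_g T = (8 : ℝ) ^ T.card / ((∏ p ∈ T, p : ℕ) : ℝ) := by
  unfold D3d_g
  rw [Finset.prod_div_distrib, Finset.prod_const]
  push_cast
  rfl

theorem D3d_g_nonneg (T : Finset ℕ) : 0 ≤ D3d_g T :=
  Finset.prod_nonneg fun p _ => by positivity

theorem D3d_inner (hD : S_D3d1) (P : Finset ℕ) (Y e : ℕ) (hP : ∀ p ∈ P, p.Prime) (hY : 1 ≤ Y)
    (he : e = 0 ∨ Y < e) (A : Finset (Finset ℕ)) (hA : A ⊆ P.powerset)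
    (hA2 : ∀ T ∈ A, e ∣ ∏ p ∈ T, p) :
    ∑ T ∈ A, D3d_g T ≤ 8 ^ 64 / Real.sqrt Y * ∏ p ∈ P, (1 + 8 / (p : ℝ)) := by
  have hYpos : (0 : ℝ) < Y := by exact_mod_cast hY
  have hsY : 0 < Real.sqrt Y := Real.sqrt_pos.2 hYpos
  have hprod : 0 ≤ ∏ p ∈ P, (1 + 8 / (p : ℝ)) := Finset.prod_nonneg fun p _ => by positivity
  rcases A.eq_empty_or_nonempty with rfl | ⟨T₀, hT₀⟩
  · rw [Finset.sum_empty]
    positivity
  have hTP : ∀ T ∈ A, ∀ p ∈ T, p.Prime := fun T hT p hp =>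
    hP p (Finset.mem_powerset.1 (hA hT) hp)
  have hne : ∀ T ∈ A, (∏ p ∈ T, p) ≠ 0 := fun T hT =>
    Finset.prod_ne_zero_iff.2 fun p hp => (hTP T hT p hp).ne_zero
  have he0 : e ≠ 0 := by
    rintro rfl
    exact hne T₀ hT₀ (Nat.eq_zero_of_zero_dvd (hA2 T₀ hT₀))
  have heY : Y < e := he.resolve_left he0
  have hsq : Squarefree e := (D3d_sqf (hTP T₀ hT₀)).squarefree_of_dvd (hA2 T₀ hT₀)
  set D := e.primeFactors with hDdef
  have hDe : ∏ p ∈ D, p = e := Nat.prod_primeFactors_of_squarefree hsq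
  have hDT : ∀ T ∈ A, D ⊆ T := by
    intro T hT
    have := Nat.primeFactors_mono (hA2 T hT) (hne T hT)
    rwa [Nat.primeFactors_prod (hTP T hT)] at this
  have hDprime : ∀ p ∈ D, p.Prime := fun p hp => Nat.prime_of_mem_primeFactors hp
  -- bound of the weight of `D`
  have hgD : D3d_g D ≤ 8 ^ 64 / Real.sqrt Y := by
    rw [D3d_g_eq, hDe]
    have h1 := hD D hDprime
    rw [hDe] at h1
    have hepos : (0 : ℝ) < e := by exact_mod_cast Nat.pos_of_ne_zero he0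
    have hse : 0 < Real.sqrt e := Real.sqrt_pos.2 hepos
    have hle : Real.sqrt Y ≤ Real.sqrt e := Real.sqrt_le_sqrt (by exact_mod_cast heY.le)
    calc (8 : ℝ) ^ D.card / (e : ℝ) ≤ 8 ^ 64 * Real.sqrt e / (e : ℝ) := by gcongr
      _ = 8 ^ 64 / Real.sqrt e := by
          have : (e : ℝ) = Real.sqrt e * Real.sqrt e := (Real.mul_self_sqrt hepos.le).symm
          rw [div_eq_div_iff hepos.ne' hse.ne']
          nlinarith
      _ ≤ 8 ^ 64 / Real.sqrt Y := by gcongr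
  have hsplit : ∀ T ∈ A, D3d_g T = D3d_g D * D3d_g (T \ D) := by
    intro T hT
    unfold D3d_g
    rw [mul_comm, Finset.prod_sdiff (hDT T hT)]
  have hinj : Set.InjOn (fun T : Finset ℕ => T \ D) (A : Set (Finset ℕ)) := by
    intro T hT T' hT' h
    have h' : T \ D = T' \ D := h
    rw [← Finset.sdiff_union_of_subset (hDT T hT), ← Finset.sdiff_union_of_subset (hDT T' hT'), h']
  calc ∑ T ∈ A, D3d_g T = ∑ T ∈ A, D3d_g D * D3d_g (T \ D) := Finset.sum_congr rfl hsplit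
    _ = D3d_g D * ∑ T ∈ A, D3d_g (T \ D) := by rw [Finset.mul_sum]
    _ = D3d_g D * ∑ T ∈ A.image (fun T => T \ D), D3d_g T := by
        rw [Finset.sum_image hinj]
    _ ≤ D3d_g D * ∑ T ∈ P.powerset, D3d_g T := by
        apply mul_le_mul_of_nonneg_left _ (D3d_g_nonneg D)
        apply Finset.sum_le_sum_of_subset_of_nonneg
        · intro T hT
          obtain ⟨T', hT', rfl⟩ := Finset.mem_image.1 hT
          exact Finset.mem_powerset.2 (Finset.sdiff_subset.trans (Finset.mem_powerset.1 (hA hT')))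
        · intro T _ _
          exact D3d_g_nonneg T
    _ = D3d_g D * ∏ p ∈ P, (1 + 8 / (p : ℝ)) := by
        rw [Finset.prod_one_add]
        rfl
    _ ≤ _ := mul_le_mul_of_nonneg_right hgD hprod

theorem p_D3d (hD3d1 : S_D3d1) : S_D3d := by
  classical
  intro P k n Y c eb hP hY hc hsum heb
  set F := P.powerset.filter (fun T => T.card ≤ k) with hF
  set R := (8 : ℝ) ^ 64 / Real.sqrt Y * ∏ p ∈ P, (1 + 8 / (p : ℝ)) with hR
  have h1 : ∑ T ∈ F, (8 : ℝ) ^ T.card / ((∏ p ∈ T, p : ℕ) : ℝ) *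
      ∑ i ∈ univ.filter (fun i => eb i ∣ ∏ p ∈ T, p), c i =
      ∑ i, c i * ∑ T ∈ F.filter (fun T => eb i ∣ ∏ p ∈ T, p), D3d_g T := by
    simp_rw [Finset.sum_filter, Finset.mul_sum]
    rw [Finset.sum_comm]
    apply Finset.sum_congr rfl
    intro i _
    apply Finset.sum_congr rfl
    intro T _
    rw [D3d_g_eq]
    split_ifs
    · ring
    · simp
  have h2 : ∀ i, ∑ T ∈ F.filter (fun T => eb i ∣ ∏ p ∈ T, p), D3d_g T ≤ R := by
    intro i
    apply D3d_inner hD3d1 P Y (eb i) hP hY (heb i)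
    · exact (Finset.filter_subset _ _).trans (Finset.filter_subset _ _)
    · intro T hT
      exact (Finset.mem_filter.1 hT).2
  calc _ = ∑ i, c i * ∑ T ∈ F.filter (fun T => eb i ∣ ∏ p ∈ T, p), D3d_g T := by
        rw [← h1]
    _ ≤ ∑ i, c i * R := Finset.sum_le_sum fun i _ => mul_le_mul_of_nonneg_left (h2 i) (hc i)
    _ = R := by rw [← Finset.sum_mul, hsum, one_mul]

end Pool.Agent.APP
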