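import Pool.Agent.Lib.MP_8a4e59_co.D.Stm

set_option autoImplicit false

namespace Pool.Agent.APP

open Finset

theorem D3e1_sum (P : Finset ℕ) (hP : ∀ p ∈ P, p.Prime) :
    ∑ p ∈ P, ((p : ℝ) ^ 2)⁻¹ ≤ 1 := by
  set n := max 1 (P.sup id) with hn
  have hsub : P ⊆ Finset.Ioc 1 n := by
    intro p hp
    rw [Finset.mem_Ioc]
    exact ⟨(hP p hp).one_lt, le_max_of_le_right (Finset.le_sup (f := id) hp)⟩
  calc ∑ p ∈ P, ((p : ℝ) ^ 2)⁻¹ ≤ ∑ p ∈ Finset.Ioc 1 n, ((p : ℝ) ^ 2)⁻¹ :=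
        Finset.sum_le_sum_of_subset_of_nonneg hsub fun p _ _ => by positivity
    _ ≤ ((1 : ℕ) : ℝ)⁻¹ - (n : ℝ)⁻¹ := sum_Ioc_inv_sq_le_sub one_ne_zero (le_max_left _ _)
    _ ≤ 1 := by
        have : (0 : ℝ) ≤ (n : ℝ)⁻¹ := by positivity
        simp only [Nat.cast_one, inv_one]
        linarith

theorem D3e1_factor (x h : ℝ) (hx : 0 < x) (hx2 : x ≤ 1 / 2) (hh : 8 * x - 28 * x ^ 2 ≤ h) :
    (1 - h) * ((1 - x)⁻¹) ^ 8 ≤ 1 + 9216 * x ^ 2 := by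
  have h1 : (0 : ℝ) < 1 - x := by linarith
  have h2 : (1 / 256 : ℝ) ≤ (1 - x) ^ 8 := by
    calc (1 / 256 : ℝ) = (1 / 2) ^ 8 := by norm_num
      _ ≤ (1 - x) ^ 8 := pow_le_pow_left₀ (by norm_num) (by linarith) 8
  rw [inv_pow, ← div_eq_mul_inv, div_le_iff₀ (by positivity)]
  have h3 : x ^ 3 ≤ x ^ 2 / 2 := by nlinarith [sq_nonneg x, pow_pos hx 2]
  have h5 : x ^ 5 ≤ x ^ 2 / 8 := by
    have : x ^ 3 ≤ 1 / 8 := by
      calc x ^ 3 ≤ (1 / 2) ^ 3 := pow_le_pow_left₀ hx.le hx2 3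
        _ = 1 / 8 := by norm_num
    nlinarith [pow_pos hx 2]
  have h7 : x ^ 7 ≤ x ^ 2 / 32 := by
    have : x ^ 5 ≤ 1 / 32 := by
      calc x ^ 5 ≤ (1 / 2) ^ 5 := pow_le_pow_left₀ hx.le hx2 5
        _ = 1 / 32 := by norm_num
    nlinarith [pow_pos hx 2]
  have h4 : 0 ≤ x ^ 4 := by positivity
  have h6 : 0 ≤ x ^ 6 := by positivity
  have h8 : 0 ≤ x ^ 8 := by positivity
  have hexp : (1 - x) ^ 8 = 1 - 8 * x + 28 * x ^ 2 - 56 * x ^ 3 + 70 * x ^ 4 - 56 * x ^ 5 +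
      28 * x ^ 6 - 8 * x ^ 7 + x ^ 8 := by ring
  have h9 : 1 - h ≤ (1 - x) ^ 8 + 36 * x ^ 2 := by
    rw [hexp]
    nlinarith [pow_pos hx 2]
  have h10 : 36 * x ^ 2 ≤ 9216 * x ^ 2 * (1 - x) ^ 8 := by
    nlinarith [pow_pos hx 2]
  calc 1 - h ≤ (1 - x) ^ 8 + 36 * x ^ 2 := h9
    _ ≤ (1 - x) ^ 8 + 9216 * x ^ 2 * (1 - x) ^ 8 := by linarith
    _ = (1 + 9216 * x ^ 2) * (1 - x) ^ 8 := by ring

theorem p_D3e1 : S_D3e1 := by
  refine ⟨Real.exp 9216, Real.exp_pos _, ?_⟩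
  intro P h hP hh
  unfold VP
  rw [← Finset.prod_pow, ← Finset.prod_mul_distrib]
  calc ∏ p ∈ P, (1 - h p) * ((1 - 1 / (p : ℝ))⁻¹) ^ 8
      ≤ ∏ p ∈ P, (1 + 9216 * ((p : ℝ) ^ 2)⁻¹) := by
        apply Finset.prod_le_prod
        · intro p hp
          have hp2 : (2 : ℝ) ≤ p := by exact_mod_cast (hP p hp).two_le
          have h1 : 0 ≤ 1 - h p := by linarith [(hh p hp).2.1]
          have h2 : (0 : ℝ) ≤ 1 - 1 / p := by
            rw [sub_nonneg, div_le_one (by linarith)]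
            linarith
          positivity
        · intro p hp
          have hp2 : (2 : ℝ) ≤ p := by exact_mod_cast (hP p hp).two_le
          have h1 := D3e1_factor (1 / (p : ℝ)) (h p) (by positivity)
            (by rw [div_le_div_iff₀ (by linarith) (by norm_num)]; linarith) (by
              have := (hh p hp).2.2
              calc 8 * (1 / (p : ℝ)) - 28 * (1 / (p : ℝ)) ^ 2 =
                  8 / (p : ℝ) - 28 / (p : ℝ) ^ 2 := by ring
                _ ≤ h p := this)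
          calc _ ≤ _ := h1
            _ = _ := by ring
    _ ≤ Real.exp (∑ p ∈ P, 9216 * ((p : ℝ) ^ 2)⁻¹) := by
        apply Real.prod_one_add_le_exp_sum
        intro i
        positivity
    _ ≤ Real.exp 9216 := by
        rw [← Finset.mul_sum]
        apply Real.exp_le_exp.2
        have := D3e1_sum P hP
        linarith

end Pool.Agent.APP
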