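import Pool.Agent.Lib.MP_8a4e59_co.D.Stm

set_option autoImplicit false

/-!
(D3e2) over primes `> Q₀` the product is close to one.
-/

namespace Pool.Agent.APP

open Finset

theorem D3e2_pow_le (t : ℝ) (ht0 : 0 ≤ t) (ht1 : t ≤ 1) (j : ℕ) :
    (1 - t) ^ j ≤ 1 - j * t + (j : ℝ) ^ 2 / 2 * t ^ 2 := by
  induction j with
  | zero => simp
  | succ j ih =>
    rw [pow_succ]
    have h1 : (1 - t) ^ j * (1 - t) ≤ (1 - j * t + (j : ℝ) ^ 2 / 2 * t ^ 2) * (1 - t) :=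
      mul_le_mul_of_nonneg_right ih (by linarith)
    refine h1.trans ?_
    push_cast
    have h2 : 0 ≤ (j : ℝ) ^ 2 / 2 * t ^ 3 := by positivity
    have h3 : 0 ≤ t ^ 2 := by positivity
    nlinarith

theorem D3e2_le_pow (t : ℝ) (ht0 : 0 ≤ t) (ht1 : t ≤ 1) (j : ℕ) :
    1 - j * t ≤ (1 - t) ^ j := by
  have := one_add_mul_le_pow (a := -t) (by linarith) j
  calc 1 - j * t = 1 + j * (-t) := by ring
    _ ≤ (1 + -t) ^ j := this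
    _ = (1 - t) ^ j := by ring

theorem D3e2_local (t h : ℝ) (ht0 : 0 ≤ t) (ht1 : t ≤ 1 / 16) (j : ℕ) (hj : j ≤ 8)
    (h1 : h ≤ j * t) (h2 : j * t - 28 * t ^ 2 ≤ h) :
    |(1 - h) * ((1 - t)⁻¹) ^ j - 1| ≤ 120 * t ^ 2 := by
  have hjr : (j : ℝ) ≤ 8 := by exact_mod_cast hj
  have hj0 : (0 : ℝ) ≤ j := by positivity
  have e1 := D3e2_pow_le t ht0 (by linarith) j
  have e2 := D3e2_le_pow t ht0 (by linarith) j
  have hhalf : (1 : ℝ) / 2 ≤ (1 - t) ^ j := by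
    refine le_trans ?_ e2
    nlinarith
  have hpos : 0 < (1 - t) ^ j := by linarith
  have hsq : 0 ≤ t ^ 2 := by positivity
  have hj2 : (j : ℝ) ^ 2 / 2 * t ^ 2 ≤ 32 * t ^ 2 := by
    apply mul_le_mul_of_nonneg_right _ hsq
    nlinarith
  have hnum : |(1 - h) - (1 - t) ^ j| ≤ 60 * t ^ 2 := by
    rw [abs_le]
    constructor <;> nlinarith
  have hrw : (1 - h) * ((1 - t)⁻¹) ^ j - 1 = ((1 - h) - (1 - t) ^ j) / (1 - t) ^ j := by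
    rw [inv_pow]
    field_simp
  rw [hrw, abs_div, abs_of_pos hpos, div_le_iff₀ hpos]
  refine hnum.trans ?_
  nlinarith

theorem D3e2_sum (P : Finset ℕ) (Q₀ : ℝ) (hQ : 2 ≤ Q₀) (hP : ∀ p ∈ P, Q₀ < (p : ℝ)) :
    ∑ p ∈ P, (1 / (p : ℝ)) ^ 2 ≤ 2 / Q₀ := by
  have hk : ⌊Q₀⌋₊ ≠ 0 := by
    have : 2 ≤ ⌊Q₀⌋₊ := Nat.le_floor (by exact_mod_cast hQ)
    omega
  have hfl : Q₀ < ⌊Q₀⌋₊ + 1 := Nat.lt_floor_add_one Q₀
  obtain ⟨N, hN⟩ : ∃ N, ⌊Q₀⌋₊ ≤ N ∧ ∀ p ∈ P, p ≤ N :=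
    ⟨max ⌊Q₀⌋₊ (P.sup id), le_max_left _ _, fun p hp =>
      le_trans (Finset.le_sup (f := id) hp) (le_max_right _ _)⟩
  have hsub : P ⊆ Finset.Ioc ⌊Q₀⌋₊ N := by
    intro p hp
    rw [Finset.mem_Ioc]
    refine ⟨?_, hN.2 p hp⟩
    exact (Nat.floor_lt (by linarith)).2 (hP p hp)
  calc ∑ p ∈ P, (1 / (p : ℝ)) ^ 2 ≤ ∑ p ∈ Finset.Ioc ⌊Q₀⌋₊ N, (1 / (p : ℝ)) ^ 2 :=
        Finset.sum_le_sum_of_subset_of_nonneg hsub (fun _ _ _ => by positivity)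
    _ = ∑ p ∈ Finset.Ioc ⌊Q₀⌋₊ N, ((p : ℝ) ^ 2)⁻¹ := by
        apply Finset.sum_congr rfl
        intro p _
        rw [one_div, inv_pow]
    _ ≤ (⌊Q₀⌋₊ : ℝ)⁻¹ - (N : ℝ)⁻¹ := sum_Ioc_inv_sq_le_sub hk hN.1
    _ ≤ (⌊Q₀⌋₊ : ℝ)⁻¹ := by
        have : (0 : ℝ) ≤ (N : ℝ)⁻¹ := by positivity
        linarith
    _ ≤ 2 / Q₀ := by
        have hk' : (0 : ℝ) < ⌊Q₀⌋₊ := by exact_mod_cast Nat.pos_of_ne_zero hk
        rw [inv_eq_one_div, div_le_div_iff₀ hk' (by linarith)]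
        linarith

theorem p_D3e2  : S_D3e2 := by
  refine ⟨480, by norm_num, ?_⟩
  intro P h j Q₀ hC hj hP hh
  have hQpos : 0 < Q₀ := by linarith
  have hprod : (∏ p ∈ P, (1 - h p)) * VP P ^ j =
      ∏ p ∈ P, (1 + ((1 - h p) * ((1 - 1 / (p : ℝ))⁻¹) ^ j - 1)) := by
    unfold VP
    rw [← Finset.prod_pow, ← Finset.prod_mul_distrib]
    apply Finset.prod_congr rfl
    intro p _
    ring
  have hloc : ∀ p ∈ P, |(1 - h p) * ((1 - 1 / (p : ℝ))⁻¹) ^ j - 1| ≤ 120 * (1 / (p : ℝ)) ^ 2 := by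
    intro p hp
    obtain ⟨h0, h1, h2⟩ := hh p hp
    have hpQ := (hP p hp).2
    have hppos : (0 : ℝ) < p := by linarith
    apply D3e2_local _ _ (by positivity) _ j hj
    · rw [mul_one_div]; exact h1
    · rw [mul_one_div, one_div, inv_pow, ← div_eq_mul_inv]; exact h2
    · rw [div_le_div_iff₀ hppos (by norm_num)]
      linarith
  have hsum : ∑ p ∈ P, ‖(1 - h p) * ((1 - 1 / (p : ℝ))⁻¹) ^ j - 1‖ ≤ 240 / Q₀ := by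
    calc _ ≤ ∑ p ∈ P, 120 * (1 / (p : ℝ)) ^ 2 := Finset.sum_le_sum (fun p hp => hloc p hp)
      _ = 120 * ∑ p ∈ P, (1 / (p : ℝ)) ^ 2 := by rw [Finset.mul_sum]
      _ ≤ 120 * (2 / Q₀) := by
          apply mul_le_mul_of_nonneg_left _ (by norm_num)
          exact D3e2_sum P Q₀ (by linarith) (fun p hp => (hP p hp).2)
      _ = 240 / Q₀ := by ring
  have hnn : 0 ≤ ∑ p ∈ P, ‖(1 - h p) * ((1 - 1 / (p : ℝ))⁻¹) ^ j - 1‖ :=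
    Finset.sum_nonneg (fun _ _ => norm_nonneg _)
  have hle1 : 240 / Q₀ ≤ 1 := by
    rw [div_le_one hQpos]; linarith
  have hmain := Finset.norm_prod_one_add_sub_one_le P
    (fun p : ℕ => (1 - h p) * ((1 - 1 / (p : ℝ))⁻¹) ^ j - 1)
  rw [hprod]
  have habs : |∑ p ∈ P, ‖(1 - h p) * ((1 - 1 / (p : ℝ))⁻¹) ^ j - 1‖| ≤ 1 := by
    rw [abs_of_nonneg hnn]; linarith
  have hexp := Real.abs_exp_sub_one_le habs
  rw [abs_of_nonneg hnn] at hexp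
  calc _ ≤ Real.exp (∑ p ∈ P, ‖(1 - h p) * ((1 - 1 / (p : ℝ))⁻¹) ^ j - 1‖) - 1 := hmain
    _ ≤ 2 * ∑ p ∈ P, ‖(1 - h p) * ((1 - 1 / (p : ℝ))⁻¹) ^ j - 1‖ := le_trans (le_abs_self _) hexp
    _ ≤ 2 * (240 / Q₀) := by linarith
    _ = 480 / Q₀ := by ring

end Pool.Agent.APP
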