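import Pool.Agent.Lib.MP_8a4e59_co.D.Stm
import Pool.Agent.Lib.MP_0da313_nt.MT.Mertens

set_option autoImplicit false

namespace Pool.Agent.APP

open Finset

private theorem D3f_mert {Q : ℝ} (hQ : 3 ≤ Q) :
    VP ((Finset.Icc 1 ⌊Q⌋₊).filter Nat.Prime) ≤ 1000 * Real.log Q := by
  have hfl : 2 ≤ ⌊Q⌋₊ := (Nat.le_floor_iff (by linarith)).2 (by push_cast; linarith)
  have h1 := Pool.Agent.MT.mertens ⌊Q⌋₊ hfl
  have h2 : VP ((Finset.Icc 1 ⌊Q⌋₊).filter Nat.Prime) =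
      (Pool.Agent.MP89da58.kapD ⌊Q⌋₊)⁻¹ := by
    rw [VP, Pool.Agent.MP89da58.kapD, ← prod_inv_distrib]
  have hk : 0 < Pool.Agent.MP89da58.kapD ⌊Q⌋₊ := by
    rw [Pool.Agent.MP89da58.kapD]
    apply prod_pos
    intro p hp
    have hp' := (mem_filter.1 hp).2
    have h2 : (2 : ℝ) ≤ p := by exact_mod_cast hp'.two_le
    have h3 : 1 / (p : ℝ) ≤ 1 / 2 := one_div_le_one_div_of_le (by norm_num) h2
    linarith
  have h3 : Real.log ⌊Q⌋₊ ≤ Real.log Q := by
    apply Real.log_le_log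
    · have : (2 : ℝ) ≤ ⌊Q⌋₊ := by exact_mod_cast hfl
      linarith
    · exact Nat.floor_le (by linarith)
  rw [h2, ← one_div, div_le_iff₀ hk]
  have h4 : 1000 * Pool.Agent.MP89da58.kapD ⌊Q⌋₊ * Real.log ⌊Q⌋₊ ≤
      1000 * Pool.Agent.MP89da58.kapD ⌊Q⌋₊ * Real.log Q :=
    mul_le_mul_of_nonneg_left h3 (by positivity)
  linarith

private theorem D3f_one {p : ℕ} (hp : p.Prime) : 1 ≤ (1 - 1 / (p : ℝ))⁻¹ := by
  have h2 : (2 : ℝ) ≤ p := by exact_mod_cast hp.two_le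
  have h3 : 1 / (p : ℝ) ≤ 1 / 2 := one_div_le_one_div_of_le (by norm_num) h2
  have h4 : 0 < 1 / (p : ℝ) := by positivity
  rw [one_le_inv₀ (by linarith)]
  linarith

private theorem D3f_two {p : ℕ} (hp : p.Prime) :
    1 + 1 / (p : ℝ) ≤ (1 - 1 / (p : ℝ))⁻¹ := by
  have h2 : (2 : ℝ) ≤ p := by exact_mod_cast hp.two_le
  have h3 : 1 / (p : ℝ) ≤ 1 / 2 := one_div_le_one_div_of_le (by norm_num) h2
  have h4 : 0 < 1 / (p : ℝ) := by positivity
  rw [← one_div, le_div_iff₀ (by linarith)]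
  nlinarith

private theorem D3f_ge {P : Finset ℕ} (hP : ∀ p ∈ P, p.Prime) : 1 ≤ VP P := by
  have h := Finset.prod_le_prod (s := P) (f := fun _ : ℕ => (1 : ℝ))
    (g := fun p : ℕ => (1 - 1 / (p : ℝ))⁻¹) (fun _ _ => zero_le_one)
    (fun p hp => D3f_one (hP p hp))
  simpa [VP] using h

theorem p_D3f : S_D3f := by
  obtain ⟨C, hC⟩ : ∃ C : ℕ, C = 1000 ^ 8 := ⟨_, rfl⟩
  have hCr : (C : ℝ) = 1000 ^ 8 := by rw [hC]; norm_num
  have hC8 : 8 ≤ C := by rw [hC]; norm_num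
  clear hC
  have hCbig : (1000 : ℝ) ≤ C := by rw [hCr]; norm_num
  refine ⟨C, fun Q hQ P hP => ?_⟩
  have hpr : ∀ p ∈ P, p.Prime := fun p hp => (mem_filter.1 (hP hp)).2
  have hL1 : 1 ≤ Real.log Q := by
    rw [Real.le_log_iff_exp_le (by linarith)]
    have := Real.exp_one_lt_d9
    linarith
  have h1 : VP P ≤ 1000 * Real.log Q := by
    refine le_trans ?_ (D3f_mert hQ)
    have h2 : VP ((Finset.Icc 1 ⌊Q⌋₊).filter Nat.Prime \ P) * VP P =
        VP ((Finset.Icc 1 ⌊Q⌋₊).filter Nat.Prime) := Finset.prod_sdiff hP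
    have h3 : 1 ≤ VP ((Finset.Icc 1 ⌊Q⌋₊).filter Nat.Prime \ P) :=
      D3f_ge fun p hp => (mem_filter.1 (mem_sdiff.1 hp).1).2
    have h4 := D3f_ge hpr
    rw [← h2]
    nlinarith
  have hV1 : 1 ≤ VP P := D3f_ge hpr
  have hpow : ∀ k : ℕ, k ≤ C → Real.log Q ^ k ≤ Real.log Q ^ C := fun k hk =>
    pow_le_pow_right₀ hL1 hk
  refine ⟨?_, ?_, ?_⟩
  · refine h1.trans ?_
    have h2 := hpow 1 (by omega)
    rw [pow_one] at h2
    exact mul_le_mul hCbig h2 (by linarith) (by linarith)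
  · have h2 : ∏ p ∈ P, (1 + 8 / (p : ℝ)) ≤ VP P ^ 8 := by
      unfold VP
      rw [← Finset.prod_pow]
      refine Finset.prod_le_prod (fun p hp => by positivity) fun p hp => ?_
      have h3 := D3f_two (hpr p hp)
      have h4 : (0 : ℝ) ≤ 1 / (p : ℝ) := by positivity
      have h5 : 1 + 8 * (1 / (p : ℝ)) ≤ (1 + 1 / (p : ℝ)) ^ 8 := by
        have := one_add_mul_le_pow (a := 1 / (p : ℝ)) (by linarith) 8
        push_cast at this
        exact this
      calc (1 + 8 / (p : ℝ)) = 1 + 8 * (1 / (p : ℝ)) := by ring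
        _ ≤ (1 + 1 / (p : ℝ)) ^ 8 := h5
        _ ≤ _ := pow_le_pow_left₀ (by linarith) h3 8
    refine h2.trans ?_
    calc VP P ^ 8 ≤ (1000 * Real.log Q) ^ 8 := pow_le_pow_left₀ (by linarith) h1 8
      _ = C * Real.log Q ^ 8 := by rw [mul_pow, hCr]
      _ ≤ C * Real.log Q ^ C := mul_le_mul_of_nonneg_left (hpow 8 hC8) (by linarith)
  · have h2 : ∑ p ∈ P, 1 / (p : ℝ) ≤ Real.log (VP P) := by
      unfold VP
      rw [Real.log_prod fun p hp => ?_]
      · refine Finset.sum_le_sum fun p hp => ?_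
        have h3 := D3f_one (hpr p hp)
        have h4 : (2 : ℝ) ≤ p := by exact_mod_cast (hpr p hp).two_le
        have h5 : 1 / (p : ℝ) ≤ 1 / 2 := one_div_le_one_div_of_le (by norm_num) h4
        rw [Real.log_inv]
        have h6 := Real.log_le_sub_one_of_pos (x := 1 - 1 / (p : ℝ)) (by linarith)
        linarith
      · have h3 := D3f_one (hpr p hp)
        linarith
    have h3 : Real.log (VP P) ≤ Real.log 1000 + Real.log (Real.log Q) := by
      rw [← Real.log_mul (by norm_num) (by linarith)]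
      exact Real.log_le_log (by linarith) h1
    have h4 : Real.log 1000 ≤ 1000 - 1 := Real.log_le_sub_one_of_pos (by norm_num)
    have h5 : 0 ≤ Real.log (Real.log Q) := Real.log_nonneg hL1
    have h6 : (1000 : ℝ) * (Real.log (Real.log Q) + 1) ≤ C * (Real.log (Real.log Q) + 1) :=
      mul_le_mul_of_nonneg_right hCbig (by linarith)
    linarith

end Pool.Agent.APP
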