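import Pool.Agent.Lib.MP_8a4e59_co.D.Stm

set_option autoImplicit false

namespace Pool.Agent.APP

open Finset

lemma D3g_LL_add (o : Fin 3 → Bool) (z v : Fin 7 → ℤ) (e : ℤ) :
    LL o (fun j => z j + e * v j) = LL o z + e * LL o v := by
  unfold LL
  split_ifs <;> ring

lemma D3g_W7_nonneg (b w : ℤ → ℝ) (hb : ∀ x, 0 ≤ b x) (hw : ∀ x, 0 ≤ w x) (z : Fin 7 → ℤ) :
    0 ≤ W7 b w z := by
  unfold W7
  have h1 := hb (z 0)
  have h2 := hw (z 1)
  have h3 := hw (z 2)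
  have h4 := hw (z 3)
  have h5 := hw (z 4)
  have h6 := hw (z 5)
  have h7 := hw (z 6)
  positivity

lemma D3g_e_le (T : Finset ℕ) (Q : ℝ) (k : ℕ) (hQ : 1 ≤ Q) (hT : ∀ p ∈ T, (p : ℝ) ≤ Q)
    (hc : T.card ≤ k + 1) : ((∏ p ∈ T, p : ℕ) : ℝ) ≤ Q ^ (k + 1) := by
  push_cast
  calc ∏ p ∈ T, (p : ℝ) ≤ ∏ _p ∈ T, Q := Finset.prod_le_prod (fun p _ => Nat.cast_nonneg p) hT
    _ = Q ^ T.card := by rw [Finset.prod_const]
    _ ≤ Q ^ (k + 1) := pow_le_pow_right₀ hQ hc

lemma D3g_card (P : Finset ℕ) (k D : ℕ) (hP : ∀ p ∈ P, p.Prime)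
    (hD : ∀ T ∈ P.powerset, T.card ≤ k + 1 → ∏ p ∈ T, p ≤ D) :
    (P.powerset.filter (fun T => T.card ≤ k + 1)).card ≤ D := by
  have h1 : (P.powerset.filter (fun T => T.card ≤ k + 1)).card ≤ (Finset.Icc 1 D).card := by
    apply Finset.card_le_card_of_injOn (fun T => ∏ p ∈ T, p)
    · intro T hT
      have hT' := Finset.mem_filter.mp (Finset.mem_coe.mp hT)
      apply Finset.mem_coe.mpr
      rw [Finset.mem_Icc]
      refine ⟨?_, hD T hT'.1 hT'.2⟩
      exact Finset.prod_pos (fun p hp => (hP p (Finset.mem_powerset.mp hT'.1 hp)).pos)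
    · intro T hT T' hT' heq
      have h1 := Finset.mem_filter.mp (Finset.mem_coe.mp hT)
      have h2 := Finset.mem_filter.mp (Finset.mem_coe.mp hT')
      have e1 := Nat.primeFactors_prod (s := T) (fun p hp => hP p (Finset.mem_powerset.mp h1.1 hp))
      have e2 := Nat.primeFactors_prod (s := T') (fun p hp => hP p (Finset.mem_powerset.mp h2.1 hp))
      have heq' : ∏ p ∈ T, p = ∏ p ∈ T', p := heq
      rw [← e1, ← e2, heq']
  simpa using h1

lemma D3g_eta (n e : ℕ) (b : ℤ → ℝ) (τ σ η c : ℝ) (he : 1 ≤ e) (hτ : 0 < τ) (hX : 0 < mass b n)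
    (hc : c ≤ ((n : ℝ) / e) * σ + 1 / τ)
    (hη : (n : ℝ) / mass b n * σ + e / (τ * mass b n) ≤ η) :
    c ≤ η * (mass b n / e) := by
  have he' : (0 : ℝ) < e := by exact_mod_cast he
  have h1 : ((n : ℝ) / mass b n * σ + e / (τ * mass b n)) * (mass b n / e) = ((n : ℝ) / e) * σ + 1 / τ := by
    field_simp
  calc c ≤ ((n : ℝ) / e) * σ + 1 / τ := hc
    _ = ((n : ℝ) / mass b n * σ + e / (τ * mass b n)) * (mass b n / e) := h1.symm
    _ ≤ η * (mass b n / e) := by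
      apply mul_le_mul_of_nonneg_right hη
      positivity

lemma D3g_filter_eq {α : Type} (s : Finset α) (p : α → Prop) (i1 i2 : DecidablePred p) :
    @Finset.filter α p i1 s = @Finset.filter α p i2 s := by
  ext z
  rw [@Finset.mem_filter _ _ i1, @Finset.mem_filter _ _ i2]

open Classical in
lemma D3g_hb4 (hD3b : S_D3b) (m : ℕ) (Om : ℕ → Finset (Fin 3 → Bool)) (T : Finset ℕ)
    (hT : ∀ p ∈ T, p.Prime) (i1 : DecidablePred
          (fun z : Fin 7 → ℤ => ∀ p ∈ T, ∃ o ∈ Om p, (p : ℤ) ∣ (m : ℤ) * LL o z + 1)) :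
    ((@Finset.filter _ (fun z : Fin 7 → ℤ => ∀ p ∈ T, ∃ o ∈ Om p, (p : ℤ) ∣ (m : ℤ) * LL o z + 1) i1
          (Box7 (∏ p ∈ T, p))).card : ℝ) = ((∏ p ∈ T, p : ℕ) : ℝ) ^ 7 * ∏ p ∈ T, hh m (Om p) p := by
  refine Eq.trans ?_ (hD3b m Om T hT)
  congr 2
  exact D3g_filter_eq _ _ _ _

theorem p_D3g (hC4 : S_C4) (hD3a : S_D3a) (hD3b : S_D3b) (hD3c : S_D3c) (hD3d : S_D3d) : S_D3g := by
  classical
  intro n D m Y k τ Q b w P Om hP hQD hQ hn hY hm hτ hDτ hb hw hXb hXw hEb hEw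
  obtain ⟨kb, c, eb, hc0, hc1, heb, hEb⟩ := hEb
  obtain ⟨kw, c', eb', hc0', hc1', heb', hEw⟩ := hEw
  set Xb := mass b n with hXbdef
  set Xw := mass w n with hXwdef
  have hn' : (1 : ℝ) ≤ n := by exact_mod_cast hn
  have hn0 : (0 : ℝ) < n := by linarith
  have hD1 : (1 : ℝ) ≤ D := le_trans (one_le_pow₀ hQ) hQD
  set M : ℝ := Xb * Xw ^ 6 with hM
  have hMpos : 0 < M := by positivity
  set Hm : ℝ := 6 * n / Xb + 6 * n / Xw with hHm
  have hHm0 : 0 ≤ Hm := by positivity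
  set A : ℝ := n / Xb + n / Xw with hA
  have hA0 : 0 ≤ A := by positivity
  have hA6 : Hm = 6 * A := by rw [hHm, hA]; ring
  -- products
  have hpos : ∀ T ∈ P.powerset, 1 ≤ ∏ p ∈ T, p := fun T hT =>
    Finset.prod_pos (fun p hp => (hP p (Finset.mem_powerset.mp hT hp)).1.pos)
  have hle : ∀ T ∈ P.powerset, T.card ≤ k + 1 → ((∏ p ∈ T, p : ℕ) : ℝ) ≤ D := fun T hT hc =>
    (D3g_e_le T Q k hQ (fun p hp => (hP p (Finset.mem_powerset.mp hT hp)).2.2) hc).trans hQD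
  have hle' : ∀ T ∈ P.powerset, T.card ≤ k + 1 → ∏ p ∈ T, p ≤ D := fun T hT hc => by
    exact_mod_cast hle T hT hc
  have hcop : ∀ T ∈ P.powerset, (∏ p ∈ T, p).Coprime m := fun T hT =>
    Nat.Coprime.prod_left (fun p hp => by
      have h := hP p (Finset.mem_powerset.mp hT hp)
      exact (Nat.Prime.coprime_iff_not_dvd h.1).mpr h.2.1)
  -- the densities
  set h : ℕ → ℝ := fun p => hh m (Om p) p with hh_def
  have hh0 : ∀ p ∈ P, 0 ≤ h p ∧ h p ≤ 1 := fun p hp => by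
    have := hD3a m (Om p) p (hP p hp).1 (hP p hp).2.1
    exact ⟨this.1, this.2.1.le⟩
  have hh8 : ∀ p ∈ P, h p ≤ 8 / (p : ℝ) := fun p hp => by
    have h1 := (hD3a m (Om p) p (hP p hp).1 (hP p hp).2.1).2.2.1
    have h2 : ((Om p).card : ℝ) ≤ 8 := by
      have : (Om p).card ≤ 8 := by
        have := Finset.card_le_univ (Om p)
        simpa using this
      exact_mod_cast this
    refine h1.trans ?_
    have hp0 : (0 : ℝ) < p := by exact_mod_cast (hP p hp).1.pos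
    gcongr
  set σ : Finset ℕ → ℝ := fun T => ∑ i ∈ univ.filter (fun i => eb i ∣ ∏ p ∈ T, p), c i with hσ
  set σ' : Finset ℕ → ℝ := fun T => ∑ i ∈ univ.filter (fun i => eb' i ∣ ∏ p ∈ T, p), c' i with hσ'
  have hσ0 : ∀ T, 0 ≤ σ T := fun T => Finset.sum_nonneg (fun i _ => hc0 i)
  have hσ0' : ∀ T, 0 ≤ σ' T := fun T => Finset.sum_nonneg (fun i _ => hc0' i)
  have hσ1 : ∀ T, σ T ≤ 1 := fun T => by
    rw [← hc1]
    exact Finset.sum_le_sum_of_subset_of_nonneg (Finset.filter_subset _ _) (fun i _ _ => hc0 i)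
  have hσ1' : ∀ T, σ' T ≤ 1 := fun T => by
    rw [← hc1']
    exact Finset.sum_le_sum_of_subset_of_nonneg (Finset.filter_subset _ _) (fun i _ _ => hc0' i)
  set E : Finset ℕ → ℝ := fun T => ((∏ p ∈ T, p : ℕ) : ℝ) with hE
  have hE1 : ∀ T ∈ P.powerset, 1 ≤ E T := fun T hT => by
    show (1 : ℝ) ≤ ((∏ p ∈ T, p : ℕ) : ℝ)
    exact_mod_cast hpos T hT
  set η : Finset ℕ → ℝ := fun T => A * (σ T + σ' T) + A * (E T / (τ * n)) with hη
  have hη0 : ∀ T ∈ P.powerset, 0 ≤ η T := fun T hT => by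
    have h1 := hσ0 T
    have h2 := hσ0' T
    have h3 := hE1 T hT
    show 0 ≤ A * (σ T + σ' T) + A * (E T / (τ * n))
    have h4 : 0 ≤ E T := by linarith
    positivity
  have hη1 : ∀ T ∈ P.powerset, T.card ≤ k + 1 → η T ≤ Hm := fun T hT hc => by
    have h1 := hσ1 T
    have h2 := hσ1' T
    have h3 := hle T hT hc
    have h4 : E T / (τ * n) ≤ 1 := by
      rw [div_le_one (by positivity)]
      have : (D : ℝ) ≤ n * τ := (div_le_iff₀ hτ).mp hDτ
      calc E T ≤ D := h3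
        _ ≤ n * τ := this
        _ = τ * n := by ring
    show A * (σ T + σ' T) + A * (E T / (τ * n)) ≤ Hm
    rw [hA6]
    nlinarith [mul_le_mul_of_nonneg_left h1 hA0, mul_le_mul_of_nonneg_left h2 hA0,
      mul_le_mul_of_nonneg_left h4 hA0]
  -- error term
  set err : Finset ℕ → ℝ := fun T => 7 * (1 + Hm) ^ 6 * M * (η T * (8 ^ T.card / E T)) with herr
  have hmain := hC4 (Fin 7 → ℤ) (Box7 n) (W7 b w) P
    (fun z p => ∃ o ∈ Om p, (p : ℤ) ∣ (m : ℤ) * LL o z + 1) h M err k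
    (fun z _ => D3g_W7_nonneg b w hb hw z) hh0 hMpos.le ?_
  · refine le_trans (?_ : _ ≤ (2 * M * (∑ p ∈ P, h p) ^ (k + 1) / ((k + 1).factorial : ℝ) +
      ∑ T ∈ P.powerset.filter (fun T => T.card ≤ k + 1), err T)) ?_
    · have hfilt : ∀ (i1 i2 : DecidablePred
          (fun z : Fin 7 → ℤ => ∀ p ∈ P, ¬ ∃ o ∈ Om p, (p : ℤ) ∣ (m : ℤ) * LL o z + 1)),
          ∑ z ∈ @Finset.filter _ (fun z : Fin 7 → ℤ => ∀ p ∈ P, ¬ ∃ o ∈ Om p,
            (p : ℤ) ∣ (m : ℤ) * LL o z + 1) i1 (Box7 n), W7 b w z =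
          ∑ z ∈ @Finset.filter _ (fun z : Fin 7 → ℤ => ∀ p ∈ P, ¬ ∃ o ∈ Om p,
            (p : ℤ) ∣ (m : ℤ) * LL o z + 1) i2 (Box7 n), W7 b w z := by
        intro i1 i2
        apply Finset.sum_congr _ (fun _ _ => rfl)
        ext z
        rw [@Finset.mem_filter _ _ i1, @Finset.mem_filter _ _ i2]
      refine le_trans (le_of_eq ?_) hmain
      rw [hfilt _ _]
    · -- bound of the right hand side
      have hS1 : ∑ p ∈ P, h p ≤ 8 * ∑ p ∈ P, 1 / (p : ℝ) := by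
        rw [Finset.mul_sum]
        apply Finset.sum_le_sum
        intro p hp
        refine (hh8 p hp).trans_eq ?_
        ring
      have hS0 : 0 ≤ ∑ p ∈ P, h p := Finset.sum_nonneg (fun p hp => (hh0 p hp).1)
      have hT1 : 2 * M * (∑ p ∈ P, h p) ^ (k + 1) / ((k + 1).factorial : ℝ) ≤
          M * (2 * (8 * ∑ p ∈ P, 1 / (p : ℝ)) ^ (k + 1) / ((k + 1).factorial : ℝ)) := by
        have h1 : (∑ p ∈ P, h p) ^ (k + 1) ≤ (8 * ∑ p ∈ P, 1 / (p : ℝ)) ^ (k + 1) :=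
          pow_le_pow_left₀ hS0 hS1 _
        have h2 : (0 : ℝ) < ((k + 1).factorial : ℝ) := by exact_mod_cast Nat.factorial_pos _
        calc 2 * M * (∑ p ∈ P, h p) ^ (k + 1) / ((k + 1).factorial : ℝ)
            ≤ 2 * M * (8 * ∑ p ∈ P, 1 / (p : ℝ)) ^ (k + 1) / ((k + 1).factorial : ℝ) := by
              gcongr
          _ = _ := by ring
      have hPr : ∀ p ∈ P, p.Prime := fun p hp => (hP p hp).1
      have hd1 := hD3d P (k + 1) kb Y c eb hPr hY hc0 hc1 heb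
      have hd2 := hD3d P (k + 1) kw Y c' eb' hPr hY hc0' hc1' heb'
      set R : ℝ := 8 ^ 64 / Real.sqrt Y * ∏ p ∈ P, (1 + 8 / (p : ℝ)) with hR
      have hcard := D3g_card P k D hPr hle'
      have hT2 : ∑ T ∈ P.powerset.filter (fun T => T.card ≤ k + 1), err T ≤
          7 * (1 + Hm) ^ 6 * M * (A * (2 * R + (D : ℝ) * 8 ^ (k + 1) / (τ * n))) := by
        have hexp : ∀ T ∈ P.powerset.filter (fun T => T.card ≤ k + 1),
            err T ≤ 7 * (1 + Hm) ^ 6 * M * A * (8 ^ T.card / E T * σ T + 8 ^ T.card / E T * σ' T +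
              8 ^ (k + 1) / (τ * n)) := by
          intro T hT
          obtain ⟨hT, hc⟩ := Finset.mem_filter.mp hT
          have h1 := hE1 T hT
          have hE0 : 0 < E T := by linarith
          show 7 * (1 + Hm) ^ 6 * M * ((A * (σ T + σ' T) + A * (E T / (τ * n))) * (8 ^ T.card / E T)) ≤ _
          have h2 : (A * (σ T + σ' T) + A * (E T / (τ * n))) * (8 ^ T.card / E T) =
              A * (8 ^ T.card / E T * σ T + 8 ^ T.card / E T * σ' T + 8 ^ T.card / (τ * n)) := by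
            field_simp
          rw [h2]
          have h3 : (8 : ℝ) ^ T.card ≤ 8 ^ (k + 1) := pow_le_pow_right₀ (by norm_num) hc
          have h4 : (8 : ℝ) ^ T.card / (τ * n) ≤ 8 ^ (k + 1) / (τ * n) := by gcongr
          have h5 : 0 ≤ 7 * (1 + Hm) ^ 6 * M * A := by positivity
          calc 7 * (1 + Hm) ^ 6 * M * (A * (8 ^ T.card / E T * σ T + 8 ^ T.card / E T * σ' T + 8 ^ T.card / (τ * n)))
              = 7 * (1 + Hm) ^ 6 * M * A * (8 ^ T.card / E T * σ T + 8 ^ T.card / E T * σ' T + 8 ^ T.card / (τ * n)) := by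
                ring
            _ ≤ _ := by
                apply mul_le_mul_of_nonneg_left _ h5
                linarith
        refine (Finset.sum_le_sum hexp).trans ?_
        rw [← Finset.mul_sum, Finset.sum_add_distrib, Finset.sum_add_distrib, Finset.sum_const,
          nsmul_eq_mul]
        have h5 : 0 ≤ 7 * (1 + Hm) ^ 6 * M * A := by positivity
        have h6 : (((P.powerset.filter (fun T => T.card ≤ k + 1)).card : ℕ) : ℝ) * (8 ^ (k + 1) / (τ * n)) ≤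
            (D : ℝ) * (8 ^ (k + 1) / (τ * n)) := by
          apply mul_le_mul_of_nonneg_right _ (by positivity)
          exact_mod_cast hcard
        calc 7 * (1 + Hm) ^ 6 * M * A * _ ≤ 7 * (1 + Hm) ^ 6 * M * A *
              (R + R + (D : ℝ) * (8 ^ (k + 1) / (τ * n))) := by
              apply mul_le_mul_of_nonneg_left _ h5
              apply add_le_add (add_le_add _ _) h6
              · exact hd1
              · exact hd2
          _ = _ := by ring
      have hR0 : 0 ≤ R := by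
        rw [hR]
        have : 0 ≤ ∏ p ∈ P, (1 + 8 / (p : ℝ)) := Finset.prod_nonneg (fun p _ => by positivity)
        positivity
      have hfin : 7 * (1 + Hm) ^ 6 * M * (A * (2 * R + (D : ℝ) * 8 ^ (k + 1) / (τ * n))) ≤
          M * (7 * (1 + Hm) ^ 7 * (2 * (8 ^ 64 / Real.sqrt Y) * ∏ p ∈ P, (1 + 8 / (p : ℝ)) +
            2 * (D : ℝ) * 8 ^ (k + 1) * D / (τ * n))) := by
        have h1 : A ≤ 1 + Hm := by rw [hA6]; linarith
        have h2 : (D : ℝ) * 8 ^ (k + 1) / (τ * n) ≤ 2 * (D : ℝ) * 8 ^ (k + 1) * D / (τ * n) := by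
          apply div_le_div_of_nonneg_right _ (by positivity)
          have h3 : (0 : ℝ) ≤ (D : ℝ) * 8 ^ (k + 1) := by positivity
          nlinarith
        have h3 : 2 * R + (D : ℝ) * 8 ^ (k + 1) / (τ * n) ≤
            2 * (8 ^ 64 / Real.sqrt Y) * ∏ p ∈ P, (1 + 8 / (p : ℝ)) +
            2 * (D : ℝ) * 8 ^ (k + 1) * D / (τ * n) := by
          have : 2 * R = 2 * (8 ^ 64 / Real.sqrt Y) * ∏ p ∈ P, (1 + 8 / (p : ℝ)) := by rw [hR]; ring
          rw [← this]
          linarith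
        calc 7 * (1 + Hm) ^ 6 * M * (A * (2 * R + (D : ℝ) * 8 ^ (k + 1) / (τ * n)))
            ≤ 7 * (1 + Hm) ^ 6 * M * ((1 + Hm) * (2 * (8 ^ 64 / Real.sqrt Y) * ∏ p ∈ P, (1 + 8 / (p : ℝ)) +
            2 * (D : ℝ) * 8 ^ (k + 1) * D / (τ * n))) := by
              apply mul_le_mul_of_nonneg_left _ (by positivity)
              apply mul_le_mul h1 h3 _ (by positivity)
              positivity
          _ = _ := by ring
      calc _ ≤ M * (2 * (8 * ∑ p ∈ P, 1 / (p : ℝ)) ^ (k + 1) / ((k + 1).factorial : ℝ)) +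
            M * (7 * (1 + Hm) ^ 7 * (2 * (8 ^ 64 / Real.sqrt Y) * ∏ p ∈ P, (1 + 8 / (p : ℝ)) +
            2 * (D : ℝ) * 8 ^ (k + 1) * D / (τ * n))) := add_le_add hT1 (hT2.trans hfin)
        _ = _ := by ring
  · intro T hT hcT
    have hTP := Finset.mem_powerset.mp hT
    have he1 := hpos T hT
    have hD' := hle' T hT hcT
    have hc3 := hD3c n (∏ p ∈ T, p) b w (η T)
      (fun z => ∀ p ∈ T, ∃ o ∈ Om p, (p : ℤ) ∣ (m : ℤ) * LL o z + 1) he1 (hη0 T hT) hb hw ?_ ?_ ?_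
    · have hE0 : 0 < E T := by have := hE1 T hT; linarith
      have hb4 : ∀ (i1 : DecidablePred
          (fun z : Fin 7 → ℤ => ∀ p ∈ T, ∃ o ∈ Om p, (p : ℤ) ∣ (m : ℤ) * LL o z + 1)),
          ((@Finset.filter _ (fun z : Fin 7 → ℤ => ∀ p ∈ T, ∃ o ∈ Om p, (p : ℤ) ∣ (m : ℤ) * LL o z + 1) i1
          (Box7 (∏ p ∈ T, p))).card : ℝ) /
          ((∏ p ∈ T, p : ℕ) : ℝ) ^ 7 = ∏ p ∈ T, h p := by
        intro i1
        have hE0' : (0 : ℝ) < ((∏ p ∈ T, p : ℕ) : ℝ) ^ 7 := pow_pos hE0 7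
        rw [div_eq_iff hE0'.ne', mul_comm]
        exact D3g_hb4 hD3b m Om T (fun p hp => (hP p (hTP hp)).1) i1
      rw [hb4] at hc3
      refine le_trans (?_ : _ ≤ 7 * η T * (1 + η T) ^ 6 * (M * ∏ p ∈ T, h p)) ?_
      · have hfilt : ∀ (i1 i2 : DecidablePred
            (fun z : Fin 7 → ℤ => ∀ p ∈ T, ∃ o ∈ Om p, (p : ℤ) ∣ (m : ℤ) * LL o z + 1)),
            ∑ z ∈ @Finset.filter _ (fun z : Fin 7 → ℤ => ∀ p ∈ T, ∃ o ∈ Om p,
              (p : ℤ) ∣ (m : ℤ) * LL o z + 1) i1 (Box7 n), W7 b w z =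
            ∑ z ∈ @Finset.filter _ (fun z : Fin 7 → ℤ => ∀ p ∈ T, ∃ o ∈ Om p,
              (p : ℤ) ∣ (m : ℤ) * LL o z + 1) i2 (Box7 n), W7 b w z := by
          intro i1 i2
          apply Finset.sum_congr _ (fun _ _ => rfl)
          ext z
          rw [@Finset.mem_filter _ _ i1, @Finset.mem_filter _ _ i2]
        refine le_trans (le_of_eq ?_) hc3
        rw [hfilt _ _]
      · have hprod : ∏ p ∈ T, h p ≤ 8 ^ T.card / E T := by
          have h1 : ∏ p ∈ T, h p ≤ ∏ p ∈ T, (8 / (p : ℝ)) :=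
            Finset.prod_le_prod (fun p hp => (hh0 p (hTP hp)).1) (fun p hp => hh8 p (hTP hp))
          refine h1.trans_eq ?_
          rw [Finset.prod_div_distrib, Finset.prod_const]
          show _ = 8 ^ T.card / ((∏ p ∈ T, p : ℕ) : ℝ)
          push_cast
          rfl
        have hprod0 : 0 ≤ ∏ p ∈ T, h p := Finset.prod_nonneg (fun p hp => (hh0 p (hTP hp)).1)
        have h1 := hη0 T hT
        have h2 := hη1 T hT hcT
        have h3 : (1 + η T) ^ 6 ≤ (1 + Hm) ^ 6 := pow_le_pow_left₀ (by linarith) (by linarith) _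
        show 7 * η T * (1 + η T) ^ 6 * (M * ∏ p ∈ T, h p) ≤ 7 * (1 + Hm) ^ 6 * M * (η T * (8 ^ T.card / E T))
        calc 7 * η T * (1 + η T) ^ 6 * (M * ∏ p ∈ T, h p)
            ≤ 7 * η T * (1 + Hm) ^ 6 * (M * (8 ^ T.card / E T)) := by
              gcongr
          _ = _ := by ring
    · intro r
      apply D3g_eta n (∏ p ∈ T, p) b τ (σ T) (η T) _ he1 hτ hXb (hEb (∏ p ∈ T, p) he1 hD' (hcop T hT) r)
      show (n : ℝ) / Xb * σ T + E T / (τ * Xb) ≤ A * (σ T + σ' T) + A * (E T / (τ * n))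
      have h1 := hσ0 T
      have h2 := hσ0' T
      have h3 := hE1 T hT
      have h4 : 0 ≤ E T := by linarith
      have h5 : E T / (τ * Xb) = (n / Xb) * (E T / (τ * n)) := by field_simp
      have h6 : (n : ℝ) / Xb ≤ A := by rw [hA]; have : 0 ≤ (n : ℝ) / Xw := by positivity
                                       linarith
      have h7 : 0 ≤ E T / (τ * n) := by positivity
      rw [h5]
      have h8 : (n : ℝ) / Xb * σ T ≤ A * (σ T + σ' T) := by
        apply mul_le_mul h6 (by linarith) h1 hA0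
      have h9 : (n : ℝ) / Xb * (E T / (τ * n)) ≤ A * (E T / (τ * n)) := mul_le_mul_of_nonneg_right h6 h7
      linarith
    · intro r
      apply D3g_eta n (∏ p ∈ T, p) w τ (σ' T) (η T) _ he1 hτ hXw (hEw (∏ p ∈ T, p) he1 hD' (hcop T hT) r)
      show (n : ℝ) / Xw * σ' T + E T / (τ * Xw) ≤ A * (σ T + σ' T) + A * (E T / (τ * n))
      have h1 := hσ0 T
      have h2 := hσ0' T
      have h3 := hE1 T hT
      have h4 : 0 ≤ E T := by linarith
      have h5 : E T / (τ * Xw) = (n / Xw) * (E T / (τ * n)) := by field_simp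
      have h6 : (n : ℝ) / Xw ≤ A := by rw [hA]; have : 0 ≤ (n : ℝ) / Xb := by positivity
                                       linarith
      have h7 : 0 ≤ E T / (τ * n) := by positivity
      rw [h5]
      have h8 : (n : ℝ) / Xw * σ' T ≤ A * (σ T + σ' T) := by
        apply mul_le_mul h6 (by linarith) h2 hA0
      have h9 : (n : ℝ) / Xw * (E T / (τ * n)) ≤ A * (E T / (τ * n)) := mul_le_mul_of_nonneg_right h6 h7
      linarith
    · intro z v
      have key : ∀ p ∈ T, ∀ o, ((p : ℤ) ∣ (m : ℤ) * LL o z + 1 ↔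
          (p : ℤ) ∣ (m : ℤ) * LL o (fun j => z j + ((∏ p ∈ T, p : ℕ) : ℤ) * v j) + 1) := by
        intro p hp o
        rw [D3g_LL_add]
        have hdvd : (p : ℤ) ∣ ((∏ p ∈ T, p : ℕ) : ℤ) := by
          exact_mod_cast Finset.dvd_prod_of_mem (fun p => p) hp
        have heq : (m : ℤ) * (LL o z + ((∏ p ∈ T, p : ℕ) : ℤ) * LL o v) + 1 =
            ((m : ℤ) * LL o z + 1) + ((∏ p ∈ T, p : ℕ) : ℤ) * (m * LL o v) := by ring
        rw [heq]
        exact (dvd_add_left (Dvd.dvd.mul_right hdvd _)).symm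
      constructor
      · intro hU p hp
        obtain ⟨o, ho, hd⟩ := hU p hp
        exact ⟨o, ho, (key p hp o).mp hd⟩
      · intro hU p hp
        obtain ⟨o, ho, hd⟩ := hU p hp
        exact ⟨o, ho, (key p hp o).mpr hd⟩

end Pool.Agent.APP
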