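import Pool.Agent.Lib.MP_8a4e59_co.D.Stm

set_option autoImplicit false

namespace Pool.Agent.APP

open Finset

private lemma C6_dvd (T : Finset ℕ) (hT : ∀ p ∈ T, p.Prime) (a : ℤ) :
    (∀ p ∈ T, (p : ℤ) ∣ a) ↔ ((∏ p ∈ T, p : ℕ) : ℤ) ∣ a := by
  constructor
  · intro h
    have h1 : (∏ p ∈ T, p) ∣ a.natAbs := by
      apply Finset.prod_primes_dvd
      · intro p hp; exact (hT p hp).prime
      · intro p hp
        exact Int.natCast_dvd.1 (h p hp)
    exact Int.natCast_dvd.2 h1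
  · intro h p hp
    refine dvd_trans ?_ h
    exact_mod_cast Finset.dvd_prod_of_mem (fun p : ℕ => p) hp

private lemma C6_res (T : Finset ℕ) (hT : ∀ p ∈ T, p.Prime) (m : ℕ) (hm : ∀ p ∈ T, ¬ p ∣ m) :
    ∃ r : ℤ, ∀ x : ℤ, (∀ p ∈ T, (p : ℤ) ∣ (m : ℤ) * x + 1) ↔ ((∏ p ∈ T, p : ℕ) : ℤ) ∣ x - r := by
  have hc : Nat.Coprime m (∏ p ∈ T, p) := by
    apply Nat.Coprime.prod_right
    intro p hp
    exact ((Nat.Prime.coprime_iff_not_dvd (hT p hp)).2 (hm p hp)).symm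
  have hic : IsCoprime (m : ℤ) ((∏ p ∈ T, p : ℕ) : ℤ) := Nat.isCoprime_iff_coprime.2 hc
  obtain ⟨a, b, hab⟩ := hic
  refine ⟨-a, fun x => ?_⟩
  rw [C6_dvd T hT]
  have hic2 : IsCoprime ((∏ p ∈ T, p : ℕ) : ℤ) (m : ℤ) := (Nat.isCoprime_iff_coprime.2 hc).symm
  constructor
  · intro h
    have h1 : ((∏ p ∈ T, p : ℕ) : ℤ) ∣ (m : ℤ) * (x - -a) := by
      have e1 : (m : ℤ) * (x - -a) = ((m : ℤ) * x + 1) - b * ((∏ p ∈ T, p : ℕ) : ℤ) := by
        linear_combination hab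
      rw [e1]
      exact dvd_sub h (dvd_mul_left _ _)
    exact hic2.dvd_of_dvd_mul_left h1
  · intro h
    have e1 : (m : ℤ) * x + 1 = (m : ℤ) * (x - -a) + b * ((∏ p ∈ T, p : ℕ) : ℤ) := by
      linear_combination -hab
    rw [e1]
    exact dvd_add (dvd_mul_of_dvd_right h _) (dvd_mul_left _ _)

theorem p_C6 (hC4 : S_C4) : S_C6 := by
  classical
  intro n m k f M fl P hf hM hfl hP hcls
  have hprod : ∀ T : Finset ℕ, ∏ p ∈ T, (1 / (p : ℝ)) = 1 / ((∏ p ∈ T, p : ℕ) : ℝ) := by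
    intro T
    rw [Finset.prod_div_distrib, Finset.prod_const_one]
    push_cast
    rfl
  have h4 := hC4 ℤ (Finset.Icc (1 : ℤ) n) f P (fun x p => (p : ℤ) ∣ (m : ℤ) * x + 1)
    (fun p => 1 / (p : ℝ)) M (fun T => fl * (M / ((∏ p ∈ T, p : ℕ) : ℝ))) k
    (fun i _ => hf i)
    (fun p hp => by
      have hp1 : (1 : ℝ) ≤ p := by exact_mod_cast (hP p hp).1.one_lt.le
      exact ⟨by positivity, by rw [div_le_one (by linarith)]; exact hp1⟩)
    hM
    (fun T hT hTk => by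
      rw [Finset.mem_powerset] at hT
      obtain ⟨r, hr⟩ := C6_res T (fun p hp => (hP p (hT hp)).1) m (fun p hp => (hP p (hT hp)).2)
      have h5 := hcls T (Finset.mem_powerset.2 hT) hTk r
      have h6 : ∑ i ∈ (Finset.Icc (1 : ℤ) n).filter (fun i => ∀ p ∈ T, (p : ℤ) ∣ (m : ℤ) * i + 1), f i
          = cls f n (∏ p ∈ T, p) r := by
        unfold cls
        refine Finset.sum_congr ?_ (fun _ _ => rfl)
        ext x
        simp only [Finset.mem_filter, hr x]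
      rw [hprod T, h6, mul_one_div]
      exact h5)
  -- the product of (1 - 1/p) and VP
  have hpos : ∀ p ∈ P, (0 : ℝ) < 1 - 1 / (p : ℝ) := by
    intro p hp
    have hp1 : (1 : ℝ) < p := by exact_mod_cast (hP p hp).1.one_lt
    have : 1 / (p : ℝ) < 1 := by rw [div_lt_one (by linarith)]; exact hp1
    linarith
  have hVP0 : 0 ≤ VP P := by
    unfold VP
    apply Finset.prod_nonneg
    intro p hp
    exact inv_nonneg.2 (hpos p hp).le
  have hVP1 : VP P * ∏ p ∈ P, (1 - 1 / (p : ℝ)) = 1 := by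
    unfold VP
    rw [← Finset.prod_mul_distrib]
    apply Finset.prod_eq_one
    intro p hp
    exact inv_mul_cancel₀ (hpos p hp).ne'
  have hsum : ∑ x ∈ Finset.Icc (1 : ℤ) n, f x * nuP P m x =
      VP P * ∑ i ∈ (Finset.Icc (1 : ℤ) n).filter (fun i => ∀ p ∈ P, ¬ (p : ℤ) ∣ (m : ℤ) * i + 1), f i := by
    rw [Finset.sum_filter, Finset.mul_sum]
    apply Finset.sum_congr rfl
    intro x _
    unfold nuP
    split_ifs
    · ring
    · ring
  have herr : ∑ T ∈ P.powerset.filter (fun T => T.card ≤ k + 1), fl * (M / ((∏ p ∈ T, p : ℕ) : ℝ)) ≤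
      fl * (M * ∏ p ∈ P, (1 + 1 / (p : ℝ))) := by
    calc ∑ T ∈ P.powerset.filter (fun T => T.card ≤ k + 1), fl * (M / ((∏ p ∈ T, p : ℕ) : ℝ))
        ≤ ∑ T ∈ P.powerset, fl * (M / ((∏ p ∈ T, p : ℕ) : ℝ)) := by
          apply Finset.sum_le_sum_of_subset_of_nonneg (Finset.filter_subset _ _)
          intro T _ _
          positivity
      _ = fl * (M * ∏ p ∈ P, (1 + 1 / (p : ℝ))) := by
          rw [Finset.prod_one_add, Finset.mul_sum, Finset.mul_sum]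
          apply Finset.sum_congr rfl
          intro T _
          rw [hprod T]
          ring
  rw [hsum]
  have e1 : VP P * ∑ i ∈ (Finset.Icc (1 : ℤ) n).filter (fun i => ∀ p ∈ P, ¬ (p : ℤ) ∣ (m : ℤ) * i + 1), f i - M
      = VP P * (∑ i ∈ (Finset.Icc (1 : ℤ) n).filter (fun i => ∀ p ∈ P, ¬ (p : ℤ) ∣ (m : ℤ) * i + 1), f i -
        M * ∏ p ∈ P, (1 - 1 / (p : ℝ))) := by
    rw [mul_sub]
    congr 1
    calc M = M * 1 := by ring
      _ = M * (VP P * ∏ p ∈ P, (1 - 1 / (p : ℝ))) := by rw [hVP1]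
      _ = _ := by ring
  rw [e1, abs_mul, abs_of_nonneg hVP0]
  calc VP P * |∑ i ∈ (Finset.Icc (1 : ℤ) n).filter (fun i => ∀ p ∈ P, ¬ (p : ℤ) ∣ (m : ℤ) * i + 1), f i -
        M * ∏ p ∈ P, (1 - 1 / (p : ℝ))|
      ≤ VP P * (2 * M * (∑ p ∈ P, 1 / (p : ℝ)) ^ (k + 1) / ((k + 1).factorial : ℝ) +
        fl * (M * ∏ p ∈ P, (1 + 1 / (p : ℝ)))) := by
        apply mul_le_mul_of_nonneg_left _ hVP0
        refine le_trans (le_of_eq ?_) (h4.trans (add_le_add le_rfl herr))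
        congr! 3
        ext x
        simp only [Finset.mem_filter]
    _ = _ := by ring

end Pool.Agent.APP
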