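import Pool.Agent.Lib.MP_8a4e59_co.D.Stm

set_option autoImplicit false

/-! (D3d1), helper80. -/

namespace Pool.Agent.APP

open Finset

private lemma D3d1_big (T : Finset ℕ) (hT : ∀ p ∈ T, 64 ≤ p) :
    (8 : ℝ) ^ T.card ≤ Real.sqrt ((∏ p ∈ T, p : ℕ) : ℝ) := by
  apply Real.le_sqrt_of_sq_le
  rw [← pow_mul, mul_comm, pow_mul]
  push_cast
  calc ((8 : ℝ) ^ 2) ^ T.card = ∏ p ∈ T, ((8 : ℝ) ^ 2) := by rw [prod_const]
    _ ≤ ∏ p ∈ T, (p : ℝ) := by
        refine prod_le_prod (fun p _ => by positivity) fun p hp => ?_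
        have : (64 : ℝ) ≤ p := by exact_mod_cast hT p hp
        linarith

theorem p_D3d1 : S_D3d1 := by
  intro T hT
  classical
  set S := T.filter (fun p => p < 64) with hS
  set B := T.filter (fun p => ¬ p < 64) with hB
  have hcard : S.card + B.card = T.card := card_filter_add_card_filter_not (s := T) (fun p => p < 64)
  have hScard : S.card ≤ 64 := by
    have : S ⊆ range 64 := fun p hp => mem_range.2 (mem_filter.1 hp).2
    simpa using card_le_card this
  have hbig := D3d1_big B (fun p hp => not_lt.1 (mem_filter.1 hp).2)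
  have hle : (∏ p ∈ B, p : ℕ) ≤ (∏ p ∈ T, p : ℕ) :=
    prod_le_prod_of_subset_of_one_le' (filter_subset _ _) fun p hp _ => (hT p hp).one_le
  have hle' : Real.sqrt ((∏ p ∈ B, p : ℕ) : ℝ) ≤ Real.sqrt ((∏ p ∈ T, p : ℕ) : ℝ) :=
    Real.sqrt_le_sqrt (by exact_mod_cast hle)
  rw [← hcard, pow_add]
  exact mul_le_mul (pow_le_pow_right₀ (by norm_num) hScard) (hbig.trans hle') (by positivity)
    (by positivity)

end Pool.Agent.APP
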